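import Mathlib

/-!
# Project CPT : the algebra of the eight cells

`nste` = mass of (left state `s`, right state `t`, event `e`), `s, t, e ∈ {0, 1}`, `0` = low.
-/

set_option autoImplicit false

namespace Pool.Agent.CPT.Alg

/-- Splitting the table by the event `e` (index 3): if both halves satisfy the correlation
inequality then `D_AE * D_EB ≤ D_AB * T0 * T1`. -/
theorem split {n000 n001 n010 n011 n100 n101 n110 n111 : ℝ}
    (p000 : 0 ≤ n000) (p001 : 0 ≤ n001) (p010 : 0 ≤ n010) (p011 : 0 ≤ n011)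
    (p100 : 0 ≤ n100) (p101 : 0 ≤ n101) (p110 : 0 ≤ n110) (p111 : 0 ≤ n111)
    (h0 : n010 * n100 ≤ n000 * n110) (h1 : n011 * n101 ≤ n001 * n111) :
    ((n000 + n010) * (n101 + n111) - (n001 + n011) * (n100 + n110)) *
      ((n000 + n100) * (n011 + n111) - (n010 + n110) * (n001 + n101)) ≤
    ((n000 + n001) * (n110 + n111) - (n010 + n011) * (n100 + n101)) *
      ((n000 + n010 + n100 + n110) * (n001 + n011 + n101 + n111)) := by
  have hT0 : 0 ≤ n000 + n010 + n100 + n110 := by positivity
  have hT1 : 0 ≤ n001 + n011 + n101 + n111 := by positivity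
  have hT : 0 ≤ (n000 + n010 + n100 + n110) + (n001 + n011 + n101 + n111) := by positivity
  have hD0 : 0 ≤ n000 * n110 - n010 * n100 := sub_nonneg.2 h0
  have hD1 : 0 ≤ n001 * n111 - n011 * n101 := sub_nonneg.2 h1
  have key : ((n000 + n001) * (n110 + n111) - (n010 + n011) * (n100 + n101)) *
      ((n000 + n010 + n100 + n110) * (n001 + n011 + n101 + n111)) -
      ((n000 + n010) * (n101 + n111) - (n001 + n011) * (n100 + n110)) *
      ((n000 + n100) * (n011 + n111) - (n010 + n110) * (n001 + n101)) =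
      ((n000 + n010 + n100 + n110) + (n001 + n011 + n101 + n111)) *
      ((n000 * n110 - n010 * n100) * (n001 + n011 + n101 + n111) +
       (n001 * n111 - n011 * n101) * (n000 + n010 + n100 + n110)) := by
    ring
  have h := mul_nonneg hT (add_nonneg (mul_nonneg hD0 hT1) (mul_nonneg hD1 hT0))
  linarith [key]

/-- Step C.  `h0 h1`: the table splits well by `e`; `g0 g1`: the table (`e`, `t`) splits well by
`s`; the table fails; no coincidence.  Then `D_AE < 0` and `0 < D_EB`. -/
theorem stepC {n000 n001 n010 n011 n100 n101 n110 n111 : ℝ}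
    (p000 : 0 ≤ n000) (p001 : 0 ≤ n001) (p010 : 0 ≤ n010) (p011 : 0 ≤ n011)
    (p100 : 0 ≤ n100) (p101 : 0 ≤ n101) (p110 : 0 ≤ n110) (p111 : 0 ≤ n111)
    (h0 : n010 * n100 ≤ n000 * n110) (h1 : n011 * n101 ≤ n001 * n111)
    (g0 : n001 * n010 ≤ n000 * n011) (g1 : n101 * n110 ≤ n100 * n111)
    (hneg : (n000 + n001) * (n110 + n111) < (n010 + n011) * (n100 + n101))
    (hnc : 0 < n000 + n010 → 0 < n101 + n111 → 0 < n001 + n011 ∨ 0 < n100 + n110) :
    (n000 + n010) * (n101 + n111) < (n001 + n011) * (n100 + n110) ∧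
      (n010 + n110) * (n001 + n101) < (n000 + n100) * (n011 + n111) := by
  have H1 := split p000 p001 p010 p011 p100 p101 p110 p111 h0 h1
  have H2 := split (n000 := n000) (n001 := n100) (n010 := n010) (n011 := n110)
    (n100 := n001) (n101 := n101) (n110 := n011) (n111 := n111)
    p000 p100 p010 p110 p001 p101 p011 p111 (by linarith) (by linarith)
  -- abbreviations
  obtain ⟨K00, hK00⟩ : ∃ k, k = n000 + n010 := ⟨_, rfl⟩
  obtain ⟨K01, hK01⟩ : ∃ k, k = n001 + n011 := ⟨_, rfl⟩
  obtain ⟨K10, hK10⟩ : ∃ k, k = n100 + n110 := ⟨_, rfl⟩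
  obtain ⟨K11, hK11⟩ : ∃ k, k = n101 + n111 := ⟨_, rfl⟩
  have q00 : 0 ≤ K00 := by rw [hK00]; positivity
  have q01 : 0 ≤ K01 := by rw [hK01]; positivity
  have q10 : 0 ≤ K10 := by rw [hK10]; positivity
  have q11 : 0 ≤ K11 := by rw [hK11]; positivity
  obtain ⟨a, ha⟩ : ∃ k, k = (n000 + n010) * (n101 + n111) - (n001 + n011) * (n100 + n110) :=
    ⟨_, rfl⟩
  obtain ⟨u, hu⟩ : ∃ k, k = -((n000 + n001) * (n110 + n111) - (n010 + n011) * (n100 + n101)) :=
    ⟨_, rfl⟩
  obtain ⟨v, hv⟩ : ∃ k, k = (n000 + n100) * (n011 + n111) - (n010 + n110) * (n001 + n101) :=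
    ⟨_, rfl⟩
  have ha' : a = K00 * K11 - K01 * K10 := by rw [ha, hK00, hK01, hK10, hK11]
  have hupos : 0 < u := by rw [hu]; linarith
  have hT : (n000 + n010 + n100 + n110) * (n001 + n011 + n101 + n111) =
      (K00 + K10) * (K01 + K11) := by rw [hK00, hK01, hK10, hK11]; ring
  have hA : (n000 + n010 + n001 + n011) * (n100 + n110 + n101 + n111) =
      (K00 + K01) * (K10 + K11) := by rw [hK00, hK01, hK10, hK11]; ring
  have H1' : a * v ≤ -u * ((K00 + K10) * (K01 + K11)) := by
    rw [← hT, ha, hv, hu]; linarith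
  have H2' : a * (-u) ≤ v * ((K00 + K01) * (K10 + K11)) := by
    rw [← hA, ha, hv, hu]
    have e1 : (n000 + n010) * (n101 + n111) - (n100 + n110) * (n001 + n011) =
      (n000 + n010) * (n101 + n111) - (n001 + n011) * (n100 + n110) := by ring
    have e2 : (n000 + n100) * (n011 + n111) - (n010 + n110) * (n001 + n101) =
      (n000 + n100) * (n011 + n111) - (n010 + n110) * (n001 + n101) := rfl
    rw [e1] at H2
    linarith
  -- the totals are positive
  have hTpos : 0 < (K00 + K10) * (K01 + K11) := by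
    rcases (by positivity : 0 ≤ K00 + K10).eq_or_lt with h | h
    · exfalso
      have z1 : K00 = 0 := by linarith
      have z2 : K10 = 0 := by linarith
      have a1 : n000 = 0 := by linarith
      have a2 : n010 = 0 := by linarith
      have a3 : n100 = 0 := by linarith
      have a4 : n110 = 0 := by linarith
      rw [a1, a2, a3, a4] at hneg
      linarith
    · rcases (by positivity : 0 ≤ K01 + K11).eq_or_lt with h' | h'
      · exfalso
        have z1 : K01 = 0 := by linarith
        have z2 : K11 = 0 := by linarith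
        have a1 : n001 = 0 := by linarith
        have a2 : n011 = 0 := by linarith
        have a3 : n101 = 0 := by linarith
        have a4 : n111 = 0 := by linarith
        rw [a1, a2, a3, a4] at hneg
        linarith
      · exact mul_pos h h'
  have hav : a * v < 0 := by
    have : 0 < u * ((K00 + K10) * (K01 + K11)) := mul_pos hupos hTpos
    linarith
  have hv0 : 0 < v := by
    by_contra hv0
    have hvneg : v < 0 := by
      rcases (not_lt.1 hv0).eq_or_lt with h | h
      · rw [h] at hav; simp at hav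
      · exact h
    have hapos : 0 < a := by
      by_contra h
      have := mul_nonneg_of_nonpos_of_nonpos (not_lt.1 h) hvneg.le
      linarith
    have hK : 0 < K00 * K11 := by
      have := mul_nonneg q01 q10
      linarith
    have hK0 : 0 < K00 := by
      rcases q00.eq_or_lt with h | h
      · rw [← h] at hK; simp at hK
      · exact h
    have hK1 : 0 < K11 := by
      rcases q11.eq_or_lt with h | h
      · rw [← h] at hK; simp at hK
      · exact h
    have hnc' : 0 < K01 + K10 := by
      rcases hnc (by rw [← hK00]; exact hK0) (by rw [← hK11]; exact hK1) with h | h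
      · rw [← hK01] at h; linarith
      · rw [← hK10] at h; linarith
    -- u T ≤ a (-v), (-v) A ≤ a u
    have hA0 : 0 ≤ (K00 + K01) * (K10 + K11) := by positivity
    have i1 : u * ((K00 + K10) * (K01 + K11)) * ((K00 + K01) * (K10 + K11)) ≤
        a * (-v) * ((K00 + K01) * (K10 + K11)) :=
      mul_le_mul_of_nonneg_right (by linarith) hA0
    have i2 : a * ((-v) * ((K00 + K01) * (K10 + K11))) ≤ a * (a * u) :=
      mul_le_mul_of_nonneg_left (by linarith) hapos.le
    have i3 : u * (((K00 + K10) * (K01 + K11)) * ((K00 + K01) * (K10 + K11))) ≤ u * a ^ 2 := by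
      calc u * (((K00 + K10) * (K01 + K11)) * ((K00 + K01) * (K10 + K11)))
          = u * ((K00 + K10) * (K01 + K11)) * ((K00 + K01) * (K10 + K11)) := by ring
        _ ≤ a * (-v) * ((K00 + K01) * (K10 + K11)) := i1
        _ = a * ((-v) * ((K00 + K01) * (K10 + K11))) := by ring
        _ ≤ a * (a * u) := i2
        _ = u * a ^ 2 := by ring
    have i4 : ((K00 + K10) * (K01 + K11)) * ((K00 + K01) * (K10 + K11)) ≤ a ^ 2 :=
      le_of_mul_le_mul_left i3 hupos
    have i5 : a ≤ K00 * K11 := by
      have := mul_nonneg q01 q10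
      linarith
    have i6 : a ^ 2 ≤ (K00 * K11) ^ 2 := by
      exact pow_le_pow_left₀ hapos.le i5 2
    have i7 : (K00 * K11) ^ 2 + K00 ^ 1 * K11 ^ 2 * (K01 + K10) ≤
        ((K00 + K10) * (K01 + K11)) * ((K00 + K01) * (K10 + K11)) := by
      have e : ((K00 + K10) * (K01 + K11)) * ((K00 + K01) * (K10 + K11)) -
        ((K00 * K11) ^ 2 + K00 ^ 1 * K11 ^ 2 * (K01 + K10)) =
        (K00 ^ 2 + K00 * K01 + K00 * K10) * (K01 * K10 + K01 * K11 + K10 * K11) +
        K01 * K10 * (K01 * K10 + K01 * K11 + K10 * K11 + K11 ^ 2) := by ring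
      have e2 : 0 ≤ (K00 ^ 2 + K00 * K01 + K00 * K10) * (K01 * K10 + K01 * K11 + K10 * K11) +
        K01 * K10 * (K01 * K10 + K01 * K11 + K10 * K11 + K11 ^ 2) := by positivity
      linarith [e, e2]
    have i8 : 0 < K00 ^ 1 * K11 ^ 2 * (K01 + K10) := by positivity
    linarith
  have ha0 : a < 0 := by
    by_contra h
    have := mul_nonneg (not_lt.1 h) hv0.le
    linarith
  constructor
  · rw [ha] at ha0; linarith
  · rw [hv] at hv0; linarith

/-- The window step.  The table fails, it splits well by the event `e` (`w < c_{m+1}`); `gst` is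
the mass of `c_m < w < c_{m+1}` in the cell `(s, t)`, `D_AE ≤ 0` at `c_m` and `0 < D_AE` at
`c_{m+1}`.  Then `- D_AB ≤ T * g`. -/
theorem window {n000 n001 n010 n011 n100 n101 n110 n111 g0 g1 : ℝ}
    (p000 : 0 ≤ n000) (p001 : 0 ≤ n001) (p010 : 0 ≤ n010) (p011 : 0 ≤ n011)
    (p100 : 0 ≤ n100) (p101 : 0 ≤ n101) (p110 : 0 ≤ n110) (p111 : 0 ≤ n111)
    (q0 : 0 ≤ g0) (q1 : 0 ≤ g1)
    (h0 : n010 * n100 ≤ n000 * n110) (h1 : n011 * n101 ≤ n001 * n111)
    (hle : (n000 + n010 - g0) * (n101 + n111 + g1) ≤ (n001 + n011 + g0) * (n100 + n110 - g1))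
    (hpos : (n001 + n011) * (n100 + n110) < (n000 + n010) * (n101 + n111)) :
    (n010 + n011) * (n100 + n101) - (n000 + n001) * (n110 + n111) ≤
      (n000 + n001 + n010 + n011 + n100 + n101 + n110 + n111) * (g0 + g1) := by
  have H1 := split p000 p001 p010 p011 p100 p101 p110 p111 h0 h1
  obtain ⟨T0, hT0⟩ : ∃ k, k = n000 + n010 + n100 + n110 := ⟨_, rfl⟩
  obtain ⟨T1, hT1⟩ : ∃ k, k = n001 + n011 + n101 + n111 := ⟨_, rfl⟩
  rw [← hT0, ← hT1] at H1
  have t0 : 0 ≤ T0 := by rw [hT0]; positivity
  have t1 : 0 ≤ T1 := by rw [hT1]; positivity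
  obtain ⟨a, ha⟩ : ∃ k, k = (n000 + n010) * (n101 + n111) - (n001 + n011) * (n100 + n110) :=
    ⟨_, rfl⟩
  obtain ⟨u, hu⟩ : ∃ k, k = (n000 + n001) * (n110 + n111) - (n010 + n011) * (n100 + n101) :=
    ⟨_, rfl⟩
  obtain ⟨v, hv⟩ : ∃ k, k = (n000 + n100) * (n011 + n111) - (n010 + n110) * (n001 + n101) :=
    ⟨_, rfl⟩
  rw [← ha, ← hu, ← hv] at H1
  have hapos : 0 < a := by rw [ha]; linarith
  -- `T0 T1 > 0`
  have hTT : 0 < T0 * T1 := by
    have e : a ≤ T0 * T1 := by
      rw [ha, hT0, hT1]
      have := mul_nonneg (add_nonneg p001 p011) (add_nonneg p100 p110)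
      have h2 : (n000 + n010) * (n101 + n111) ≤
          (n000 + n010 + n100 + n110) * (n001 + n011 + n101 + n111) :=
        mul_le_mul (by linarith) (by linarith) (by positivity) (by positivity)
      linarith
    linarith
  have hvb : -v ≤ T0 * T1 := by
    rw [hv, hT0, hT1]
    have := mul_nonneg (add_nonneg p000 p100) (add_nonneg p011 p111)
    have h2 : (n010 + n110) * (n001 + n101) ≤
        (n000 + n010 + n100 + n110) * (n001 + n011 + n101 + n111) :=
      mul_le_mul (by linarith) (by linarith) (by positivity) (by positivity)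
    linarith
  have hua : -u ≤ a := by
    have h3 : a * (-v) ≤ a * (T0 * T1) := mul_le_mul_of_nonneg_left hvb hapos.le
    have h4 : (-u) * (T0 * T1) ≤ a * (T0 * T1) := by linarith
    exact le_of_mul_le_mul_right h4 hTT
  have hag : a ≤ (n000 + n001 + n010 + n011 + n100 + n101 + n110 + n111) * (g0 + g1) := by
    have h5 : a ≤ g0 * (n100 + n110 + n101 + n111) - (n000 + n010 + n001 + n011) * g1 := by
      have e : (n000 + n010 - g0) * (n101 + n111 + g1) - (n001 + n011 + g0) * (n100 + n110 - g1) =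
        (n000 + n010) * (n101 + n111) - (n001 + n011) * (n100 + n110) -
        (g0 * (n100 + n110 + n101 + n111) - (n000 + n010 + n001 + n011) * g1) := by ring
      rw [ha]
      linarith [e, hle]
    have h6 : g0 * (n100 + n110 + n101 + n111) ≤
        g0 * (n000 + n001 + n010 + n011 + n100 + n101 + n110 + n111) :=
      mul_le_mul_of_nonneg_left (by linarith) q0
    have h7 : 0 ≤ (n000 + n010 + n001 + n011) * g1 := by positivity
    have h8 : 0 ≤ (n000 + n001 + n010 + n011 + n100 + n101 + n110 + n111) * g1 := by positivity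
    have h9 : (n000 + n001 + n010 + n011 + n100 + n101 + n110 + n111) * (g0 + g1) =
      g0 * (n000 + n001 + n010 + n011 + n100 + n101 + n110 + n111) +
      (n000 + n001 + n010 + n011 + n100 + n101 + n110 + n111) * g1 := by ring
    linarith [h5, h6, h7, h8, h9]
  rw [hu] at hua
  linarith

end Pool.Agent.CPT.Alg
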