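import Pool.Agent.CPT.Defs

/-!
# CPT/Cpc : the cross product inequality from the correlation inequality of the tables

`N_expand_x`: `N(a+1,b) = N(a,b) + SUM_i eps_i N(i pinned immediately before x)`, `eps_i = 1` for `x < i`, `-1` for
`i < x` (if `x` is never first).  `N_expand_z` is the mirror image.  From both, the exact identity
`F10 F01 - F00 F11 = SUM_ij eps_i eta_j (P_i Q_j - F00 PQ_ij)`, whose terms are nonnegative by `AllCA`.
-/

set_option autoImplicit false

namespace Pool.Agent.CPT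

namespace Sys

variable {X : Type}

/-- Change of the gaps. -/
def gaps (S : Sys X) (a b : ℕ) : Sys X := { S with a := a, b := b }

/-- Removal of the relations between two letters. -/
def cut (S : Sys X) (u v : X) : Sys X :=
  { S with R := fun p q => S.R p q ∧ ¬ (p = u ∧ q = v) ∧ ¬ (p = v ∧ q = u) }

/-- The letter `i` is pinned immediately before `x`. -/
def pinx (S : Sys X) (i : X) : Sys X := { S.cut S.x i with px := some i }

/-- The letter `j` is pinned immediately after `z`. -/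
def pinz (S : Sys X) (j : X) : Sys X := { S.cut S.z j with pz := some j }

open Classical in
/-- The sign of the letter `i` at `x`. -/
noncomputable def sx (S : Sys X) (i : X) : ℤ :=
  (if S.R S.x i then 1 else 0) - (if S.R i S.x then 1 else 0)

open Classical in
/-- The sign of the letter `j` at `z`. -/
noncomputable def sz (S : Sys X) (j : X) : ℤ :=
  (if S.R j S.z then 1 else 0) - (if S.R S.z j then 1 else 0)

/-- The reversed system. -/
def rev (S : Sys X) : Sys X where
  R := fun p q => S.R q p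
  px := S.pz
  pz := S.px
  x := S.z
  y := S.y
  z := S.x
  a := S.b
  b := S.a

section Count

variable [Fintype X]

private theorem card_fib (C : (X ≃ Fin (Fintype.card X)) → Prop) (E : (X ≃ Fin (Fintype.card X)) → X → Prop)
    (h : ∀ f, C f → ∃ t, E f t) (h' : ∀ f, C f → ∀ t t', E f t → E f t' → t = t') :
    Nat.card {f // C f} = ∑ t, Nat.card {f // C f ∧ E f t} := by
  classical
  rw [← Nat.card_sigma]
  refine (Nat.card_congr (Equiv.ofBijective (fun p : (Σ t, {f // C f ∧ E f t}) => (⟨p.2.1, p.2.2.1⟩ : {f // C f}))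
    ⟨?_, ?_⟩)).symm
  · rintro ⟨t, f, hf⟩ ⟨t', f', hf'⟩ hff
    have h1 : f = f' := congrArg (fun p => p.1) hff
    subst h1
    have h2 := h' f hf.1 t t' hf.2 hf'.2
    subst h2
    rfl
  · rintro ⟨f, hf⟩
    obtain ⟨t, ht⟩ := h f hf
    exact ⟨⟨t, f, hf, ht⟩, rfl⟩

private theorem swap_conf [DecidableEq X] (S : Sys X) (hpx : S.px = none) (ha : 1 ≤ S.a) (hb : 1 ≤ S.b) (t : X)
    (ht : ¬ S.R t S.x) (f : X ≃ Fin (Fintype.card X)) :
    ((S.gaps (S.a + 1) S.b).Conf f ∧ (f t : ℕ) = (f S.x : ℕ) + 1) ↔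
      (S.pinx t).Conf ((Equiv.swap S.x t).trans f) := by
  have inj : ∀ u v, u ≠ v → (f u : ℕ) ≠ (f v : ℕ) := fun u v h h' => h (f.injective (Fin.ext h'))
  have gx : ((Equiv.swap S.x t).trans f) S.x = f t := by simp
  have gt : ((Equiv.swap S.x t).trans f) t = f S.x := by simp
  have go : ∀ u, u ≠ S.x → u ≠ t → ((Equiv.swap S.x t).trans f) u = f u := fun u h1 h2 => by
    simp [Equiv.swap_apply_of_ne_of_ne h1 h2]
  generalize (Equiv.swap S.x t).trans f = g at gx gt go
  constructor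
  · rintro ⟨⟨h1, h2, h3, -, h5⟩, h6⟩
    change ∀ u v, S.R u v → f u < f v at h1
    change (f S.y : ℕ) = (f S.x : ℕ) + (S.a + 1) at h2
    change (f S.z : ℕ) = (f S.y : ℕ) + S.b at h3
    change ∀ q, S.pz = some q → (f q : ℕ) = (f S.z : ℕ) + 1 at h5
    have hyx : S.y ≠ S.x := by intro h; rw [h] at h2; omega
    have hyt : S.y ≠ t := by intro h; rw [h] at h2; omega
    have hzx : S.z ≠ S.x := by intro h; rw [h] at h3; omega
    have hzt : S.z ≠ t := by intro h; rw [h] at h3; omega
    refine ⟨?_, ?_, ?_, ?_, ?_⟩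
    · rintro u v ⟨huv, n1, n2⟩
      change ¬ (u = S.x ∧ v = t) at n1
      change ¬ (u = t ∧ v = S.x) at n2
      have h := h1 u v huv
      rw [Fin.lt_def] at h ⊢
      by_cases hux : u = S.x
      · by_cases hvx : v = S.x
        · rw [hux, hvx] at h; omega
        · by_cases hvt : v = t
          · exact absurd ⟨hux, hvt⟩ n1
          · rw [hux] at h ⊢
            rw [gx, go v hvx hvt]
            have := inj v t hvt
            omega
      · by_cases hut : u = t
        · by_cases hvx : v = S.x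
          · exact absurd ⟨hut, hvx⟩ n2
          · by_cases hvt : v = t
            · rw [hut, hvt] at h; omega
            · rw [hut] at h ⊢
              rw [gt, go v hvx hvt]
              omega
        · by_cases hvx : v = S.x
          · rw [hvx] at h ⊢
            rw [gx, go u hux hut]
            omega
          · by_cases hvt : v = t
            · rw [hvt] at h ⊢
              rw [gt, go u hux hut]
              have := inj u S.x hux
              omega
            · rw [go u hux hut, go v hvx hvt]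
              exact h
    · change (g S.y : ℕ) = (g S.x : ℕ) + S.a
      rw [go _ hyx hyt, gx]
      omega
    · change (g S.z : ℕ) = (g S.y : ℕ) + S.b
      rw [go _ hyx hyt, go _ hzx hzt]
      exact h3
    · intro p hp
      change some t = some p at hp
      rw [← Option.some.inj hp]
      change (g t : ℕ) + 1 = (g S.x : ℕ)
      rw [gt, gx, h6]
    · intro q hq
      have h := h5 q hq
      change (g q : ℕ) = (g S.z : ℕ) + 1
      have hqx : q ≠ S.x := by intro h'; rw [h'] at h; omega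
      have hqt : q ≠ t := by intro h'; rw [h'] at h; omega
      rw [go _ hqx hqt, go _ hzx hzt]
      exact h
  · rintro ⟨h1, h2, h3, h4, h5⟩
    change ∀ u v, S.R u v ∧ ¬ (u = S.x ∧ v = t) ∧ ¬ (u = t ∧ v = S.x) → g u < g v at h1
    change (g S.y : ℕ) = (g S.x : ℕ) + S.a at h2
    change (g S.z : ℕ) = (g S.y : ℕ) + S.b at h3
    have h6 : (g t : ℕ) + 1 = (g S.x : ℕ) := h4 t rfl
    change ∀ q, S.pz = some q → (g q : ℕ) = (g S.z : ℕ) + 1 at h5
    have hyx : S.y ≠ S.x := by intro h; rw [h] at h2; omega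
    have hyt : S.y ≠ t := by intro h; rw [h] at h2; omega
    have hzx : S.z ≠ S.x := by intro h; rw [h] at h3; omega
    have hzt : S.z ≠ t := by intro h; rw [h] at h3; omega
    have htx : t ≠ S.x := by intro h; rw [h] at h6; omega
    rw [go _ hyx hyt, gx] at h2
    rw [go _ hyx hyt, go _ hzx hzt] at h3
    rw [gt, gx] at h6
    refine ⟨⟨?_, ?_, ?_, ?_, ?_⟩, h6.symm⟩
    · intro u v huv
      change S.R u v at huv
      rw [Fin.lt_def]
      by_cases hux : u = S.x
      · by_cases hvx : v = S.x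
        · have h := h1 u v ⟨huv, fun h' => htx (h'.2 ▸ hvx), fun h' => htx (h'.1 ▸ hux)⟩
          rw [hux, hvx] at h
          exact absurd h (lt_irrefl _)
        · by_cases hvt : v = t
          · rw [hux, hvt]; omega
          · have h := h1 u v ⟨huv, fun h' => hvt h'.2, fun h' => hvx h'.2⟩
            rw [hux, gx, go v hvx hvt, Fin.lt_def] at h
            rw [hux]
            omega
      · by_cases hut : u = t
        · by_cases hvx : v = S.x
          · rw [hut, hvx] at huv
            exact absurd huv ht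
          · have h := h1 u v ⟨huv, fun h' => hux h'.1, fun h' => hvx h'.2⟩
            by_cases hvt : v = t
            · rw [hut, hvt] at h
              exact absurd h (lt_irrefl _)
            · rw [hut, gt, go v hvx hvt, Fin.lt_def] at h
              have := inj v t hvt
              rw [hut]
              omega
        · have h := h1 u v ⟨huv, fun h' => hux h'.1, fun h' => hut h'.1⟩
          by_cases hvx : v = S.x
          · rw [hvx, gx, go u hux hut, Fin.lt_def] at h
            have := inj u S.x hux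
            rw [hvx]
            omega
          · by_cases hvt : v = t
            · rw [hvt, gt, go u hux hut, Fin.lt_def] at h
              rw [hvt]
              omega
            · rw [go u hux hut, go v hvx hvt, Fin.lt_def] at h
              exact h
    · change (f S.y : ℕ) = (f S.x : ℕ) + (S.a + 1)
      omega
    · exact h3
    · intro p hp
      change S.px = some p at hp
      rw [hpx] at hp
      exact absurd hp (by simp)
    · intro q hq
      have h := h5 q hq
      have hqx : q ≠ S.x := by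
        intro h'
        rw [h', gx, go _ hzx hzt] at h
        omega
      have hqt : q ≠ t := by
        intro h'
        rw [h', gt, go _ hzx hzt] at h
        omega
      rw [go _ hqx hqt, go _ hzx hzt] at h
      exact h

/-- precomposition with a transposition -/
private def swE [DecidableEq X] (u v : X) : (X ≃ Fin (Fintype.card X)) ≃ (X ≃ Fin (Fintype.card X)) where
  toFun f := (Equiv.swap u v).trans f
  invFun f := (Equiv.swap u v).trans f
  left_inv f := by ext; simp
  right_inv f := by ext; simp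

private theorem card_after (S : Sys X) (hpx : S.px = none) (ha : 1 ≤ S.a) (hb : 1 ≤ S.b) (t : X)
    (ht : ¬ S.R t S.x) :
    Nat.card {f // (S.gaps (S.a + 1) S.b).Conf f ∧ (f t : ℕ) = (f S.x : ℕ) + 1} = (S.pinx t).N := by
  classical
  exact Nat.card_congr (Equiv.subtypeEquiv (swE S.x t) (fun f => swap_conf S hpx ha hb t ht f))

private theorem card_after0 (S : Sys X) (t : X) (ht : S.R t S.x) :
    Nat.card {f // (S.gaps (S.a + 1) S.b).Conf f ∧ (f t : ℕ) = (f S.x : ℕ) + 1} = 0 := by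
  rw [Nat.card_eq_zero]
  left
  refine ⟨?_⟩
  rintro ⟨f, h1, h2⟩
  have h := h1.1 t S.x ht
  rw [Fin.lt_def] at h
  omega

private theorem card_before (S : Sys X) (hpx : S.px = none) (t : X) (ht : ¬ S.R S.x t) :
    Nat.card {f // S.Conf f ∧ (f t : ℕ) + 1 = (f S.x : ℕ)} = (S.pinx t).N := by
  refine Nat.card_congr (Equiv.subtypeEquivRight fun f => ?_)
  constructor
  · rintro ⟨⟨h1, h2, h3, -, h5⟩, h6⟩
    refine ⟨fun u v h => h1 u v h.1, h2, h3, ?_, h5⟩
    intro p hp
    rw [← Option.some.inj hp]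
    exact h6
  · rintro ⟨h1, h2, h3, h4, h5⟩
    have h6 : (f t : ℕ) + 1 = (f S.x : ℕ) := h4 t rfl
    refine ⟨⟨?_, h2, h3, ?_, h5⟩, h6⟩
    · intro u v h
      by_cases h7 : u = S.x ∧ v = t
      · rw [h7.1, h7.2] at h
        exact absurd h ht
      · by_cases h8 : u = t ∧ v = S.x
        · rw [h8.1, h8.2, Fin.lt_def]
          omega
        · exact h1 u v ⟨h, h7, h8⟩
    · intro p hp
      rw [hpx] at hp
      exact absurd hp (by simp)

private theorem card_before0 (S : Sys X) (t : X) (ht : S.R S.x t) :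
    Nat.card {f // S.Conf f ∧ (f t : ℕ) + 1 = (f S.x : ℕ)} = 0 := by
  rw [Nat.card_eq_zero]
  left
  refine ⟨?_⟩
  rintro ⟨f, h1, h2⟩
  have h := h1.1 S.x t ht
  rw [Fin.lt_def] at h
  omega

private theorem expand_after (S : Sys X) :
    (S.gaps (S.a + 1) S.b).N = ∑ t, Nat.card {f // (S.gaps (S.a + 1) S.b).Conf f ∧ (f t : ℕ) = (f S.x : ℕ) + 1} := by
  refine card_fib _ (fun f t => (f t : ℕ) = (f S.x : ℕ) + 1) ?_ ?_
  · intro f hf
    have h : (f S.x : ℕ) + 1 < Fintype.card X := by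
      have h1 := (f S.y).2
      have h2 : (f S.y : ℕ) = (f S.x : ℕ) + (S.a + 1) := hf.2.1
      omega
    exact ⟨f.symm ⟨_, h⟩, by simp⟩
  · intro f _ t t' h h'
    exact f.injective (Fin.ext (by rw [h, h']))

private theorem expand_before (S : Sys X) (hbot : ∃ o, S.R o S.x) :
    S.N = ∑ t, Nat.card {f // S.Conf f ∧ (f t : ℕ) + 1 = (f S.x : ℕ)} := by
  refine card_fib _ (fun f t => (f t : ℕ) + 1 = (f S.x : ℕ)) ?_ ?_
  · intro f hf
    obtain ⟨o, ho⟩ := hbot
    have h1 := hf.1 o S.x ho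
    rw [Fin.lt_def] at h1
    have h : (f S.x : ℕ) - 1 < Fintype.card X := by
      have h1 := (f S.x).2
      omega
    refine ⟨f.symm ⟨_, h⟩, ?_⟩
    simp
    omega
  · intro f _ t t' h h'
    exact f.injective (Fin.ext (by omega))

/-- The expansion at `x`. -/
theorem N_expand_x (S : Sys X) (hpx : S.px = none) (ha : 1 ≤ S.a) (hb : 1 ≤ S.b) (hbot : ∃ o, S.R o S.x) :
    ((S.gaps (S.a + 1) S.b).N : ℤ) = S.N + ∑ i, S.sx i * ((S.pinx i).N : ℤ) := by
  classical
  rw [expand_after, expand_before S hbot]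
  push_cast
  rw [← Finset.sum_add_distrib]
  refine Finset.sum_congr rfl fun t _ => ?_
  unfold sx
  by_cases h1 : S.R t S.x
  · by_cases h2 : S.R S.x t
    · rw [card_after0 S t h1, card_before0 S t h2]
      simp [h1, h2]
    · rw [card_after0 S t h1, card_before S hpx t h2]
      simp [h1, h2]
  · by_cases h2 : S.R S.x t
    · rw [card_after S hpx ha hb t h1, card_before0 S t h2]
      simp [h1, h2]
    · rw [card_after S hpx ha hb t h1, card_before S hpx t h2]
      simp [h1, h2]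

private theorem rev_conf (S : Sys X) (f : X ≃ Fin (Fintype.card X)) :
    S.Conf f → S.rev.Conf (f.trans Fin.revPerm) := by
  rintro ⟨h1, h2, h3, h4, h5⟩
  have hv : ∀ u, (((f.trans Fin.revPerm) u : Fin _) : ℕ) = Fintype.card X - ((f u : ℕ) + 1) := by
    intro u
    simp [Fin.val_rev]
  have hl : ∀ u, (f u : ℕ) < Fintype.card X := fun u => (f u).2
  refine ⟨?_, ?_, ?_, ?_, ?_⟩
  · intro u v huv
    have h := h1 v u huv
    rw [Fin.lt_def] at h ⊢
    rw [hv, hv]
    have := hl u
    have := hl v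
    omega
  · rw [hv, hv]
    have h6 := hl S.z
    change Fintype.card X - ((f S.y : ℕ) + 1) = Fintype.card X - ((f S.z : ℕ) + 1) + S.b
    omega
  · rw [hv, hv]
    have h6 := hl S.y
    change Fintype.card X - ((f S.x : ℕ) + 1) = Fintype.card X - ((f S.y : ℕ) + 1) + S.a
    omega
  · intro p hp
    have h := h5 p hp
    rw [hv, hv]
    have h6 := hl p
    change Fintype.card X - ((f p : ℕ) + 1) + 1 = Fintype.card X - ((f S.z : ℕ) + 1)
    omega
  · intro p hp
    have h := h4 p hp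
    rw [hv, hv]
    have h6 := hl S.x
    change Fintype.card X - ((f p : ℕ) + 1) = Fintype.card X - ((f S.x : ℕ) + 1) + 1
    omega

theorem N_rev (S : Sys X) : S.rev.N = S.N := by
  have h : ∀ T : Sys X, T.N ≤ T.rev.N := by
    intro T
    refine Nat.card_le_card_of_injective (fun f => ⟨f.1.trans Fin.revPerm, rev_conf T f.1 f.2⟩) ?_
    intro f g hfg
    have h1 : f.1.trans Fin.revPerm = g.1.trans Fin.revPerm := congrArg (fun p => p.1) hfg
    refine Subtype.ext (Equiv.ext fun u => ?_)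
    have h2 := DFunLike.congr_fun h1 u
    simpa using h2
  exact le_antisymm (h S.rev) (h S)

/-- The expansion at `z`. -/
theorem N_expand_z (S : Sys X) (hpz : S.pz = none) (ha : 1 ≤ S.a) (hb : 1 ≤ S.b) (htop : ∃ o, S.R S.z o) :
    ((S.gaps S.a (S.b + 1)).N : ℤ) = S.N + ∑ j, S.sz j * ((S.pinz j).N : ℤ) := by
  have h := N_expand_x S.rev hpz hb ha htop
  rw [N_rev] at h
  have h1 : (S.rev.gaps (S.rev.a + 1) S.rev.b).N = (S.gaps S.a (S.b + 1)).N := by
    rw [← N_rev]
    rfl
  rw [h1] at h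
  rw [h]
  congr 1
  refine Finset.sum_congr rfl fun j _ => ?_
  have h2 : (S.rev.pinx j).N = (S.pinz j).N := by
    rw [← N_rev]
    refine N_congr _ _ fun f => ?_
    constructor
    · rintro ⟨h1, h2, h3, h4, h5⟩
      exact ⟨fun u v ⟨a1, a2, a3⟩ => h1 u v ⟨a1, fun a4 => a3 ⟨a4.2, a4.1⟩, fun a4 => a2 ⟨a4.2, a4.1⟩⟩, h2, h3, h4, h5⟩
    · rintro ⟨h1, h2, h3, h4, h5⟩
      exact ⟨fun u v ⟨a1, a2, a3⟩ => h1 u v ⟨a1, fun a4 => a3 ⟨a4.2, a4.1⟩, fun a4 => a2 ⟨a4.2, a4.1⟩⟩, h2, h3, h4, h5⟩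
  rw [h2]
  rfl

/-! ### The tables -/

theorem conf_cut (S : Sys X) (u v : X) (f : X ≃ Fin (Fintype.card X)) (h : S.R u v) (h' : ¬ S.R v u) :
    S.Conf f ↔ (S.cut u v).Conf f ∧ f u < f v := by
  constructor
  · rintro ⟨h1, h2, h3, h4, h5⟩
    exact ⟨⟨fun p q hpq => h1 p q hpq.1, h2, h3, h4, h5⟩, h1 u v h⟩
  · rintro ⟨⟨h1, h2, h3, h4, h5⟩, h6⟩
    refine ⟨?_, h2, h3, h4, h5⟩
    intro p q hpq
    by_cases a1 : p = u ∧ q = v
    · rw [a1.1, a1.2]; exact h6
    · by_cases a2 : p = v ∧ q = u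
      · rw [a2.1, a2.2] at hpq; exact absurd hpq h'
      · exact h1 p q ⟨hpq, a1, a2⟩

theorem conf_cut' (S : Sys X) (u v : X) (f : X ≃ Fin (Fintype.card X)) (h : S.R v u) (h' : ¬ S.R u v) :
    S.Conf f ↔ (S.cut u v).Conf f ∧ f v < f u := by
  constructor
  · rintro ⟨h1, h2, h3, h4, h5⟩
    exact ⟨⟨fun p q hpq => h1 p q hpq.1, h2, h3, h4, h5⟩, h1 v u h⟩
  · rintro ⟨⟨h1, h2, h3, h4, h5⟩, h6⟩
    refine ⟨?_, h2, h3, h4, h5⟩
    intro p q hpq
    by_cases a1 : p = u ∧ q = v
    · rw [a1.1, a1.2] at hpq; exact absurd hpq h'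
    · by_cases a2 : p = v ∧ q = u
      · rw [a2.1, a2.2]; exact h6
      · exact h1 p q ⟨hpq, a1, a2⟩

/-- the state of the letter `i` at `x` -/
private def StL (S : Sys X) (i : X) (s : Fin 3) : Prop :=
  (s = 2 ∧ S.R S.x i ∧ ¬ S.R i S.x) ∨ (s = 0 ∧ S.R i S.x ∧ ¬ S.R S.x i)

/-- the state of the letter `j` at `z` -/
private def StR (S : Sys X) (j : X) (t : Fin 3) : Prop :=
  (t = 2 ∧ S.R S.z j ∧ ¬ S.R j S.z) ∨ (t = 0 ∧ S.R j S.z ∧ ¬ S.R S.z j)

/-- the base system of the table `(i, j)` -/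
private def B (S : Sys X) (i j : X) : Sys X := (S.cut S.x i).cut S.z j

private theorem cell_F (S : Sys X) {i j : X} (hz : S.z ≠ S.x) (hi : S.z ≠ i) {s t : Fin 3} (hs : StL S i s)
    (ht : StR S j t) : (((S.B i j).left i s).right j t).N = S.N := by
  refine N_congr _ _ fun f => ?_
  rcases hs with ⟨rfl, h1, h2⟩ | ⟨rfl, h1, h2⟩ <;> rcases ht with ⟨rfl, h3, h4⟩ | ⟨rfl, h3, h4⟩
  · rw [conf_cut S S.x i f h1 h2, conf_cut (S.cut S.x i) S.z j f ⟨h3, fun h => hz h.1, fun h => hi h.1⟩
      (fun h => h4 h.1)]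
    change (((S.B i j).add S.x i).add S.z j).Conf f ↔ _
    rw [conf_add, conf_add]
    unfold B
    tauto
  · rw [conf_cut S S.x i f h1 h2, conf_cut' (S.cut S.x i) S.z j f ⟨h3, fun h => hi h.2, fun h => hz h.2⟩
      (fun h => h4 h.1)]
    change (((S.B i j).add S.x i).add j S.z).Conf f ↔ _
    rw [conf_add, conf_add]
    unfold B
    tauto
  · rw [conf_cut' S S.x i f h1 h2, conf_cut (S.cut S.x i) S.z j f ⟨h3, fun h => hz h.1, fun h => hi h.1⟩
      (fun h => h4 h.1)]
    change (((S.B i j).add i S.x).add S.z j).Conf f ↔ _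
    rw [conf_add, conf_add]
    unfold B
    tauto
  · rw [conf_cut' S S.x i f h1 h2, conf_cut' (S.cut S.x i) S.z j f ⟨h3, fun h => hi h.2, fun h => hz h.2⟩
      (fun h => h4 h.1)]
    change (((S.B i j).add i S.x).add j S.z).Conf f ↔ _
    rw [conf_add, conf_add]
    unfold B
    tauto

private theorem cell_P (S : Sys X) {i j : X} (hz : S.z ≠ S.x) (hi : S.z ≠ i) {t : Fin 3}
    (ht : StR S j t) : (((S.B i j).left i 1).right j t).N = (S.pinx i).N := by
  refine N_congr _ _ fun f => ?_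
  rcases ht with ⟨rfl, h3, h4⟩ | ⟨rfl, h3, h4⟩
  · rw [conf_cut (S.pinx i) S.z j f ⟨h3, fun h => hz h.1, fun h => hi h.1⟩ (fun h => h4 h.1)]
    change (((S.pinx i).cut S.z j).add S.z j).Conf f ↔ _
    rw [conf_add]
  · rw [conf_cut' (S.pinx i) S.z j f ⟨h3, fun h => hi h.2, fun h => hz h.2⟩ (fun h => h4 h.1)]
    change (((S.pinx i).cut S.z j).add j S.z).Conf f ↔ _
    rw [conf_add]

private theorem cell_Q0 (S : Sys X) (i j : X) (f : X ≃ Fin (Fintype.card X)) :
    (({ S.B i j with pz := some j } : Sys X)).Conf f ↔ ((S.pinz j).cut S.x i).Conf f := by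
  constructor
  · rintro ⟨h1, h2, h3, h4, h5⟩
    exact ⟨fun u v ⟨⟨a1, a2, a3⟩, a4, a5⟩ => h1 u v ⟨⟨a1, a4, a5⟩, a2, a3⟩, h2, h3, h4, h5⟩
  · rintro ⟨h1, h2, h3, h4, h5⟩
    exact ⟨fun u v ⟨⟨a1, a2, a3⟩, a4, a5⟩ => h1 u v ⟨⟨a1, a4, a5⟩, a2, a3⟩, h2, h3, h4, h5⟩

private theorem cell_Q (S : Sys X) {i j : X} (hz : S.z ≠ S.x) (hj : j ≠ S.x) {s : Fin 3}
    (hs : StL S i s) : (((S.B i j).left i s).right j 1).N = (S.pinz j).N := by
  refine N_congr _ _ fun f => ?_
  rcases hs with ⟨rfl, h3, h4⟩ | ⟨rfl, h3, h4⟩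
  · rw [conf_cut (S.pinz j) S.x i f ⟨h3, fun h => hz h.1.symm, fun h => hj h.1.symm⟩ (fun h => h4 h.1),
      ← cell_Q0]
    change ((({ S.B i j with pz := some j } : Sys X)).add S.x i).Conf f ↔ _
    rw [conf_add]
  · rw [conf_cut' (S.pinz j) S.x i f ⟨h3, fun h => hj h.2.symm, fun h => hz h.2.symm⟩ (fun h => h4 h.1),
      ← cell_Q0]
    change ((({ S.B i j with pz := some j } : Sys X)).add i S.x).Conf f ↔ _
    rw [conf_add]

private theorem cell_PQ (S : Sys X) (i j : X) :
    (((S.B i j).left i 1).right j 1).N = ((S.pinx i).pinz j).N := rfl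

private theorem N_zero (S : Sys X) (h : ∀ f, ¬ S.Conf f) : S.N = 0 := by
  by_contra hne
  obtain ⟨f, hf⟩ := (N_pos_iff _).1 (Nat.pos_of_ne_zero hne)
  exact h f hf

/-- the inequality of one table -/
private theorem ca_use (hCA : AllCA) (S : Sys X) (hpx : S.px = none) (hpz : S.pz = none) (ha : 1 ≤ S.a)
    (hb : 1 ≤ S.b) (i j : X) {s s' t t' : Fin 3} (hs : s < s') (ht : t < t') :
    (((S.B i j).left i s).right j t').N * (((S.B i j).left i s').right j t).N ≤
      (((S.B i j).left i s).right j t).N * (((S.B i j).left i s').right j t').N := by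
  have h := hCA X ⟨S.B i j, i, s, s', j, t, t'⟩ ⟨hs, ht, Or.inl hpx, Or.inl hpz, ha, hb⟩
  exact h

private theorem term_nonneg (hCA : AllCA) (S : Sys X) (hpx : S.px = none) (hpz : S.pz = none) (ha : 1 ≤ S.a)
    (hb : 1 ≤ S.b) (hz : S.z ≠ S.x) (i j : X) :
    0 ≤ S.sx i * S.sz j * (((S.pinx i).N : ℤ) * (S.pinz j).N - (S.N : ℤ) * ((S.pinx i).pinz j).N) := by
  classical
  by_cases hi : S.z = i
  · have h1 : (S.pinx i).N = 0 := N_zero _ fun f hf => by
      have h2 : (f i : ℕ) + 1 = (f S.x : ℕ) := hf.2.2.2.1 i rfl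
      have h3 : (f S.y : ℕ) = (f S.x : ℕ) + S.a := hf.2.1
      have h4 : (f S.z : ℕ) = (f S.y : ℕ) + S.b := hf.2.2.1
      rw [← hi] at h2
      omega
    have h1' : ((S.pinx i).pinz j).N = 0 := N_zero _ fun f hf => by
      have h2 : (f i : ℕ) + 1 = (f S.x : ℕ) := hf.2.2.2.1 i rfl
      have h3 : (f S.y : ℕ) = (f S.x : ℕ) + S.a := hf.2.1
      have h4 : (f S.z : ℕ) = (f S.y : ℕ) + S.b := hf.2.2.1
      rw [← hi] at h2
      omega
    rw [h1, h1']
    simp
  by_cases hj : j = S.x
  · have h1 : (S.pinz j).N = 0 := N_zero _ fun f hf => by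
      have h2 : (f j : ℕ) = (f S.z : ℕ) + 1 := hf.2.2.2.2 j rfl
      have h3 : (f S.y : ℕ) = (f S.x : ℕ) + S.a := hf.2.1
      have h4 : (f S.z : ℕ) = (f S.y : ℕ) + S.b := hf.2.2.1
      rw [hj] at h2
      omega
    have h1' : ((S.pinx i).pinz j).N = 0 := N_zero _ fun f hf => by
      have h2 : (f j : ℕ) = (f S.z : ℕ) + 1 := hf.2.2.2.2 j rfl
      have h3 : (f S.y : ℕ) = (f S.x : ℕ) + S.a := hf.2.1
      have h4 : (f S.z : ℕ) = (f S.y : ℕ) + S.b := hf.2.2.1
      rw [hj] at h2
      omega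
    rw [h1, h1']
    simp
  have key : ∀ {s s' t t' : Fin 3}, s < s' → t < t' →
      ((((S.B i j).left i s).right j t').N : ℤ) * (((S.B i j).left i s').right j t).N ≤
      ((((S.B i j).left i s).right j t).N : ℤ) * (((S.B i j).left i s').right j t').N := by
    intro s s' t t' hs ht
    exact_mod_cast ca_use hCA S hpx hpz ha hb i j hs ht
  by_cases h1 : S.R S.x i <;> by_cases h2 : S.R i S.x
  · simp [sx, h1, h2]
  · have e1 : S.sx i = 1 := by simp [sx, h1, h2]
    have s1 : StL S i 2 := Or.inl ⟨rfl, h1, h2⟩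
    by_cases h3 : S.R j S.z <;> by_cases h4 : S.R S.z j
    · simp [sz, h3, h4]
    · have e2 : S.sz j = 1 := by simp [sz, h3, h4]
      have s2 : StR S j 0 := Or.inr ⟨rfl, h3, h4⟩
      have h5 := key (s := 1) (s' := 2) (t := 0) (t' := 1) (by decide) (by decide)
      rw [cell_PQ, cell_F S hz hi s1 s2, cell_P S hz hi s2, cell_Q S hz hj s1] at h5
      rw [e1, e2]
      linarith
    · have e2 : S.sz j = -1 := by simp [sz, h3, h4]
      have s2 : StR S j 2 := Or.inl ⟨rfl, h4, h3⟩
      have h5 := key (s := 1) (s' := 2) (t := 1) (t' := 2) (by decide) (by decide)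
      rw [cell_PQ, cell_F S hz hi s1 s2, cell_P S hz hi s2, cell_Q S hz hj s1] at h5
      rw [e1, e2]
      linarith
    · simp [sz, h3, h4]
  · have e1 : S.sx i = -1 := by simp [sx, h1, h2]
    have s1 : StL S i 0 := Or.inr ⟨rfl, h2, h1⟩
    by_cases h3 : S.R j S.z <;> by_cases h4 : S.R S.z j
    · simp [sz, h3, h4]
    · have e2 : S.sz j = 1 := by simp [sz, h3, h4]
      have s2 : StR S j 0 := Or.inr ⟨rfl, h3, h4⟩
      have h5 := key (s := 0) (s' := 1) (t := 0) (t' := 1) (by decide) (by decide)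
      rw [cell_PQ, cell_F S hz hi s1 s2, cell_P S hz hi s2, cell_Q S hz hj s1] at h5
      rw [e1, e2]
      linarith
    · have e2 : S.sz j = -1 := by simp [sz, h3, h4]
      have s2 : StR S j 2 := Or.inl ⟨rfl, h4, h3⟩
      have h5 := key (s := 0) (s' := 1) (t := 1) (t' := 2) (by decide) (by decide)
      rw [cell_PQ, cell_F S hz hi s1 s2, cell_P S hz hi s2, cell_Q S hz hj s1] at h5
      rw [e1, e2]
      linarith
    · simp [sz, h3, h4]
  · simp [sx, h1, h2]

/-- the expansion of `F(a + 1, b + 1)` -/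
private theorem F11 (S : Sys X) (hpx : S.px = none) (hpz : S.pz = none) (ha : 1 ≤ S.a) (hb : 1 ≤ S.b)
    (hz : S.z ≠ S.x) (hbot : ∃ o, S.R o S.x) (htop : ∃ o, S.R S.z o ∧ o ≠ S.x) :
    ((S.gaps (S.a + 1) (S.b + 1)).N : ℤ) = (S.gaps S.a (S.b + 1)).N + (∑ i, S.sx i * ((S.pinx i).N : ℤ)) +
      ∑ i, ∑ j, S.sx i * S.sz j * (((S.pinx i).pinz j).N : ℤ) := by
  classical
  have h := N_expand_x (S.gaps S.a (S.b + 1)) hpx ha (by change 1 ≤ S.b + 1; omega) hbot
  have h0 : ((S.gaps S.a (S.b + 1)).gaps ((S.gaps S.a (S.b + 1)).a + 1) (S.gaps S.a (S.b + 1)).b) =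
      S.gaps (S.a + 1) (S.b + 1) := rfl
  rw [h0] at h
  rw [h, add_assoc, ← Finset.sum_add_distrib]
  congr 1
  refine Finset.sum_congr rfl fun i _ => ?_
  have h1 : (S.gaps S.a (S.b + 1)).sx i = S.sx i := rfl
  have h2 : ((S.gaps S.a (S.b + 1)).pinx i) = (S.pinx i).gaps (S.pinx i).a ((S.pinx i).b + 1) := rfl
  obtain ⟨o, ho, hox⟩ := htop
  have h3 := N_expand_z (S.pinx i) hpz ha hb ⟨o, ho, fun h => hz h.1, fun h => hox h.2⟩
  rw [h1, h2, h3, mul_add, Finset.mul_sum]
  congr 1
  refine Finset.sum_congr rfl fun j _ => ?_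
  rw [← mul_assoc]
  by_cases hi : S.z = i
  · have h1' : ((S.pinx i).pinz j).N = 0 := N_zero _ fun f hf => by
      have h2 : (f i : ℕ) + 1 = (f S.x : ℕ) := hf.2.2.2.1 i rfl
      have h3 : (f S.y : ℕ) = (f S.x : ℕ) + S.a := hf.2.1
      have h4 : (f S.z : ℕ) = (f S.y : ℕ) + S.b := hf.2.2.1
      rw [← hi] at h2
      omega
    rw [h1']
    simp
  · have h4 : (S.pinx i).sz j = S.sz j := by
      have h5 : (S.pinx i).R j S.z ↔ S.R j S.z :=
        ⟨fun h => h.1, fun h => ⟨h, fun h' => hi h'.2, fun h' => hz h'.2⟩⟩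
      have h6 : (S.pinx i).R S.z j ↔ S.R S.z j :=
        ⟨fun h => h.1, fun h => ⟨h, fun h' => hz h'.1, fun h' => hi h'.1⟩⟩
      unfold sz
      change (if (S.pinx i).R j S.z then (1 : ℤ) else 0) - (if (S.pinx i).R S.z j then 1 else 0) = _
      simp only [h5, h6]
    rw [h4]

/-- The cross product inequality for systems in which `x` is never first and `z` never last. -/
theorem cpc_sys (hCA : AllCA) (S : Sys X) (hpx : S.px = none) (hpz : S.pz = none) (ha : 1 ≤ S.a) (hb : 1 ≤ S.b)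
    (hz : S.z ≠ S.x) (hbot : ∃ o, S.R o S.x) (htop : ∃ o, S.R S.z o ∧ o ≠ S.x) :
    S.N * (S.gaps (S.a + 1) (S.b + 1)).N ≤ (S.gaps (S.a + 1) S.b).N * (S.gaps S.a (S.b + 1)).N := by
  have h1 := N_expand_x S hpx ha hb hbot
  have h2 := N_expand_z S hpz ha hb (htop.imp fun o h => h.1)
  have h3 := F11 S hpx hpz ha hb hz hbot htop
  have h4 : ((S.gaps (S.a + 1) S.b).N : ℤ) * (S.gaps S.a (S.b + 1)).N - S.N * (S.gaps (S.a + 1) (S.b + 1)).N =
      ∑ i, ∑ j, S.sx i * S.sz j * (((S.pinx i).N : ℤ) * (S.pinz j).N - (S.N : ℤ) * ((S.pinx i).pinz j).N) := by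
    have h5 : (∑ i, ∑ j, S.sx i * S.sz j * (((S.pinx i).N : ℤ) * (S.pinz j).N -
        (S.N : ℤ) * ((S.pinx i).pinz j).N)) =
        (∑ i, S.sx i * ((S.pinx i).N : ℤ)) * (∑ j, S.sz j * ((S.pinz j).N : ℤ)) -
        S.N * ∑ i, ∑ j, S.sx i * S.sz j * (((S.pinx i).pinz j).N : ℤ) := by
      rw [Finset.sum_mul_sum, Finset.mul_sum, ← Finset.sum_sub_distrib]
      refine Finset.sum_congr rfl fun i _ => ?_
      rw [Finset.mul_sum, ← Finset.sum_sub_distrib]
      refine Finset.sum_congr rfl fun j _ => ?_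
      ring
    rw [h5, h3, h1, h2]
    ring
  have h5 : (0 : ℤ) ≤ ∑ i, ∑ j, S.sx i * S.sz j * (((S.pinx i).N : ℤ) * (S.pinz j).N -
      (S.N : ℤ) * ((S.pinx i).pinz j).N) :=
    Finset.sum_nonneg fun i _ => Finset.sum_nonneg fun j _ => term_nonneg hCA S hpx hpz ha hb hz i j
  have h6 : (S.N : ℤ) * (S.gaps (S.a + 1) (S.b + 1)).N ≤
      ((S.gaps (S.a + 1) S.b).N : ℤ) * (S.gaps S.a (S.b + 1)).N := by
    linarith
  exact_mod_cast h6

/-! ### A least and a greatest letter -/

/-- the conditions for a configuration with values in `Fin m` -/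
private def ConfM (S : Sys X) (m : ℕ) (f : X ≃ Fin m) : Prop :=
  (∀ u v, S.R u v → f u < f v) ∧
  ((f S.y : ℕ) = (f S.x : ℕ) + S.a) ∧ ((f S.z : ℕ) = (f S.y : ℕ) + S.b) ∧
  (∀ p, S.px = some p → (f p : ℕ) + 1 = (f S.x : ℕ)) ∧
  (∀ q, S.pz = some q → (f q : ℕ) = (f S.z : ℕ) + 1)

private theorem N_eq_M (S : Sys X) (m : ℕ) (h : Fintype.card X = m) :
    S.N = Nat.card {f : X ≃ Fin m // S.ConfM m f} := by
  subst h
  rfl

omit [Fintype X] in
/-- a least letter is added -/
def bot (S : Sys X) : Sys (Option X) where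
  R := fun p q => match p, q with
    | none, some _ => True
    | some u, some v => S.R u v
    | _, none => False
  px := S.px.map some
  pz := S.pz.map some
  x := some S.x
  y := some S.y
  z := some S.z
  a := S.a
  b := S.b

/-- extension of a bijection by the new least letter -/
private def exb (n : ℕ) (f : X ≃ Fin n) : Option X ≃ Fin (n + 1) :=
  (Equiv.optionCongr f).trans (finSuccEquiv n).symm

omit [Fintype X] in
private theorem exb_none (n : ℕ) (f : X ≃ Fin n) : exb n f none = 0 := by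
  simp [exb]

omit [Fintype X] in
private theorem exb_some (n : ℕ) (f : X ≃ Fin n) (u : X) : exb n f (some u) = (f u).succ := by
  simp [exb]

omit [Fintype X] in
private theorem exb_inj (n : ℕ) : Function.Injective (exb n : (X ≃ Fin n) → (Option X ≃ Fin (n + 1))) := by
  intro f g h
  refine Equiv.ext fun u => ?_
  have h1 := DFunLike.congr_fun h (some u)
  rw [exb_some, exb_some] at h1
  exact Fin.succ_injective _ h1

omit [Fintype X] in
private theorem exb_surj (n : ℕ) (g : Option X ≃ Fin (n + 1)) (hg : g none = 0) : ∃ f : X ≃ Fin n, exb n f = g := by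
  have h0 : (g.trans (finSuccEquiv n)) none = none := by simp [hg]
  refine ⟨Equiv.removeNone (g.trans (finSuccEquiv n)), ?_⟩
  refine Equiv.ext fun u => ?_
  cases u with
  | none => rw [exb_none, hg]
  | some u =>
    have h1 : (g.trans (finSuccEquiv n)) (some u) ≠ none := by
      intro h
      rw [← h0] at h
      exact absurd ((g.trans (finSuccEquiv n)).injective h) (by simp)
    obtain ⟨w, hw⟩ := Option.ne_none_iff_exists'.1 h1
    have h2 := Equiv.removeNone_some (g.trans (finSuccEquiv n)) ⟨w, hw⟩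
    have h3 : exb n (Equiv.removeNone (g.trans (finSuccEquiv n))) (some u) =
        (finSuccEquiv n).symm (some (Equiv.removeNone (g.trans (finSuccEquiv n)) u)) := rfl
    rw [h3, h2]
    simp

private theorem exb_conf (S : Sys X) (n : ℕ) (f : X ≃ Fin n) : S.bot.ConfM (n + 1) (exb n f) ↔ S.ConfM n f := by
  have hs : ∀ u, ((exb n f (some u) : Fin (n + 1)) : ℕ) = (f u : ℕ) + 1 := by
    intro u
    rw [exb_some]
    simp
  constructor
  · rintro ⟨h1, h2, h3, h4, h5⟩
    change ((exb n f (some S.y) : Fin (n + 1)) : ℕ) = ((exb n f (some S.x) : Fin (n + 1)) : ℕ) + S.a at h2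
    change ((exb n f (some S.z) : Fin (n + 1)) : ℕ) = ((exb n f (some S.y) : Fin (n + 1)) : ℕ) + S.b at h3
    rw [hs, hs] at h2 h3
    refine ⟨?_, by omega, by omega, ?_, ?_⟩
    · intro u v huv
      have h := h1 (some u) (some v) huv
      rw [Fin.lt_def, hs, hs] at h
      rw [Fin.lt_def]
      omega
    · intro p hp
      have h := h4 (some p) (by change S.px.map some = some (some p); rw [hp]; rfl)
      change ((exb n f (some p) : Fin (n + 1)) : ℕ) + 1 = ((exb n f (some S.x) : Fin (n + 1)) : ℕ) at h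
      rw [hs, hs] at h
      omega
    · intro p hp
      have h := h5 (some p) (by change S.pz.map some = some (some p); rw [hp]; rfl)
      change ((exb n f (some p) : Fin (n + 1)) : ℕ) = ((exb n f (some S.z) : Fin (n + 1)) : ℕ) + 1 at h
      rw [hs, hs] at h
      omega
  · rintro ⟨h1, h2, h3, h4, h5⟩
    refine ⟨?_, ?_, ?_, ?_, ?_⟩
    · intro u v huv
      match u, v, huv with
      | none, some v, _ =>
        rw [Fin.lt_def, hs, exb_none]
        simp
      | some u, some v, huv =>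
        have h := h1 u v huv
        rw [Fin.lt_def] at h
        rw [Fin.lt_def, hs, hs]
        omega
    · change ((exb n f (some S.y) : Fin (n + 1)) : ℕ) = ((exb n f (some S.x) : Fin (n + 1)) : ℕ) + S.a
      rw [hs, hs]
      omega
    · change ((exb n f (some S.z) : Fin (n + 1)) : ℕ) = ((exb n f (some S.y) : Fin (n + 1)) : ℕ) + S.b
      rw [hs, hs]
      omega
    · intro p hp
      change S.px.map some = some p at hp
      obtain ⟨p', hp', rfl⟩ := Option.map_eq_some_iff.1 hp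
      change ((exb n f (some p') : Fin (n + 1)) : ℕ) + 1 = ((exb n f (some S.x) : Fin (n + 1)) : ℕ)
      rw [hs, hs]
      have := h4 p' hp'
      omega
    · intro p hp
      change S.pz.map some = some p at hp
      obtain ⟨p', hp', rfl⟩ := Option.map_eq_some_iff.1 hp
      change ((exb n f (some p') : Fin (n + 1)) : ℕ) = ((exb n f (some S.z) : Fin (n + 1)) : ℕ) + 1
      rw [hs, hs]
      have := h5 p' hp'
      omega

theorem N_bot (S : Sys X) : S.bot.N = S.N := by
  rw [N_eq_M S.bot (Fintype.card X + 1) Fintype.card_option]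
  have h : S.N = Nat.card {f : X ≃ Fin (Fintype.card X) // S.ConfM (Fintype.card X) f} := rfl
  rw [h]
  refine (Nat.card_congr (Equiv.ofBijective
    (fun f : {f : X ≃ Fin (Fintype.card X) // S.ConfM (Fintype.card X) f} =>
      (⟨exb _ f.1, (exb_conf S _ f.1).2 f.2⟩ :
        {g : Option X ≃ Fin (Fintype.card X + 1) // S.bot.ConfM (Fintype.card X + 1) g})) ⟨?_, ?_⟩)).symm
  · intro f g hfg
    exact Subtype.ext (exb_inj _ (congrArg (fun p => p.1) hfg))
  · rintro ⟨g, hg⟩
    have h0 : g none = 0 := by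
      obtain ⟨w, hw⟩ := g.surjective 0
      cases w with
      | none => exact hw
      | some w =>
        have h1 := hg.1 none (some w) trivial
        rw [hw] at h1
        exact absurd h1 (Fin.not_lt_zero _)
    obtain ⟨f, rfl⟩ := exb_surj _ g h0
    exact ⟨⟨f, (exb_conf S _ f).1 hg⟩, rfl⟩

omit [Fintype X] in
/-- a greatest letter is added -/
def top (S : Sys X) : Sys (Option X) := S.rev.bot.rev

theorem N_top (S : Sys X) : S.top.N = S.N := by
  unfold top
  rw [N_rev, N_bot, N_rev]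

end Count

end Sys

/-- The correlation inequality of the tables implies the cross product conjecture (`S08385`). -/
theorem cpc_of_allCA (hCA : AllCA) (X : Type) [Fintype X] [PartialOrder X] (x y z : X)
    (_hxy : x ≠ y) (_hyz : y ≠ z) (hxz : x ≠ z) (a b : ℕ) (ha : 1 ≤ a) (hb : 1 ≤ b) :
    Nat.card {f : X ≃ Fin (Fintype.card X) //
        StrictMono f ∧ ((f y : ℕ) = (f x : ℕ) + a) ∧ ((f z : ℕ) = (f y : ℕ) + b)} *
      Nat.card {f : X ≃ Fin (Fintype.card X) //
        StrictMono f ∧ ((f y : ℕ) = (f x : ℕ) + (a + 1)) ∧ ((f z : ℕ) = (f y : ℕ) + (b + 1))}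
    ≤
    Nat.card {f : X ≃ Fin (Fintype.card X) //
        StrictMono f ∧ ((f y : ℕ) = (f x : ℕ) + (a + 1)) ∧ ((f z : ℕ) = (f y : ℕ) + b)} *
      Nat.card {f : X ≃ Fin (Fintype.card X) //
        StrictMono f ∧ ((f y : ℕ) = (f x : ℕ) + a) ∧ ((f z : ℕ) = (f y : ℕ) + (b + 1))} := by
  let S : ℕ → ℕ → Sys X := fun a b => ⟨fun u v => u < v, none, none, x, y, z, a, b⟩
  have hS : ∀ a b, Nat.card {f : X ≃ Fin (Fintype.card X) //
      StrictMono f ∧ ((f y : ℕ) = (f x : ℕ) + a) ∧ ((f z : ℕ) = (f y : ℕ) + b)} = (S a b).bot.top.N := by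
    intro a b
    rw [Sys.N_top, Sys.N_bot]
    refine Nat.card_congr (Equiv.subtypeEquivRight fun f => ?_)
    constructor
    · rintro ⟨h1, h2, h3⟩
      exact ⟨fun u v h => h1 h, h2, h3, fun p hp => by simp [S] at hp, fun p hp => by simp [S] at hp⟩
    · rintro ⟨h1, h2, h3, -, -⟩
      exact ⟨fun u v h => h1 u v h, h2, h3⟩
  rw [hS, hS, hS, hS]
  have h := Sys.cpc_sys hCA (S a b).bot.top rfl rfl ha hb ?_ ?_ ?_
  · exact h
  · change some (some z) ≠ some (some x)
    intro h
    exact hxz (Option.some.inj (Option.some.inj h)).symm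
  · exact ⟨some none, trivial⟩
  · exact ⟨none, trivial, fun h => by cases h⟩

end Pool.Agent.CPT
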