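import Mathlib

/-!
# Project CPT : the cross product conjecture, reduction to separated systems

A *system* on a finite type `X` of letters is an arbitrary relation `R` (not necessarily transitive),
three marks `x`, `y`, `z`, two gaps `a`, `b`, and two optional pins: `px = some p` means that `p` is
immediately before `x`, `pz = some q` means that `q` is immediately after `z`.
`N` is the number of configurations `f : X ≃ Fin (card X)`.

A letter `i` has three states at `x`: `0` (before `x`), `1` (immediately before `x`, pinned),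
`2` (after `x`); a letter `j` has three states at `z`: `0` (before `z`), `1` (immediately after `z`,
pinned), `2` (after `z`).
-/

set_option autoImplicit false

namespace Pool.Agent.CPT

/-- A system: relation, pins, marks and gaps. -/
@[ext] structure Sys (X : Type) where
  R : X → X → Prop
  px : Option X
  pz : Option X
  x : X
  y : X
  z : X
  a : ℕ
  b : ℕ

namespace Sys

variable {X : Type}

/-- `f` is a configuration of the system `S`. -/
def Conf [Fintype X] (S : Sys X) (f : X ≃ Fin (Fintype.card X)) : Prop :=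
  (∀ u v, S.R u v → f u < f v) ∧
  ((f S.y : ℕ) = (f S.x : ℕ) + S.a) ∧ ((f S.z : ℕ) = (f S.y : ℕ) + S.b) ∧
  (∀ p, S.px = some p → (f p : ℕ) + 1 = (f S.x : ℕ)) ∧
  (∀ q, S.pz = some q → (f q : ℕ) = (f S.z : ℕ) + 1)

/-- The number of configurations. -/
noncomputable def N [Fintype X] (S : Sys X) : ℕ :=
  Nat.card {f : X ≃ Fin (Fintype.card X) // S.Conf f}

/-- Add the relation `u < v`. -/
def add (S : Sys X) (u v : X) : Sys X :=
  { S with R := fun p q => S.R p q ∨ (p = u ∧ q = v) }

/-- The three states of the letter `i` at the mark `x`. -/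
def left (S : Sys X) (i : X) : Fin 3 → Sys X
  | 0 => S.add i S.x
  | 1 => { S with px := some i }
  | 2 => S.add S.x i

/-- The three states of the letter `j` at the mark `z`. -/
def right (S : Sys X) (j : X) : Fin 3 → Sys X
  | 0 => S.add j S.z
  | 1 => { S with pz := some j }
  | 2 => S.add S.z j

/-- The letter `w` is undetermined at `x`. -/
def UndX (S : Sys X) (w : X) : Prop :=
  w ≠ S.x ∧ w ≠ S.y ∧ w ≠ S.z ∧ ¬ S.R w S.x ∧ ¬ S.R S.x w ∧ S.px ≠ some w

/-- The letter `w` is undetermined at `z`. -/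
def UndZ (S : Sys X) (w : X) : Prop :=
  w ≠ S.x ∧ w ≠ S.y ∧ w ≠ S.z ∧ ¬ S.R w S.z ∧ ¬ S.R S.z w ∧ S.pz ≠ some w

end Sys

/-- A 2x2 table: a system, a letter `i` with two states `s < s'` at `x`, a letter `j` with two
states `t < t'` at `z`. -/
@[ext] structure Tab (X : Type) where
  S : Sys X
  i : X
  s : Fin 3
  s' : Fin 3
  j : X
  t : Fin 3
  t' : Fin 3

namespace Tab

variable {X : Type}

/-- The tables of the class: if the system has a pin at `x` then the left letter is regular
(states `0`, `2`), and the same at `z`. -/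
def OK (T : Tab X) : Prop :=
  T.s < T.s' ∧ T.t < T.t' ∧ (T.S.px = none ∨ (T.s = 0 ∧ T.s' = 2)) ∧
  (T.S.pz = none ∨ (T.t = 0 ∧ T.t' = 2)) ∧ 1 ≤ T.S.a ∧ 1 ≤ T.S.b

/-- The count of the cell with left state `s` and right state `t`. -/
noncomputable def cell [Fintype X] (T : Tab X) (s t : Fin 3) : ℕ :=
  ((T.S.left T.i s).right T.j t).N

/-- The correlation inequality of the table. -/
def CA [Fintype X] (T : Tab X) : Prop :=
  T.cell T.s T.t' * T.cell T.s' T.t ≤ T.cell T.s T.t * T.cell T.s' T.t'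

/-- The number of undetermined pairs (letter, mark). -/
noncomputable def U (T : Tab X) : ℕ :=
  Nat.card {w : X // w ≠ T.i ∧ T.S.UndX w} + Nat.card {w : X // w ≠ T.j ∧ T.S.UndZ w}

/-- The table is separated: no letter other than `i`, `j` is undetermined at both `x` and `z`. -/
def Sep (T : Tab X) : Prop :=
  ∀ w, w ≠ T.i → w ≠ T.j → T.S.UndX w → T.S.UndZ w → False

end Tab

/-- The remaining combinatorial inequality: `CA` for separated tables. -/
def SepCA : Prop :=
  ∀ (X : Type) [Fintype X] (T : Tab X), T.OK → T.Sep → T.CA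

/-- `CA` for all tables. -/
def AllCA : Prop :=
  ∀ (X : Type) [Fintype X] (T : Tab X), T.OK → T.CA

/-! ### Basic API -/

namespace Sys

variable {X : Type} [Fintype X]

instance (S : Sys X) : Finite {f : X ≃ Fin (Fintype.card X) // S.Conf f} := by
  classical
  exact Subtype.finite

theorem N_congr (S S' : Sys X) (h : ∀ f, S.Conf f ↔ S'.Conf f) : S.N = S'.N :=
  Nat.card_congr (Equiv.subtypeEquivRight h)

theorem N_mono (S S' : Sys X) (h : ∀ f, S.Conf f → S'.Conf f) : S.N ≤ S'.N := by
  classical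
  exact Nat.card_le_card_of_injective (fun f => ⟨f.1, h f.1 f.2⟩)
    (fun f g hfg => Subtype.ext (congrArg (fun t => t.1) hfg))

theorem N_pos_iff (S : Sys X) : 0 < S.N ↔ ∃ f, S.Conf f := by
  classical
  unfold N
  rw [Nat.card_pos_iff]
  constructor
  · rintro ⟨⟨f⟩, _⟩
    exact ⟨f.1, f.2⟩
  · rintro ⟨f, hf⟩
    exact ⟨⟨⟨f, hf⟩⟩, inferInstance⟩

omit [Fintype X] in
@[simp] theorem add_R (S : Sys X) (u v p q : X) :
    (S.add u v).R p q ↔ (S.R p q ∨ (p = u ∧ q = v)) := Iff.rfl

omit [Fintype X] in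
@[simp] theorem add_x (S : Sys X) (u v : X) : (S.add u v).x = S.x := rfl
omit [Fintype X] in
@[simp] theorem add_y (S : Sys X) (u v : X) : (S.add u v).y = S.y := rfl
omit [Fintype X] in
@[simp] theorem add_z (S : Sys X) (u v : X) : (S.add u v).z = S.z := rfl
omit [Fintype X] in
@[simp] theorem add_a (S : Sys X) (u v : X) : (S.add u v).a = S.a := rfl
omit [Fintype X] in
@[simp] theorem add_b (S : Sys X) (u v : X) : (S.add u v).b = S.b := rfl
omit [Fintype X] in
@[simp] theorem add_px (S : Sys X) (u v : X) : (S.add u v).px = S.px := rfl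
omit [Fintype X] in
@[simp] theorem add_pz (S : Sys X) (u v : X) : (S.add u v).pz = S.pz := rfl

theorem conf_add (S : Sys X) (u v : X) (f : X ≃ Fin (Fintype.card X)) :
    (S.add u v).Conf f ↔ (S.Conf f ∧ f u < f v) := by
  unfold Conf
  constructor
  · rintro ⟨h1, h2, h3, h4, h5⟩
    exact ⟨⟨fun p q hpq => h1 p q (Or.inl hpq), h2, h3, h4, h5⟩, h1 u v (Or.inr ⟨rfl, rfl⟩)⟩
  · rintro ⟨⟨h1, h2, h3, h4, h5⟩, h6⟩
    refine ⟨?_, h2, h3, h4, h5⟩
    rintro p q (hpq | ⟨rfl, rfl⟩)
    · exact h1 p q hpq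
    · exact h6

/-- Splitting by the relative order of two different letters. -/
theorem N_split (S : Sys X) (u v : X) (huv : u ≠ v) : S.N = (S.add u v).N + (S.add v u).N := by
  classical
  unfold N
  rw [← Nat.card_sum]
  refine Nat.card_congr ?_
  refine ⟨fun f => if h : f.1 u < f.1 v then Sum.inl ⟨f.1, (S.conf_add u v f.1).2 ⟨f.2, h⟩⟩
      else Sum.inr ⟨f.1, (S.conf_add v u f.1).2 ⟨f.2, lt_of_le_of_ne (not_lt.1 h)
        (fun h' => huv (f.1.injective h').symm)⟩⟩,
    fun g => Sum.elim (fun g => ⟨g.1, ((S.conf_add u v g.1).1 g.2).1⟩)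
      (fun g => ⟨g.1, ((S.conf_add v u g.1).1 g.2).1⟩) g, ?_, ?_⟩
  · intro f
    by_cases h : f.1 u < f.1 v
    · simp [h]
    · simp [h]
  · rintro (g | g)
    · have h : g.1 u < g.1 v := ((S.conf_add u v g.1).1 g.2).2
      simp [h]
    · have h : ¬ g.1 u < g.1 v := not_lt.2 (((S.conf_add v u g.1).1 g.2).2).le
      simp [h]

/-- Adding an implied relation does not change the count. -/
theorem N_add_of_imp (S : Sys X) (u v : X) (h : ∀ f, S.Conf f → f u < f v) :
    (S.add u v).N = S.N :=
  N_congr _ _ (fun f => by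
    rw [conf_add]
    exact ⟨fun hf => hf.1, fun hf => ⟨hf, h f hf⟩⟩)

/-- Adding a contradictory relation gives `0`. -/
theorem N_add_eq_zero (S : Sys X) (u v : X) (h : ∀ f, S.Conf f → ¬ f u < f v) :
    (S.add u v).N = 0 := by
  by_contra hne
  obtain ⟨f, hf⟩ := (N_pos_iff _).1 (Nat.pos_of_ne_zero hne)
  rw [conf_add] at hf
  exact h f hf.1 hf.2

theorem Conf.xy {S : Sys X} {f : X ≃ Fin (Fintype.card X)} (hf : S.Conf f) (ha : 1 ≤ S.a) :
    f S.x < f S.y := by
  have := hf.2.1
  rw [Fin.lt_def]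
  omega

theorem Conf.yz {S : Sys X} {f : X ≃ Fin (Fintype.card X)} (hf : S.Conf f) (hb : 1 ≤ S.b) :
    f S.y < f S.z := by
  have := hf.2.2.1
  rw [Fin.lt_def]
  omega

end Sys

end Pool.Agent.CPT
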