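import Mathlib
import Pool.Agent.CPT.Defs

/-!
# Project CPT, module Dual : reversal of the order
-/

set_option autoImplicit false

namespace Pool.Agent.CPT

namespace Sys
variable {X : Type}

/-- The dual system. -/
def dual (S : Sys X) : Sys X where
  R := fun u v => S.R v u
  px := S.pz
  pz := S.px
  x := S.z
  y := S.y
  z := S.x
  a := S.b
  b := S.a

theorem dual_dual (S : Sys X) : S.dual.dual = S := rfl

private theorem cptDual_conf [Fintype X] (S : Sys X) (f : X ≃ Fin (Fintype.card X))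
    (h : S.Conf f) : S.dual.Conf (f.trans Fin.revPerm) := by
  obtain ⟨h1, h2, h3, h4, h5⟩ := h
  have hv : ∀ u, ((f.trans Fin.revPerm) u : ℕ) = Fintype.card X - ((f u : ℕ) + 1) := by
    intro u
    simp [Fin.val_rev]
  have hl : ∀ u, (f u : ℕ) < Fintype.card X := fun u => (f u).isLt
  refine ⟨?_, ?_, ?_, ?_, ?_⟩
  · intro u v huv
    have h6 := h1 v u huv
    rw [Fin.lt_def] at h6 ⊢
    rw [hv, hv]
    have := hl u
    have := hl v
    omega
  · change ((f.trans Fin.revPerm) S.y : ℕ) = ((f.trans Fin.revPerm) S.z : ℕ) + S.b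
    rw [hv, hv]
    have := hl S.y
    have := hl S.z
    omega
  · change ((f.trans Fin.revPerm) S.x : ℕ) = ((f.trans Fin.revPerm) S.y : ℕ) + S.a
    rw [hv, hv]
    have := hl S.y
    have := hl S.x
    omega
  · intro p hp
    have h6 := h5 p hp
    change ((f.trans Fin.revPerm) p : ℕ) + 1 = ((f.trans Fin.revPerm) S.z : ℕ)
    rw [hv, hv]
    have := hl p
    have := hl S.z
    omega
  · intro q hq
    have h6 := h4 q hq
    change ((f.trans Fin.revPerm) q : ℕ) = ((f.trans Fin.revPerm) S.x : ℕ) + 1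
    rw [hv, hv]
    have := hl q
    have := hl S.x
    omega

/-- Configurations of the dual: `f ↦ (fun u => Fin.rev (f u))`.  (Note `a + b` appear as: `f z = f y + b`
means `rev (f y) = rev (f z) + b`.) -/
theorem dual_N [Fintype X] (S : Sys X) : S.dual.N = S.N := by
  classical
  refine Nat.card_congr ⟨fun f => ⟨f.1.trans Fin.revPerm, ?_⟩,
    fun f => ⟨f.1.trans Fin.revPerm, ?_⟩, ?_, ?_⟩
  · exact cptDual_conf S.dual f.1 f.2
  · exact cptDual_conf S f.1 f.2
  · intro f
    apply Subtype.ext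
    apply Equiv.ext
    intro u
    simp
  · intro f
    apply Subtype.ext
    apply Equiv.ext
    intro u
    simp

/-- `dual` of `add`. -/
theorem dual_add (S : Sys X) (u v : X) : (S.add u v).dual = S.dual.add v u := by
  ext p q
  · change (S.R q p ∨ (q = u ∧ p = v)) ↔ (S.R q p ∨ (p = v ∧ q = u))
    rw [and_comm (a := q = u)]
  all_goals rfl

theorem dual_left (S : Sys X) (i : X) (s : Fin 3) : S.dual.left i s = (S.right i s.rev).dual := by
  fin_cases s
  · exact (dual_add S S.z i).symm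
  · rfl
  · exact (dual_add S i S.z).symm

theorem dual_right (S : Sys X) (j : X) (t : Fin 3) : S.dual.right j t = (S.left j t.rev).dual := by
  fin_cases t
  · exact (dual_add S S.x j).symm
  · rfl
  · exact (dual_add S j S.x).symm

private theorem cptDual_addcomm (S : Sys X) (u v p q : X) :
    (S.add u v).add p q = (S.add p q).add u v := by
  ext k l
  · change ((S.R k l ∨ _) ∨ _) ↔ ((S.R k l ∨ _) ∨ _)
    exact or_right_comm
  all_goals rfl

private theorem cptDual_lr (S : Sys X) (i j : X) (a b : Fin 3) :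
    (S.right j b).left i a = (S.left i a).right j b := by
  fin_cases a <;> fin_cases b
  all_goals first
    | rfl
    | exact cptDual_addcomm S _ _ _ _

end Sys

namespace Tab
variable {X : Type}

/-- The dual table. -/
def dual (T : Tab X) : Tab X := ⟨T.S.dual, T.j, T.t'.rev, T.t.rev, T.i, T.s'.rev, T.s.rev⟩

theorem dual_OK (T : Tab X) (h : T.OK) : T.dual.OK := by
  obtain ⟨h1, h2, h3, h4, h5, h6⟩ := h
  refine ⟨Fin.rev_lt_rev.2 h2, Fin.rev_lt_rev.2 h1, ?_, ?_, h6, h5⟩
  · rcases h4 with h4 | ⟨h4, h4'⟩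
    · exact Or.inl h4
    · right
      change T.t'.rev = 0 ∧ T.t.rev = 2
      rw [h4, h4']
      exact ⟨rfl, rfl⟩
  · rcases h3 with h3 | ⟨h3, h3'⟩
    · exact Or.inl h3
    · right
      change T.s'.rev = 0 ∧ T.s.rev = 2
      rw [h3, h3']
      exact ⟨rfl, rfl⟩

private theorem cptDual_sys (T : Tab X) (s t : Fin 3) :
    (T.dual.S.left T.dual.i s).right T.dual.j t =
      ((T.S.left T.i t.rev).right T.j s.rev).dual := by
  change (T.S.dual.left T.j s).right T.i t = _
  rw [Sys.dual_left, Sys.dual_right, Sys.cptDual_lr]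

/-- (the operations `left i` and `right j` commute up to the order of the disjuncts) -/
theorem dual_cell [Fintype X] (T : Tab X) (s t : Fin 3) :
    T.dual.cell s t = T.cell t.rev s.rev := by
  unfold cell
  rw [cptDual_sys, Sys.dual_N]

theorem dual_CA [Fintype X] (T : Tab X) : T.dual.CA ↔ T.CA := by
  unfold CA
  rw [dual_cell, dual_cell, dual_cell, dual_cell]
  change T.cell T.s.rev.rev T.t'.rev.rev * T.cell T.s'.rev.rev T.t.rev.rev ≤
    T.cell T.s'.rev.rev T.t'.rev.rev * T.cell T.s.rev.rev T.t.rev.rev ↔ _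
  rw [Fin.rev_rev, Fin.rev_rev, Fin.rev_rev, Fin.rev_rev, mul_comm (T.cell T.s' T.t')]

theorem dual_U (T : Tab X) : T.dual.U = T.U := by
  unfold U
  rw [add_comm]
  congr 1
  · refine Nat.card_congr (Equiv.subtypeEquivRight fun w => ?_)
    change (w ≠ T.i ∧ (w ≠ T.S.z ∧ w ≠ T.S.y ∧ w ≠ T.S.x ∧ ¬ T.S.R T.S.x w ∧ ¬ T.S.R w T.S.x ∧
      T.S.px ≠ some w)) ↔ (w ≠ T.i ∧ (w ≠ T.S.x ∧ w ≠ T.S.y ∧ w ≠ T.S.z ∧ ¬ T.S.R w T.S.x ∧
      ¬ T.S.R T.S.x w ∧ T.S.px ≠ some w))
    tauto
  · refine Nat.card_congr (Equiv.subtypeEquivRight fun w => ?_)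
    change (w ≠ T.j ∧ (w ≠ T.S.z ∧ w ≠ T.S.y ∧ w ≠ T.S.x ∧ ¬ T.S.R T.S.z w ∧ ¬ T.S.R w T.S.z ∧
      T.S.pz ≠ some w)) ↔ (w ≠ T.j ∧ (w ≠ T.S.x ∧ w ≠ T.S.y ∧ w ≠ T.S.z ∧ ¬ T.S.R w T.S.z ∧
      ¬ T.S.R T.S.z w ∧ T.S.pz ≠ some w))
    tauto

/-- The cells of the dual with one more relation. -/
theorem dual_cell_add [Fintype X] (T : Tab X) (s t : Fin 3) (u v : X) :
    (((T.dual.S.left T.dual.i s).right T.dual.j t).add u v).N =
      (((T.S.left T.i t.rev).right T.j s.rev).add v u).N := by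
  rw [cptDual_sys, ← Sys.dual_add, Sys.dual_N]

end Tab

end Pool.Agent.CPT
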