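import Mathlib

/-!
# Project CPT, module Exch : the exchange lemma for chains of three down-sets

Pure combinatorics of finite sets. Induction on the distance of the lowest levels: move `J` towards `J'`
(add an element which is least in `J'_k \ J_k`, or exchange such an element with a maximal element of
`J_k \ J'_k` if the sizes are equal), or `J'` towards `J`, on all levels at once; one such step changes the
membership of at most one of `i`, `w` in the lowest level.
-/

set_option autoImplicit false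

namespace Pool.Agent.CPT

section aux

variable {V : Type} [DecidableEq V]

private def Dn (R : V → V → Prop) (A : Finset V) : Prop := ∀ u v, R u v → v ∈ A → u ∈ A

private def Btw (A A' K : Finset V) : Prop := A ∩ A' ⊆ K ∧ K ⊆ A ∪ A'

private structure Chn (R : V → V → Prop) (g1 g2 : ℕ) (A B C : Finset V) : Prop where
  da : Dn R A
  db : Dn R B
  dc : Dn R C
  ab : A ⊆ B
  bc : B ⊆ C
  k1 : B.card = A.card + g1
  k2 : C.card = B.card + g2

private theorem btw_l (A A' : Finset V) : Btw A A' A :=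
  ⟨Finset.inter_subset_left, Finset.subset_union_left⟩

private theorem btw_trans_l {A A' K K' : Finset V} (h : Btw A A' K) (h' : Btw K A' K') :
    Btw A A' K' := by
  refine ⟨fun x hx => ?_, fun x hx => ?_⟩
  · exact h'.1 (Finset.mem_inter.2 ⟨h.1 hx, (Finset.mem_inter.1 hx).2⟩)
  · rcases Finset.mem_union.1 (h'.2 hx) with h1 | h1
    · exact h.2 h1
    · exact Finset.mem_union_right _ h1

private theorem btw_trans_r {A A' K K' : Finset V} (h : Btw A A' K) (h' : Btw A K K') :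
    Btw A A' K' := by
  refine ⟨fun x hx => ?_, fun x hx => ?_⟩
  · exact h'.1 (Finset.mem_inter.2 ⟨(Finset.mem_inter.1 hx).1, h.1 hx⟩)
  · rcases Finset.mem_union.1 (h'.2 hx) with h1 | h1
    · exact Finset.mem_union_left _ h1
    · exact h.2 h1

private def dst (A A' : Finset V) : ℕ := (A \ A').card + (A' \ A).card

private theorem dst_lt_l {A A' K : Finset V} (h : Btw A A' K) (hne : K ≠ A) :
    dst K A' < dst A A' := by
  have h1 : K \ A' ⊆ A \ A' := fun x hx => by
    rw [Finset.mem_sdiff] at hx ⊢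
    rcases Finset.mem_union.1 (h.2 hx.1) with h1 | h1
    · exact ⟨h1, hx.2⟩
    · exact absurd h1 hx.2
  have h2 : A' \ K ⊆ A' \ A := fun x hx => by
    rw [Finset.mem_sdiff] at hx ⊢
    exact ⟨hx.1, fun h1 => hx.2 (h.1 (Finset.mem_inter.2 ⟨h1, hx.1⟩))⟩
  have h3 := Finset.card_le_card h1
  have h4 := Finset.card_le_card h2
  unfold dst
  by_contra h5
  have h6 : K \ A' = A \ A' := Finset.eq_of_subset_of_card_le h1 (by omega)
  have h7 : A' \ K = A' \ A := Finset.eq_of_subset_of_card_le h2 (by omega)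
  apply hne
  ext x
  have h8 : x ∈ K \ A' ↔ x ∈ A \ A' := by rw [h6]
  have h9 : x ∈ A' \ K ↔ x ∈ A' \ A := by rw [h7]
  rw [Finset.mem_sdiff, Finset.mem_sdiff] at h8 h9
  tauto

private theorem dst_lt_r {A A' K : Finset V} (h : Btw A A' K) (hne : K ≠ A') :
    dst A K < dst A A' := by
  have h1 : Btw A' A K := by
    refine ⟨?_, ?_⟩
    · rw [Finset.inter_comm]
      exact h.1
    · rw [Finset.union_comm]
      exact h.2
  have h2 := dst_lt_l h1 hne
  unfold dst at h2 ⊢
  omega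

/-- `s` can be added to `A` -/
private def Up (R : V → V → Prop) (A A' : Finset V) (s : V) : Prop :=
  s ∈ A' ∧ s ∉ A ∧ ∀ u, R u s → u ∈ A ∧ u ∈ A'

/-- `m` can be removed from `A` -/
private def Rem (R : V → V → Prop) (A A' : Finset V) (m : V) : Prop :=
  m ∈ A ∧ m ∉ A' ∧ ∀ v ∈ A, ¬ R m v

private theorem up_start {R : V → V → Prop} {h : V → ℕ} (hR : ∀ u v, R u v → h u < h v)
    {A A' : Finset V} (hd : Dn R A') (hne : (A' \ A).Nonempty) : ∃ s, Up R A A' s := by
  obtain ⟨s, hs, hmin⟩ := Finset.exists_min_image (A' \ A) h hne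
  rw [Finset.mem_sdiff] at hs
  refine ⟨s, hs.1, hs.2, fun u hu => ?_⟩
  have h1 : u ∈ A' := hd u s hu hs.1
  refine ⟨?_, h1⟩
  by_contra h2
  have h3 := hmin u (Finset.mem_sdiff.2 ⟨h1, h2⟩)
  exact absurd (hR u s hu) (not_lt.2 h3)

private theorem up_next {R : V → V → Prop} {h : V → ℕ} (hR : ∀ u v, R u v → h u < h v)
    {A A' B B' : Finset V} (hd : Dn R B') (hAB : A ⊆ B) (hAB' : A' ⊆ B')
    (hne : (B' \ B).Nonempty) {s : V} (hs : Up R A A' s) :
    ∃ s', Up R B B' s' ∧ (s' = s ∨ s ∈ B) := by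
  by_cases hsB : s ∈ B
  · obtain ⟨s', hs'⟩ := up_start hR hd hne
    exact ⟨s', hs', Or.inr hsB⟩
  · exact ⟨s, ⟨hAB' hs.1, hsB, fun u hu => ⟨hAB (hs.2.2 u hu).1, hAB' (hs.2.2 u hu).2⟩⟩, Or.inl rfl⟩

private theorem rem_start {R : V → V → Prop} {h : V → ℕ} (hR : ∀ u v, R u v → h u < h v)
    {A A' : Finset V} (hd : Dn R A') (hne : (A \ A').Nonempty) : ∃ m, Rem R A A' m := by
  obtain ⟨m, hm, hmax⟩ := Finset.exists_max_image (A \ A') h hne
  rw [Finset.mem_sdiff] at hm
  refine ⟨m, hm.1, hm.2, fun v hv hmv => ?_⟩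
  by_cases h1 : v ∈ A'
  · exact hm.2 (hd m v hmv h1)
  · exact absurd (hR m v hmv) (not_lt.2 (hmax v (Finset.mem_sdiff.2 ⟨hv, h1⟩)))

private theorem rem_next {R : V → V → Prop} {h : V → ℕ} (hR : ∀ u v, R u v → h u < h v)
    {A A' B B' : Finset V} (hd : Dn R A') (hAB : A ⊆ B) (hAB' : A' ⊆ B')
    (hne : (A \ A').Nonempty) {m : V} (hm : Rem R B B' m) :
    ∃ m', Rem R A A' m' ∧ (m' = m ∨ m ∉ A) := by
  by_cases hmA : m ∈ A
  · exact ⟨m, ⟨hmA, fun h1 => hm.2.1 (hAB' h1), fun v hv => hm.2.2 v (hAB hv)⟩, Or.inl rfl⟩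
  · obtain ⟨m', hm'⟩ := rem_start hR hd hne
    exact ⟨m', hm', Or.inr hmA⟩

private theorem up_dn {R : V → V → Prop} {A A' : Finset V} (hd : Dn R A) {s : V}
    (hs : Up R A A' s) : Dn R (insert s A) := by
  intro u v huv hv
  rcases Finset.mem_insert.1 hv with h1 | h1
  · rw [h1] at huv
    exact Finset.mem_insert_of_mem (hs.2.2 u huv).1
  · exact Finset.mem_insert_of_mem (hd u v huv h1)

private theorem up_btw {R : V → V → Prop} {A A' : Finset V} {s : V}
    (hs : Up R A A' s) : Btw A A' (insert s A) := by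
  refine ⟨fun x hx => Finset.mem_insert_of_mem (Finset.mem_inter.1 hx).1, fun x hx => ?_⟩
  rcases Finset.mem_insert.1 hx with h1 | h1
  · rw [h1]
    exact Finset.mem_union_right _ hs.1
  · exact Finset.mem_union_left _ h1

private theorem up_sub {A B : Finset V} (hAB : A ⊆ B) {s s' : V} (h : s' = s ∨ s ∈ B) :
    insert s A ⊆ insert s' B := by
  intro x hx
  rcases Finset.mem_insert.1 hx with h1 | h1
  · rcases h with h | h
    · rw [h, h1]
      exact Finset.mem_insert_self _ _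
    · rw [h1]
      exact Finset.mem_insert_of_mem h
  · exact Finset.mem_insert_of_mem (hAB h1)

private theorem ne_of_lt_card {A A' : Finset V} (h : A.card < A'.card) : (A' \ A).Nonempty := by
  rw [Finset.sdiff_nonempty]
  intro h1
  have := Finset.card_le_card h1
  omega

/-- adding one element to all levels -/
private theorem up_all {R : V → V → Prop} {h : V → ℕ} (hR : ∀ u v, R u v → h u < h v)
    {g1 g2 : ℕ} {A B C A' B' C' : Finset V} (H : Chn R g1 g2 A B C) (H' : Chn R g1 g2 A' B' C')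
    (hlt : A.card < A'.card) :
    ∃ s0 s1 s2, Up R A A' s0 ∧ Up R B B' s1 ∧ Up R C C' s2 ∧
      Chn R g1 g2 (insert s0 A) (insert s1 B) (insert s2 C) := by
  have e1 := H.k1
  have e2 := H.k2
  have e1' := H'.k1
  have e2' := H'.k2
  obtain ⟨s0, h0⟩ := up_start hR H'.da (ne_of_lt_card hlt)
  obtain ⟨s1, h1, h01⟩ := up_next hR H'.db H.ab H'.ab (ne_of_lt_card (by omega)) h0
  obtain ⟨s2, h2, h12⟩ := up_next hR H'.dc H.bc H'.bc (ne_of_lt_card (by omega)) h1
  refine ⟨s0, s1, s2, h0, h1, h2, up_dn H.da h0, up_dn H.db h1, up_dn H.dc h2, up_sub H.ab h01,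
    up_sub H.bc h12, ?_, ?_⟩
  · rw [Finset.card_insert_of_notMem h0.2.1, Finset.card_insert_of_notMem h1.2.1]
    omega
  · rw [Finset.card_insert_of_notMem h1.2.1, Finset.card_insert_of_notMem h2.2.1]
    omega

private theorem sw_dn {R : V → V → Prop} {A A' : Finset V} (hd : Dn R A) {s m : V}
    (hs : Up R A A' s) (hm : Rem R A A' m) : Dn R ((insert s A).erase m) := by
  intro u v huv hv
  rw [Finset.mem_erase] at hv ⊢
  refine ⟨?_, up_dn hd hs u v huv hv.2⟩
  intro h1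
  rw [h1] at huv
  rcases Finset.mem_insert.1 hv.2 with h2 | h2
  · rw [h2] at huv
    exact hm.2.1 (hs.2.2 m huv).2
  · exact hm.2.2 v h2 huv

private theorem sw_btw {R : V → V → Prop} {A A' : Finset V} {s m : V}
    (hs : Up R A A' s) (hm : Rem R A A' m) : Btw A A' ((insert s A).erase m) := by
  refine ⟨fun x hx => Finset.mem_erase.2 ⟨fun h1 => ?_, (up_btw hs).1 hx⟩,
    fun x hx => (up_btw hs).2 (Finset.mem_of_mem_erase hx)⟩
  exact hm.2.1 (h1 ▸ (Finset.mem_inter.1 hx).2)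

private theorem sw_card {R : V → V → Prop} {A A' : Finset V} {s m : V}
    (hs : Up R A A' s) (hm : Rem R A A' m) : ((insert s A).erase m).card = A.card := by
  rw [Finset.card_erase_of_mem (Finset.mem_insert_of_mem hm.1), Finset.card_insert_of_notMem hs.2.1]
  omega

private theorem sw_sub {R : V → V → Prop} {A B B' : Finset V} (hAB : A ⊆ B) {s m m' : V}
    (hs : Up R B B' s) (hm' : Rem R B B' m') (h : m = m' ∨ m' ∉ A) :
    (insert s A).erase m ⊆ (insert s B).erase m' := by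
  intro x hx
  rw [Finset.mem_erase] at hx ⊢
  refine ⟨?_, ?_⟩
  · intro h1
    rcases h with h | h
    · exact hx.1 (h1.trans h.symm)
    · rcases Finset.mem_insert.1 hx.2 with h2 | h2
      · exact hm'.2.1 (by rw [← h1, h2]; exact hs.1)
      · exact h (h1 ▸ h2)
  · rcases Finset.mem_insert.1 hx.2 with h2 | h2
    · rw [h2]
      exact Finset.mem_insert_self _ _
    · exact Finset.mem_insert_of_mem (hAB h2)

private theorem sw_sub' {A B : Finset V} (hAB : A ⊆ B) {s m : V} (hs : s ∈ B) :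
    (insert s A).erase m ⊆ B := by
  intro x hx
  rcases Finset.mem_insert.1 (Finset.mem_of_mem_erase hx) with h2 | h2
  · rw [h2]
    exact hs
  · exact hAB h2

private theorem ne_of_eq_card {A A' : Finset V} (h : A.card = A'.card) {s : V} (hs : s ∈ A')
    (hs' : s ∉ A) : (A \ A').Nonempty := by
  rw [Finset.sdiff_nonempty]
  intro h1
  exact hs' ((Finset.eq_of_subset_of_card_le h1 h.ge) ▸ hs)

/-- the exchange on all levels, equal sizes -/
private theorem sw_all {R : V → V → Prop} {h : V → ℕ} (hR : ∀ u v, R u v → h u < h v)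
    {g1 g2 : ℕ} {A B C A' B' C' : Finset V} (H : Chn R g1 g2 A B C) (H' : Chn R g1 g2 A' B' C')
    (he : A.card = A'.card) {i : V} (hi : i ∈ A) (hi' : i ∉ A') :
    ∃ s m L M, Up R A A' s ∧ Rem R A A' m ∧ Btw B B' L ∧ Btw C C' M ∧
      Chn R g1 g2 ((insert s A).erase m) L M := by
  have e1 := H.k1
  have e2 := H.k2
  have e1' := H'.k1
  have e2' := H'.k2
  obtain ⟨s, h0⟩ := up_start hR H'.da (ne_of_eq_card he.symm hi hi')
  by_cases hsB : s ∈ B
  · obtain ⟨m, hm⟩ := rem_start hR H'.da (ne_of_eq_card he h0.1 h0.2.1)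
    refine ⟨s, m, B, C, h0, hm, btw_l _ _, btw_l _ _, sw_dn H.da h0 hm, H.db, H.dc,
      sw_sub' H.ab hsB, H.bc, ?_, e2⟩
    rw [sw_card h0 hm]
    exact e1
  · have h1 : Up R B B' s :=
      ⟨H'.ab h0.1, hsB, fun u hu => ⟨H.ab (h0.2.2 u hu).1, H'.ab (h0.2.2 u hu).2⟩⟩
    by_cases hsC : s ∈ C
    · obtain ⟨m1, hm1⟩ := rem_start hR H'.db (ne_of_eq_card (A := B) (by omega) h1.1 h1.2.1)
      obtain ⟨m, hm, h01⟩ := rem_next hR H'.da H.ab H'.ab (ne_of_eq_card he h0.1 h0.2.1) hm1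
      refine ⟨s, m, (insert s B).erase m1, C, h0, hm, sw_btw h1 hm1, btw_l _ _, sw_dn H.da h0 hm,
        sw_dn H.db h1 hm1, H.dc, sw_sub H.ab h1 hm1 h01, sw_sub' H.bc hsC, ?_, ?_⟩
      · rw [sw_card h0 hm, sw_card h1 hm1]
        exact e1
      · rw [sw_card h1 hm1]
        exact e2
    · have h2 : Up R C C' s :=
        ⟨H'.bc h1.1, hsC, fun u hu => ⟨H.bc (h1.2.2 u hu).1, H'.bc (h1.2.2 u hu).2⟩⟩
      obtain ⟨m2, hm2⟩ := rem_start hR H'.dc (ne_of_eq_card (A := C) (by omega) h2.1 h2.2.1)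
      obtain ⟨m1, hm1, h12⟩ := rem_next hR H'.db H.bc H'.bc
        (ne_of_eq_card (A := B) (by omega) h1.1 h1.2.1) hm2
      obtain ⟨m, hm, h01⟩ := rem_next hR H'.da H.ab H'.ab (ne_of_eq_card he h0.1 h0.2.1) hm1
      refine ⟨s, m, (insert s B).erase m1, (insert s C).erase m2, h0, hm, sw_btw h1 hm1,
        sw_btw h2 hm2, sw_dn H.da h0 hm, sw_dn H.db h1 hm1, sw_dn H.dc h2 hm2,
        sw_sub H.ab h1 hm1 h01, sw_sub H.bc h2 hm2 h12, ?_, ?_⟩
      · rw [sw_card h0 hm, sw_card h1 hm1]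
        exact e1
      · rw [sw_card h1 hm1, sw_card h2 hm2]
        exact e2

private theorem core {R : V → V → Prop} {h : V → ℕ} (hR : ∀ u v, R u v → h u < h v)
    {g1 g2 : ℕ} {i w : V} (hiw : i ≠ w) : ∀ (n : ℕ) (A B C A' B' C' : Finset V), dst A A' ≤ n →
    Chn R g1 g2 A B C → Chn R g1 g2 A' B' C' → i ∈ A → w ∈ A → i ∉ A' → w ∉ A' →
    ∃ K L M, Chn R g1 g2 K L M ∧ Btw A A' K ∧ Btw B B' L ∧ Btw C C' M ∧
      ((i ∈ K ∧ w ∉ K) ∨ (i ∉ K ∧ w ∈ K)) := by
  intro n
  induction n with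
  | zero =>
    intro A B C A' B' C' hd _ _ hi _ hi' _
    exfalso
    unfold dst at hd
    have h1 : (A \ A').card = 0 := by omega
    rw [Finset.card_eq_zero] at h1
    have h2 : i ∈ A \ A' := Finset.mem_sdiff.2 ⟨hi, hi'⟩
    rw [h1] at h2
    exact absurd h2 (Finset.notMem_empty _)
  | succ n ih =>
    intro A B C A' B' C' hd H H' hi hw hi' hw'
    rcases lt_trichotomy A.card A'.card with hlt | heq | hgt
    · obtain ⟨s0, s1, s2, h0, h1, h2, H2⟩ := up_all hR H H' hlt
      have hne : insert s0 A ≠ A := fun h3 => h0.2.1 (by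
        rw [← h3]
        exact Finset.mem_insert_self _ _)
      have h4 := dst_lt_l (up_btw h0) hne
      obtain ⟨K, L, M, h5, h6, h7, h8, h9⟩ := ih _ _ _ _ _ _ (by omega) H2 H'
        (Finset.mem_insert_of_mem hi) (Finset.mem_insert_of_mem hw) hi' hw'
      exact ⟨K, L, M, h5, btw_trans_l (up_btw h0) h6, btw_trans_l (up_btw h1) h7,
        btw_trans_l (up_btw h2) h8, h9⟩
    · obtain ⟨s, m, L, M, h0, hm, hL, hM, H2⟩ := sw_all hR H H' heq hi hi'
      by_cases hmi : m = i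
      · refine ⟨_, L, M, H2, sw_btw h0 hm, hL, hM, Or.inr ⟨fun h3 => ?_, ?_⟩⟩
        · exact (Finset.mem_erase.1 h3).1 hmi.symm
        · exact Finset.mem_erase.2 ⟨fun h3 => hiw (hmi.symm.trans h3.symm),
            Finset.mem_insert_of_mem hw⟩
      · by_cases hmw : m = w
        · refine ⟨_, L, M, H2, sw_btw h0 hm, hL, hM, Or.inl ⟨?_, fun h3 => ?_⟩⟩
          · exact Finset.mem_erase.2 ⟨fun h3 => hmi h3.symm, Finset.mem_insert_of_mem hi⟩
          · exact (Finset.mem_erase.1 h3).1 hmw.symm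
        · have hne : (insert s A).erase m ≠ A := fun h3 => by
            have h4 : m ∈ (insert s A).erase m := by
              rw [h3]
              exact hm.1
            exact (Finset.mem_erase.1 h4).1 rfl
          have h4 := dst_lt_l (sw_btw h0 hm) hne
          obtain ⟨K, L', M', h5, h6, h7, h8, h9⟩ := ih _ _ _ _ _ _ (by omega) H2 H'
            (Finset.mem_erase.2 ⟨fun h3 => hmi h3.symm, Finset.mem_insert_of_mem hi⟩)
            (Finset.mem_erase.2 ⟨fun h3 => hmw h3.symm, Finset.mem_insert_of_mem hw⟩) hi' hw'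
          exact ⟨K, L', M', h5, btw_trans_l (sw_btw h0 hm) h6, btw_trans_l hL h7,
            btw_trans_l hM h8, h9⟩
    · obtain ⟨s0, s1, s2, h0, h1, h2, H2⟩ := up_all hR H' H hgt
      have hsym : ∀ {A A' K : Finset V}, Btw A' A K → Btw A A' K := by
        intro A A' K h3
        refine ⟨?_, ?_⟩
        · rw [Finset.inter_comm]
          exact h3.1
        · rw [Finset.union_comm]
          exact h3.2
      have hb0 := hsym (up_btw h0)
      have hb1 := hsym (up_btw h1)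
      have hb2 := hsym (up_btw h2)
      by_cases hsi : s0 = i
      · refine ⟨_, _, _, H2, hb0, hb1, hb2, Or.inl ⟨?_, fun h3 => ?_⟩⟩
        · rw [hsi]
          exact Finset.mem_insert_self _ _
        · rcases Finset.mem_insert.1 h3 with h4 | h4
          · exact hiw (hsi.symm.trans h4.symm)
          · exact hw' h4
      · by_cases hsw : s0 = w
        · refine ⟨_, _, _, H2, hb0, hb1, hb2, Or.inr ⟨fun h3 => ?_, ?_⟩⟩
          · rcases Finset.mem_insert.1 h3 with h4 | h4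
            · exact hsi h4.symm
            · exact hi' h4
          · rw [hsw]
            exact Finset.mem_insert_self _ _
        · have hne : insert s0 A' ≠ A' := fun h3 => h0.2.1 (by
            rw [← h3]
            exact Finset.mem_insert_self _ _)
          have h4 := dst_lt_r hb0 hne
          obtain ⟨K, L, M, h5, h6, h7, h8, h9⟩ := ih _ _ _ _ _ _ (by omega) H H2 hi hw
            (fun h3 => (Finset.mem_insert.1 h3).elim (fun h4 => hsi h4.symm) hi')
            (fun h3 => (Finset.mem_insert.1 h3).elim (fun h4 => hsw h4.symm) hw')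
          exact ⟨K, L, M, h5, btw_trans_r hb0 h6, btw_trans_r hb1 h7, btw_trans_r hb2 h8, h9⟩

end aux

theorem exchange {V : Type} [Fintype V] [DecidableEq V] (R : V → V → Prop) (h : V → ℕ)
    (hinj : Function.Injective h) (hR : ∀ u v, R u v → h u < h v)
    (J J' : Fin 3 → Finset V)
    (hJ : ∀ k u v, R u v → v ∈ J k → u ∈ J k) (hJ' : ∀ k u v, R u v → v ∈ J' k → u ∈ J' k)
    (m1 : J 0 ⊆ J 1) (m2 : J 1 ⊆ J 2) (m1' : J' 0 ⊆ J' 1) (m2' : J' 1 ⊆ J' 2)
    (g1 g2 : ℕ) (c1 : (J 1).card = (J 0).card + g1) (c2 : (J 2).card = (J 1).card + g2)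
    (c1' : (J' 1).card = (J' 0).card + g1) (c2' : (J' 2).card = (J' 1).card + g2)
    (i w : V) (hiw : i ≠ w) (hi : i ∈ J 0) (hw : w ∈ J 0) (hi' : i ∉ J' 0) (hw' : w ∉ J' 0) :
    ∃ K : Fin 3 → Finset V, (∀ k u v, R u v → v ∈ K k → u ∈ K k) ∧ K 0 ⊆ K 1 ∧ K 1 ⊆ K 2 ∧
      (K 1).card = (K 0).card + g1 ∧ (K 2).card = (K 1).card + g2 ∧
      (∀ k, J k ∩ J' k ⊆ K k) ∧ (∀ k, K k ⊆ J k ∪ J' k) ∧
      ((i ∈ K 0 ∧ w ∉ K 0) ∨ (i ∉ K 0 ∧ w ∈ K 0)) := by
  obtain ⟨K, L, M, H, hA, hB, hC, hx⟩ := core (R := R) (h := h) hR (g1 := g1) (g2 := g2) hiw _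
    (J 0) (J 1) (J 2) (J' 0) (J' 1) (J' 2) le_rfl
    ⟨hJ 0, hJ 1, hJ 2, m1, m2, c1, c2⟩ ⟨hJ' 0, hJ' 1, hJ' 2, m1', m2', c1', c2'⟩ hi hw hi' hw'
  refine ⟨![K, L, M], ?_, H.ab, H.bc, H.k1, H.k2, ?_, ?_, hx⟩
  · intro k
    fin_cases k
    · exact H.da
    · exact H.db
    · exact H.dc
  · intro k
    fin_cases k
    · exact hA.1
    · exact hB.1
    · exact hC.1
  · intro k
    fin_cases k
    · exact hA.2
    · exact hB.2
    · exact hC.2

end Pool.Agent.CPT
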