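import Mathlib
import Pool.Agent.CPT.Defs

/-!
# Project CPT, module Rank : configurations from keys and from blocks

Proved by helper77.
-/

set_option autoImplicit false

namespace Pool.Agent.CPT

/-- Ranking by an injective key. (Plan: `LinearOrder.lift' key hk` on `X`, and
`Fintype.orderIsoFinOfCardEq`; or `f u := #{v | key v < key u}` with `Fintype.bijective_iff...`.) -/
theorem exists_rank {X : Type} [Fintype X] (key : X → ℕ) (hk : Function.Injective key) :
    ∃ f : X ≃ Fin (Fintype.card X), (∀ u v, f u < f v ↔ key u < key v) ∧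
      ∀ u, (f u : ℕ) = Nat.card {v : X // key v < key u} := by
  classical
  have hlt : ∀ u : X, (Finset.univ.filter fun v => key v < key u).card < Fintype.card X := by
    intro u
    rw [← Finset.card_univ]
    exact Finset.card_lt_card (Finset.filter_ssubset.2 ⟨u, Finset.mem_univ u, lt_irrefl _⟩)
  obtain ⟨g, hg⟩ : ∃ g : X → Fin (Fintype.card X),
      ∀ u, (g u : ℕ) = (Finset.univ.filter fun v => key v < key u).card :=
    ⟨fun u => ⟨_, hlt u⟩, fun _ => rfl⟩
  have h1 : ∀ u v, key u < key v → g u < g v := by
    intro u v h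
    rw [Fin.lt_def, hg, hg]
    apply Finset.card_lt_card
    rw [Finset.ssubset_iff_of_subset]
    · exact ⟨u, by simp [h], by simp⟩
    · intro w hw
      rw [Finset.mem_filter] at hw ⊢
      exact ⟨hw.1, hw.2.trans h⟩
  have h2 : ∀ u v, g u < g v ↔ key u < key v := by
    intro u v
    refine ⟨fun h => ?_, h1 u v⟩
    by_contra hc
    rcases lt_or_eq_of_le (not_lt.1 hc) with h3 | h3
    · exact absurd (h1 v u h3) (lt_asymm h)
    · rw [hk h3] at h
      exact lt_irrefl _ h
  have hinj : Function.Injective g := by
    intro u v h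
    by_contra hne
    rcases lt_or_gt_of_ne (fun e => hne (hk e)) with h3 | h3
    · exact absurd (h1 u v h3) (by rw [h]; exact lt_irrefl _)
    · exact absurd (h1 v u h3) (by rw [h]; exact lt_irrefl _)
  have hbij : Function.Bijective g :=
    (Fintype.bijective_iff_injective_and_card g).2 ⟨hinj, by rw [Fintype.card_fin]⟩
  refine ⟨Equiv.ofBijective g hbij, fun u v => h2 u v, fun u => ?_⟩
  rw [Nat.card_eq_fintype_card, Fintype.card_subtype]
  exact hg u

private theorem rk_succ {X : Type} [Fintype X] (β : X → ℕ) (k : ℕ) :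
    Nat.card {u : X // β u < k + 1} = Nat.card {u : X // β u < k} + Nat.card {u : X // β u = k} := by
  classical
  rw [Nat.card_eq_fintype_card, Nat.card_eq_fintype_card, Nat.card_eq_fintype_card,
    Fintype.card_subtype, Fintype.card_subtype, Fintype.card_subtype,
    ← Finset.card_union_of_disjoint]
  · congr 1
    ext u
    simp only [Finset.mem_filter, Finset.mem_univ, true_and, Finset.mem_union]
    omega
  · rw [Finset.disjoint_left]
    intro u hu hu'
    rw [Finset.mem_filter] at hu hu'
    omega

private theorem rk_one {X : Type} [Fintype X] {P : X → Prop} {x : X} (h : ∀ u, P u ↔ u = x) :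
    Nat.card {u : X // P u} = 1 := by
  have h1 : P = fun u => u = x := funext fun u => propext (h u)
  subst h1
  exact Nat.card_unique

/-- Realisation of a block function. `β u`: `0` = before `x`, `1` = pinned at `x`, `2` = the mark `x`,
`3` = first window, `4` = `y`, `5` = second window, `6` = `z`, `7` = pinned at `z`, `8` = after `z`
(values above `8` do no harm).  The configuration orders the letters by `β`, inside the blocks by `f0`:
use `exists_rank` with `key u = β u * (card X) + f0 u`; then `f x = #{β < 2}`, `f y = #{β < 4}`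
`= f x + 1 + #{β = 3}`, `f z = #{β < 6}`, and `f p = #{β < 1}`, `f q = #{β < 7}`. -/
theorem realize {X : Type} [Fintype X] (S : Sys X) (f0 : X ≃ Fin (Fintype.card X))
    (β : X → ℕ) (hf0 : ∀ u v, S.R u v → β u = β v → f0 u < f0 v)
    (hR : ∀ u v, S.R u v → β u ≤ β v)
    (hx : ∀ u, β u = 2 ↔ u = S.x) (hy : ∀ u, β u = 4 ↔ u = S.y) (hz : ∀ u, β u = 6 ↔ u = S.z)
    (ha : Nat.card {u : X // β u = 3} + 1 = S.a) (hb : Nat.card {u : X // β u = 5} + 1 = S.b)
    (hp : ∀ u, β u = 1 ↔ S.px = some u) (hq : ∀ u, β u = 7 ↔ S.pz = some u) :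
    ∃ f, S.Conf f ∧ ∀ u v, β u < β v → f u < f v := by
  classical
  have hkey : ∀ u v : X, (β u * Fintype.card X + (f0 u : ℕ) < β v * Fintype.card X + (f0 v : ℕ)) ↔
      (β u < β v ∨ (β u = β v ∧ f0 u < f0 v)) := by
    intro u v
    have h1 := (f0 u).2
    have h2 := (f0 v).2
    constructor
    · intro h
      rcases lt_trichotomy (β u) (β v) with h3 | h3 | h3
      · exact Or.inl h3
      · right
        refine ⟨h3, ?_⟩
        rw [h3] at h
        rw [Fin.lt_def]
        omega
      · exfalso
        have h4 : (β v + 1) * Fintype.card X ≤ β u * Fintype.card X := Nat.mul_le_mul_right _ h3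
        rw [Nat.add_mul, one_mul] at h4
        omega
    · rintro (h3 | ⟨h3, h4⟩)
      · have h4 : (β u + 1) * Fintype.card X ≤ β v * Fintype.card X := Nat.mul_le_mul_right _ h3
        rw [Nat.add_mul, one_mul] at h4
        omega
      · rw [h3]
        rw [Fin.lt_def] at h4
        omega
  have hinj : Function.Injective fun u : X => β u * Fintype.card X + (f0 u : ℕ) := by
    intro u v h
    simp only at h
    have h1 := (hkey u v).not.1 (by rw [h]; exact lt_irrefl _)
    have h2 := (hkey v u).not.1 (by rw [h]; exact lt_irrefl _)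
    have h3 : β u = β v := by omega
    have h4 : ¬ f0 u < f0 v := fun h5 => h1 (Or.inr ⟨h3, h5⟩)
    have h5 : ¬ f0 v < f0 u := fun h6 => h2 (Or.inr ⟨h3.symm, h6⟩)
    exact f0.injective (le_antisymm (not_lt.1 h5) (not_lt.1 h4))
  obtain ⟨f, hf1, hf2⟩ := exists_rank _ hinj
  simp only [hkey] at hf1 hf2
  -- the values at the letters which are alone in their block
  have hval : ∀ w : X, (∀ u, β u = β w → u = w) → (f w : ℕ) = Nat.card {u : X // β u < β w} := by
    intro w hw
    rw [hf2]
    have h1 : (fun v => β v < β w ∨ β v = β w ∧ f0 v < f0 w) = fun v => β v < β w := by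
      funext v
      apply propext
      constructor
      · rintro (h | ⟨h, h'⟩)
        · exact h
        · rw [hw v h] at h'
          exact absurd h' (lt_irrefl _)
      · exact Or.inl
    rw [h1]
  have bx : β S.x = 2 := (hx _).2 rfl
  have by' : β S.y = 4 := (hy _).2 rfl
  have bz : β S.z = 6 := (hz _).2 rfl
  have fx : (f S.x : ℕ) = Nat.card {u : X // β u < 2} := by
    rw [hval S.x (fun u hu => (hx u).1 (by rw [hu, bx])), bx]
  have fy : (f S.y : ℕ) = Nat.card {u : X // β u < 4} := by
    rw [hval S.y (fun u hu => (hy u).1 (by rw [hu, by'])), by']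
  have fz : (f S.z : ℕ) = Nat.card {u : X // β u < 6} := by
    rw [hval S.z (fun u hu => (hz u).1 (by rw [hu, bz])), bz]
  have c2 : Nat.card {u : X // β u < 3} = Nat.card {u : X // β u < 2} +
      Nat.card {u : X // β u = 2} := rk_succ β 2
  have c3 : Nat.card {u : X // β u < 4} = Nat.card {u : X // β u < 3} +
      Nat.card {u : X // β u = 3} := rk_succ β 3
  have c4 : Nat.card {u : X // β u < 5} = Nat.card {u : X // β u < 4} +
      Nat.card {u : X // β u = 4} := rk_succ β 4
  have c5 : Nat.card {u : X // β u < 6} = Nat.card {u : X // β u < 5} +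
      Nat.card {u : X // β u = 5} := rk_succ β 5
  have c6 : Nat.card {u : X // β u < 7} = Nat.card {u : X // β u < 6} +
      Nat.card {u : X // β u = 6} := rk_succ β 6
  have c1 : Nat.card {u : X // β u < 2} = Nat.card {u : X // β u < 1} +
      Nat.card {u : X // β u = 1} := rk_succ β 1
  have o2 := rk_one hx
  have o4 := rk_one hy
  have o6 := rk_one hz
  refine ⟨f, ⟨fun u v huv => ?_, ?_, ?_, ?_, ?_⟩, fun u v huv => (hf1 u v).2 (Or.inl huv)⟩
  · rw [hf1]
    rcases lt_or_eq_of_le (hR u v huv) with h | h
    · exact Or.inl h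
    · exact Or.inr ⟨h, hf0 u v huv h⟩
  · rw [fx, fy]
    omega
  · rw [fy, fz]
    omega
  · intro p hpx
    have bp : β p = 1 := (hp p).2 hpx
    have fp : (f p : ℕ) = Nat.card {u : X // β u < 1} := by
      rw [hval p (fun u hu => ?_), bp]
      have h1 := (hp u).1 (by rw [hu, bp])
      rw [hpx] at h1
      exact (Option.some.inj h1).symm
    have o1 : Nat.card {u : X // β u = 1} = 1 := by
      refine rk_one (x := p) fun u => ?_
      rw [hp, hpx]
      constructor
      · intro h; exact (Option.some.inj h).symm
      · rintro rfl; rfl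
    rw [fp, fx]
    omega
  · intro q hqz
    have bq : β q = 7 := (hq q).2 hqz
    have fq : (f q : ℕ) = Nat.card {u : X // β u < 7} := by
      rw [hval q (fun u hu => ?_), bq]
      have h1 := (hq u).1 (by rw [hu, bq])
      rw [hqz] at h1
      exact (Option.some.inj h1).symm
    rw [fq, fz]
    omega

end Pool.Agent.CPT
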