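import Mathlib
import Pool.Agent.CPT.Defs

/-!
# Project CPT, module Und : the number of undetermined pairs, splitting of the cells

JOB CPT-Und. All statements are formal.
-/

set_option autoImplicit false

namespace Pool.Agent.CPT

namespace Tab
variable {X : Type}

/-- Add a relation to the system of the table. -/
def add (T : Tab X) (u v : X) : Tab X := { T with S := T.S.add u v }

/-- The cell with `w < c`. -/
noncomputable def cB [Fintype X] (T : Tab X) (w c : X) (s t : Fin 3) : ℕ :=
  (((T.S.left T.i s).right T.j t).add w c).N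

/-- The cell with `c < w`. -/
noncomputable def cA [Fintype X] (T : Tab X) (w c : X) (s t : Fin 3) : ℕ :=
  (((T.S.left T.i s).right T.j t).add c w).N

/-- The table of the letter `w` (regular, at `x`) against `j`, with `i` in the state `s`. -/
def sw (T : Tab X) (w : X) (s : Fin 3) : Tab X := ⟨T.S.left T.i s, w, 0, 2, T.j, T.t, T.t'⟩

private theorem add_comm' (S : Sys X) (u v p q : X) : (S.add u v).add p q = (S.add p q).add u v := by
  refine Sys.ext ?_ rfl rfl rfl rfl rfl rfl rfl
  funext a b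
  exact propext or_right_comm

private theorem left_add (S : Sys X) (i u v : X) (s : Fin 3) :
    (S.add u v).left i s = (S.left i s).add u v := by
  fin_cases s
  · exact add_comm' S u v i S.x
  · rfl
  · exact add_comm' S u v S.x i

private theorem right_add (S : Sys X) (j u v : X) (t : Fin 3) :
    (S.add u v).right j t = (S.right j t).add u v := by
  fin_cases t
  · exact add_comm' S u v j S.z
  · rfl
  · exact add_comm' S u v S.z j

private theorem left_x (S : Sys X) (i : X) (s : Fin 3) : (S.left i s).x = S.x := by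
  fin_cases s <;> rfl

private theorem left_y (S : Sys X) (i : X) (s : Fin 3) : (S.left i s).y = S.y := by
  fin_cases s <;> rfl

private theorem left_z (S : Sys X) (i : X) (s : Fin 3) : (S.left i s).z = S.z := by
  fin_cases s <;> rfl

private theorem left_pz (S : Sys X) (i : X) (s : Fin 3) : (S.left i s).pz = S.pz := by
  fin_cases s <;> rfl

private theorem left_a (S : Sys X) (i : X) (s : Fin 3) : (S.left i s).a = S.a := by
  fin_cases s <;> rfl

private theorem left_b (S : Sys X) (i : X) (s : Fin 3) : (S.left i s).b = S.b := by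
  fin_cases s <;> rfl

private theorem left_R (S : Sys X) (i : X) (s : Fin 3) (p q : X) (h : S.R p q) :
    (S.left i s).R p q := by
  fin_cases s
  · exact Or.inl h
  · exact h
  · exact Or.inl h

theorem add_OK (T : Tab X) (h : T.OK) (u v : X) : (T.add u v).OK := h

theorem sw_OK (T : Tab X) (h : T.OK) (w : X) (s : Fin 3) : (T.sw w s).OK := by
  obtain ⟨_, h2, _, h4, h5, h6⟩ := h
  refine ⟨?_, h2, Or.inr ⟨rfl, rfl⟩, ?_, ?_, ?_⟩
  · show (0 : Fin 3) < 2
    decide
  · show (T.S.left T.i s).pz = none ∨ _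
    rw [left_pz]
    exact h4
  · show 1 ≤ (T.S.left T.i s).a
    rw [left_a]
    exact h5
  · show 1 ≤ (T.S.left T.i s).b
    rw [left_b]
    exact h6

theorem add_cell [Fintype X] (T : Tab X) (u v : X) (s t : Fin 3) :
    (T.add u v).cell s t = T.cB u v s t := by
  show (((T.S.add u v).left T.i s).right T.j t).N = (((T.S.left T.i s).right T.j t).add u v).N
  rw [left_add, right_add]

/-- `cA` is `cB` with the letters exchanged. -/
theorem cA_eq [Fintype X] (T : Tab X) (w c : X) (s t : Fin 3) : T.cA w c s t = T.cB c w s t := rfl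

theorem cell_split [Fintype X] (T : Tab X) (w c : X) (hwc : w ≠ c) (s t : Fin 3) :
    T.cell s t = T.cB w c s t + T.cA w c s t :=
  Sys.N_split _ w c hwc

/-- The cells of `T.sw w s` (`w` at `x` is regular). -/
theorem sw_cell_zero [Fintype X] (T : Tab X) (w : X) (s t : Fin 3) :
    (T.sw w s).cell 0 t = T.cB w T.S.x s t := by
  show (((T.S.left T.i s).add w (T.S.left T.i s).x).right T.j t).N =
    (((T.S.left T.i s).right T.j t).add w T.S.x).N
  rw [right_add, left_x]

theorem sw_cell_two [Fintype X] (T : Tab X) (w : X) (s t : Fin 3) :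
    (T.sw w s).cell 2 t = T.cA w T.S.x s t := by
  show (((T.S.left T.i s).add (T.S.left T.i s).x w).right T.j t).N =
    (((T.S.left T.i s).right T.j t).add T.S.x w).N
  rw [right_add, left_x]

private theorem card_mono [Finite X] {p q : X → Prop} (h : ∀ w, p w → q w) :
    Nat.card {w : X // p w} ≤ Nat.card {w : X // q w} :=
  Nat.card_le_card_of_injective (fun w => (⟨w.1, h w.1 w.2⟩ : {w : X // q w}))
    (fun _ _ hab => Subtype.ext (congrArg (fun t => t.1) hab))

private theorem card_lt [Finite X] {p q : X → Prop} (h : ∀ w, p w → q w) (v : X) (hq : q v)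
    (hp : ¬ p v) : Nat.card {w : X // p w} < Nat.card {w : X // q w} := by
  have h1 : {w : X | p w} ⊂ {w : X | q w} := by
    refine ⟨fun w hw => h w hw, fun hcon => hp ?_⟩
    exact hcon (show v ∈ {w : X | q w} from hq)
  have h2 := Set.ncard_lt_ncard h1 (Set.toFinite _)
  rw [← Nat.card_coe_set_eq, ← Nat.card_coe_set_eq] at h2
  exact h2

private theorem undX_of_add {S : Sys X} {u v w : X} (h : (S.add u v).UndX w) : S.UndX w :=
  ⟨h.1, h.2.1, h.2.2.1, fun h' => h.2.2.2.1 (Or.inl h'), fun h' => h.2.2.2.2.1 (Or.inl h'),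
    h.2.2.2.2.2⟩

private theorem undZ_of_add {S : Sys X} {u v w : X} (h : (S.add u v).UndZ w) : S.UndZ w :=
  ⟨h.1, h.2.1, h.2.2.1, fun h' => h.2.2.2.1 (Or.inl h'), fun h' => h.2.2.2.2.1 (Or.inl h'),
    h.2.2.2.2.2⟩

theorem add_U_le [Finite X] (T : Tab X) (u v : X) : (T.add u v).U ≤ T.U :=
  Nat.add_le_add (card_mono fun _ hw => ⟨hw.1, undX_of_add hw.2⟩)
    (card_mono fun _ hw => ⟨hw.1, undZ_of_add hw.2⟩)

theorem add_U_lt_x [Finite X] (T : Tab X) (w : X) (hwi : w ≠ T.i) (hw : T.S.UndX w) :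
    (T.add w T.S.x).U < T.U ∧ (T.add T.S.x w).U < T.U := by
  constructor
  · refine Nat.add_lt_add_of_lt_of_le (card_lt (fun _ hw => ⟨hw.1, undX_of_add hw.2⟩) w
      ⟨hwi, hw⟩ fun h => ?_) (card_mono fun _ hw => ⟨hw.1, undZ_of_add hw.2⟩)
    exact h.2.2.2.2.1 (Or.inr ⟨rfl, rfl⟩)
  · refine Nat.add_lt_add_of_lt_of_le (card_lt (fun _ hw => ⟨hw.1, undX_of_add hw.2⟩) w
      ⟨hwi, hw⟩ fun h => ?_) (card_mono fun _ hw => ⟨hw.1, undZ_of_add hw.2⟩)
    exact h.2.2.2.2.2.1 (Or.inr ⟨rfl, rfl⟩)

theorem add_U_lt_z [Finite X] (T : Tab X) (w : X) (hwj : w ≠ T.j) (hw : T.S.UndZ w) :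
    (T.add w T.S.z).U < T.U ∧ (T.add T.S.z w).U < T.U := by
  constructor
  · refine Nat.add_lt_add_of_le_of_lt (card_mono fun _ hw => ⟨hw.1, undX_of_add hw.2⟩)
      (card_lt (fun _ hw => ⟨hw.1, undZ_of_add hw.2⟩) w ⟨hwj, hw⟩ fun h => ?_)
    exact h.2.2.2.2.1 (Or.inr ⟨rfl, rfl⟩)
  · refine Nat.add_lt_add_of_le_of_lt (card_mono fun _ hw => ⟨hw.1, undX_of_add hw.2⟩)
      (card_lt (fun _ hw => ⟨hw.1, undZ_of_add hw.2⟩) w ⟨hwj, hw⟩ fun h => ?_)
    exact h.2.2.2.2.2.1 (Or.inr ⟨rfl, rfl⟩)

/-- (after `left i s` the letter `i` is determined at `x`, and `w` leaves the count as the letter of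
the new table; note `T.S.px = none` if `s = 1` may be assumed by `OK`, but is not needed: see `UndX`;
if `s = 1` and `T.S.px = some p`, `p` might become undetermined, so `hs` is needed) -/
theorem sw_U_lt [Finite X] (T : Tab X) (h : T.OK) (w : X) (hwi : w ≠ T.i) (hw : T.S.UndX w)
    (s : Fin 3) (hs : s = T.s ∨ s = T.s') : (T.sw w s).U < T.U := by
  obtain ⟨h1, _, h3, _⟩ := h
  have hnone : s = 1 → T.S.px = none := by
    intro hs1
    rcases h3 with h3 | ⟨h3, h4⟩
    · exact h3
    · exfalso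
      rcases hs with hs | hs
      · rw [hs1, h3] at hs
        exact absurd hs (by decide)
      · rw [hs1, h4] at hs
        exact absurd hs (by decide)
  refine Nat.add_lt_add_of_lt_of_le (card_lt (fun v hv => ?_) w ⟨hwi, hw⟩ fun h => h.1 rfl)
    (card_mono fun v hv => ?_)
  · obtain ⟨_, hv1, hv2, hv3, hv4, hv5, hv6⟩ := hv
    change v ≠ (T.S.left T.i s).x at hv1
    change v ≠ (T.S.left T.i s).y at hv2
    change v ≠ (T.S.left T.i s).z at hv3
    change ¬ (T.S.left T.i s).R v (T.S.left T.i s).x at hv4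
    change ¬ (T.S.left T.i s).R (T.S.left T.i s).x v at hv5
    change (T.S.left T.i s).px ≠ some v at hv6
    rw [left_x] at hv1 hv4 hv5
    rw [left_y] at hv2
    rw [left_z] at hv3
    have hvi : v ≠ T.i := by
      rintro rfl
      fin_cases s
      · exact hv4 (Or.inr ⟨rfl, rfl⟩)
      · exact hv6 rfl
      · exact hv5 (Or.inr ⟨rfl, rfl⟩)
    refine ⟨hvi, hv1, hv2, hv3, fun h' => hv4 (left_R _ _ _ _ _ h'),
      fun h' => hv5 (left_R _ _ _ _ _ h'), ?_⟩
    fin_cases s
    · exact hv6
    · rw [hnone rfl]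
      exact fun h => Option.some_ne_none v h.symm
    · exact hv6
  · obtain ⟨hv0, hv1, hv2, hv3, hv4, hv5, hv6⟩ := hv
    change v ≠ (T.S.left T.i s).x at hv1
    change v ≠ (T.S.left T.i s).y at hv2
    change v ≠ (T.S.left T.i s).z at hv3
    change ¬ (T.S.left T.i s).R v (T.S.left T.i s).z at hv4
    change ¬ (T.S.left T.i s).R (T.S.left T.i s).z v at hv5
    change (T.S.left T.i s).pz ≠ some v at hv6
    rw [left_x] at hv1
    rw [left_y] at hv2
    rw [left_z] at hv3 hv4 hv5
    rw [left_pz] at hv6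
    exact ⟨hv0, hv1, hv2, hv3, fun h' => hv4 (left_R _ _ _ _ _ h'),
      fun h' => hv5 (left_R _ _ _ _ _ h'), hv6⟩

end Tab

end Pool.Agent.CPT
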