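import Mathlib
import Pool.Agent.CPT.Defs
import Pool.Agent.CPT.Und
import Pool.Agent.CPT.Rank
import Pool.Agent.CPT.Exch

/-!
# Project CPT, module NC : no coincidence
-/

set_option autoImplicit false

namespace Pool.Agent.CPT

open Finset

namespace Tab
variable {X : Type} [Fintype X]

private def ncP (S : Sys X) (i : X) (s : Fin 3) : Option X := if s = 1 then some i else S.px

private def ncQ (S : Sys X) (j : X) (t : Fin 3) : Option X := if t = 1 then some j else S.pz

private theorem nc_fin (s : Fin 3) : s = 0 ∨ s = 1 ∨ s = 2 := by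
  revert s
  decide

omit [Fintype X] in
private theorem nc_R (S : Sys X) (i j : X) (s t : Fin 3) (u v : X) :
    ((S.left i s).right j t).R u v ↔ (S.R u v ∨ (s = 0 ∧ u = i ∧ v = S.x) ∨
      (s = 2 ∧ u = S.x ∧ v = i) ∨ (t = 0 ∧ u = j ∧ v = S.z) ∨ (t = 2 ∧ u = S.z ∧ v = j)) := by
  obtain h | h | h := nc_fin s <;> obtain h' | h' | h' := nc_fin t <;> subst h <;> subst h' <;>
    simp [Sys.left, Sys.right] <;> tauto

omit [Fintype X] in
private theorem nc_x (S : Sys X) (i j : X) (s t : Fin 3) : ((S.left i s).right j t).x = S.x := by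
  obtain h | h | h := nc_fin s <;> obtain h' | h' | h' := nc_fin t <;> subst h <;> subst h' <;> rfl

omit [Fintype X] in
private theorem nc_y (S : Sys X) (i j : X) (s t : Fin 3) : ((S.left i s).right j t).y = S.y := by
  obtain h | h | h := nc_fin s <;> obtain h' | h' | h' := nc_fin t <;> subst h <;> subst h' <;> rfl

omit [Fintype X] in
private theorem nc_z (S : Sys X) (i j : X) (s t : Fin 3) : ((S.left i s).right j t).z = S.z := by
  obtain h | h | h := nc_fin s <;> obtain h' | h' | h' := nc_fin t <;> subst h <;> subst h' <;> rfl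

omit [Fintype X] in
private theorem nc_a (S : Sys X) (i j : X) (s t : Fin 3) : ((S.left i s).right j t).a = S.a := by
  obtain h | h | h := nc_fin s <;> obtain h' | h' | h' := nc_fin t <;> subst h <;> subst h' <;> rfl

omit [Fintype X] in
private theorem nc_b (S : Sys X) (i j : X) (s t : Fin 3) : ((S.left i s).right j t).b = S.b := by
  obtain h | h | h := nc_fin s <;> obtain h' | h' | h' := nc_fin t <;> subst h <;> subst h' <;> rfl

omit [Fintype X] in
private theorem nc_px (S : Sys X) (i j : X) (s t : Fin 3) :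
    ((S.left i s).right j t).px = ncP S i s := by
  obtain h | h | h := nc_fin s <;> obtain h' | h' | h' := nc_fin t <;> subst h <;> subst h' <;> rfl

omit [Fintype X] in
private theorem nc_pz (S : Sys X) (i j : X) (s t : Fin 3) :
    ((S.left i s).right j t).pz = ncQ S j t := by
  obtain h | h | h := nc_fin s <;> obtain h' | h' | h' := nc_fin t <;> subst h <;> subst h' <;> rfl

private theorem nc_conf (S : Sys X) (i j : X) (s t : Fin 3) (f : X ≃ Fin (Fintype.card X)) :
    ((S.left i s).right j t).Conf f ↔ ((∀ u v, S.R u v → f u < f v) ∧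
      ((f S.y : ℕ) = (f S.x : ℕ) + S.a) ∧ ((f S.z : ℕ) = (f S.y : ℕ) + S.b) ∧
      (∀ p, ncP S i s = some p → (f p : ℕ) + 1 = (f S.x : ℕ)) ∧
      (∀ q, ncQ S j t = some q → (f q : ℕ) = (f S.z : ℕ) + 1) ∧
      (s = 0 → f i < f S.x) ∧ (s = 2 → f S.x < f i) ∧ (t = 0 → f j < f S.z) ∧
      (t = 2 → f S.z < f j)) := by
  unfold Sys.Conf
  rw [nc_x, nc_y, nc_z, nc_a, nc_b, nc_px, nc_pz]
  constructor
  · rintro ⟨h1, h2, h3, h4, h5⟩
    refine ⟨fun u v h => h1 u v ((nc_R S i j s t u v).2 (Or.inl h)), h2, h3, h4, h5,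
      fun h => h1 _ _ ((nc_R S i j s t _ _).2 (Or.inr (Or.inl ⟨h, rfl, rfl⟩))),
      fun h => h1 _ _ ((nc_R S i j s t _ _).2 (Or.inr (Or.inr (Or.inl ⟨h, rfl, rfl⟩)))),
      fun h => h1 _ _ ((nc_R S i j s t _ _).2 (Or.inr (Or.inr (Or.inr (Or.inl ⟨h, rfl, rfl⟩))))),
      fun h => h1 _ _ ((nc_R S i j s t _ _).2 (Or.inr (Or.inr (Or.inr (Or.inr ⟨h, rfl, rfl⟩)))))⟩
  · rintro ⟨h1, h2, h3, h4, h5, h6, h7, h8, h9⟩
    refine ⟨fun u v h => ?_, h2, h3, h4, h5⟩
    rcases (nc_R S i j s t u v).1 h with g | ⟨g, rfl, rfl⟩ | ⟨g, rfl, rfl⟩ | ⟨g, rfl, rfl⟩ |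
      ⟨g, rfl, rfl⟩
    · exact h1 u v g
    · exact h6 g
    · exact h7 g
    · exact h8 g
    · exact h9 g

private theorem nc_card (f : X ≃ Fin (Fintype.card X)) (c : X) :
    (univ.filter (fun u => f u < f c)).card = (f c : ℕ) := by
  rw [← Fin.card_Iio (f c)]
  refine Finset.card_bij (fun u _ => f u) ?_ ?_ ?_
  · intro u hu
    rw [mem_filter] at hu
    exact mem_Iio.2 hu.2
  · intro u _ v _ h
    exact f.injective h
  · intro v hv
    refine ⟨f.symm v, ?_, f.apply_symm_apply v⟩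
    rw [mem_filter, f.apply_symm_apply]
    exact ⟨mem_univ _, mem_Iio.1 hv⟩

/-- the block function -/
private noncomputable def ncB (S : Sys X) (K0 K1 K2 : Finset X) (u : X) : ℕ :=
  open Classical in
  if u ∈ K0 then (if S.px = some u then 1 else 0) else if u = S.x then 2 else
    if u ∈ K1 then 3 else if u = S.y then 4 else if u ∈ K2 then 5 else if u = S.z then 6 else
    if S.pz = some u then 7 else 8

private theorem nc_real (S : Sys X) (f0 : X ≃ Fin (Fintype.card X)) (K0 K1 K2 : Finset X)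
    (h01 : K0 ⊆ K1) (h12 : K1 ⊆ K2)
    (x0 : S.x ∉ K0) (x1 : S.x ∈ K1) (y1 : S.y ∉ K1) (y2 : S.y ∈ K2) (z2 : S.z ∉ K2)
    (c1 : K1.card = K0.card + S.a) (c2 : K2.card = K1.card + S.b)
    (hf : ∀ u v, S.R u v → f0 u < f0 v)
    (k0 : ∀ u v, S.R u v → v ∈ K0 → u ∈ K0) (k1 : ∀ u v, S.R u v → v ∈ K1 → u ∈ K1)
    (k2 : ∀ u v, S.R u v → v ∈ K2 → u ∈ K2)
    (rx : ∀ u, S.R u S.x → u ∈ K0) (ry : ∀ u, S.R u S.y → u ∈ K1) (rz : ∀ u, S.R u S.z → u ∈ K2)
    (hp : ∀ p, S.px = some p → p ∈ K0 ∧ ∀ u, S.R p u → u ∉ K0)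
    (hq : ∀ q, S.pz = some q → q ∉ K2 ∧ q ≠ S.z ∧ ∀ u, S.R u q → u ∈ K2 ∨ u = S.z) :
    ∃ f, S.Conf f ∧ (∀ u ∈ K0, f u < f S.x) ∧ (∀ u, u ∉ K0 → u ≠ S.x → f S.x < f u) ∧
      (∀ u ∈ K2, f u < f S.z) ∧ (∀ u, u ∉ K2 → u ≠ S.z → f S.z < f u) := by
  classical
  obtain ⟨β, hβ⟩ : ∃ β, β = ncB S K0 K1 K2 := ⟨_, rfl⟩
  have hB : ∀ u, β u = if u ∈ K0 then (if S.px = some u then 1 else 0) else
      if u = S.x then 2 else if u ∈ K1 then 3 else if u = S.y then 4 else
      if u ∈ K2 then 5 else if u = S.z then 6 else if S.pz = some u then 7 else 8 := by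
    intro u
    rw [hβ]
    unfold ncB
    congr
  have hyx : S.y ≠ S.x := fun h => y1 (h ▸ x1)
  have hzx : S.z ≠ S.x := fun h => z2 (h ▸ h12 x1)
  have hzy : S.z ≠ S.y := fun h => z2 (h ▸ y2)
  -- values
  have b01 : ∀ u, u ∈ K0 ↔ β u ≤ 1 := by
    intro u
    constructor
    · intro h
      rw [hB u, if_pos h]
      split_ifs <;> omega
    · intro h
      by_contra h'
      rw [hB u, if_neg h'] at h
      split_ifs at h <;> omega
  have b2 : ∀ u, β u = 2 ↔ u = S.x := by
    intro u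
    constructor
    · intro h
      rw [hB u] at h
      split_ifs at h <;> omega
    · rintro rfl
      rw [hB S.x, if_neg x0, if_pos rfl]
  have b3 : ∀ u, β u = 3 ↔ (u ∈ K1 ∧ u ∉ K0 ∧ u ≠ S.x) := by
    intro u
    constructor
    · intro h
      rw [hB u] at h
      split_ifs at h <;> first | omega | exact ⟨by assumption, by assumption, by assumption⟩
    · rintro ⟨h1, h0, hx⟩
      rw [hB u, if_neg h0, if_neg hx, if_pos h1]
  have b33 : ∀ u, u ∈ K1 ↔ β u ≤ 3 := by
    intro u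
    constructor
    · intro h
      rw [hB u]
      split_ifs <;> omega
    · intro h
      by_contra h'
      have h0 : u ∉ K0 := fun h0 => h' (h01 h0)
      have hx : u ≠ S.x := fun hx => h' (hx ▸ x1)
      rw [hB u, if_neg h0, if_neg hx, if_neg h'] at h
      split_ifs at h <;> omega
  have b4 : ∀ u, β u = 4 ↔ u = S.y := by
    intro u
    constructor
    · intro h
      rw [hB u] at h
      split_ifs at h <;> omega
    · rintro rfl
      have h0 : S.y ∉ K0 := fun h0 => y1 (h01 h0)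
      rw [hB S.y, if_neg h0, if_neg hyx, if_neg y1, if_pos rfl]
  have b5 : ∀ u, β u = 5 ↔ (u ∈ K2 ∧ u ∉ K1 ∧ u ≠ S.y) := by
    intro u
    constructor
    · intro h
      rw [hB u] at h
      split_ifs at h <;> first | omega | exact ⟨by assumption, by assumption, by assumption⟩
    · rintro ⟨h2, h1, hy⟩
      have h0 : u ∉ K0 := fun h0 => h1 (h01 h0)
      have hx : u ≠ S.x := fun hx => h1 (hx ▸ x1)
      rw [hB u, if_neg h0, if_neg hx, if_neg h1, if_neg hy, if_pos h2]
  have b55 : ∀ u, u ∈ K2 ↔ β u ≤ 5 := by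
    intro u
    constructor
    · intro h
      rw [hB u]
      split_ifs <;> omega
    · intro h
      by_contra h'
      have h1 : u ∉ K1 := fun h1 => h' (h12 h1)
      have h0 : u ∉ K0 := fun h0 => h1 (h01 h0)
      have hx : u ≠ S.x := fun hx => h1 (hx ▸ x1)
      have hy : u ≠ S.y := fun hy => h' (hy ▸ y2)
      rw [hB u, if_neg h0, if_neg hx, if_neg h1, if_neg hy, if_neg h'] at h
      split_ifs at h <;> omega
  have b6 : ∀ u, β u = 6 ↔ u = S.z := by
    intro u
    constructor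
    · intro h
      rw [hB u] at h
      split_ifs at h <;> omega
    · rintro rfl
      have h1 : S.z ∉ K1 := fun h1 => z2 (h12 h1)
      have h0 : S.z ∉ K0 := fun h0 => h1 (h01 h0)
      rw [hB S.z, if_neg h0, if_neg hzx, if_neg h1, if_neg hzy, if_neg z2, if_pos rfl]
  have b1 : ∀ u, β u = 1 ↔ S.px = some u := by
    intro u
    constructor
    · intro h
      rw [hB u] at h
      split_ifs at h <;> omega
    · intro h
      rw [hB u, if_pos (hp u h).1, if_pos h]
  have b7 : ∀ u, β u = 7 ↔ S.pz = some u := by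
    intro u
    constructor
    · intro h
      rw [hB u] at h
      split_ifs at h <;> omega
    · intro h
      obtain ⟨h2, hz, -⟩ := hq u h
      have h1 : u ∉ K1 := fun h1 => h2 (h12 h1)
      have h0 : u ∉ K0 := fun h0 => h1 (h01 h0)
      have hx : u ≠ S.x := fun hx => h1 (hx ▸ x1)
      have hy : u ≠ S.y := fun hy => h2 (hy ▸ y2)
      rw [hB u, if_neg h0, if_neg hx, if_neg h1, if_neg hy, if_neg h2, if_neg hz, if_pos h]
  have b8 : ∀ u, β u ≤ 8 := by
    intro u
    rw [hB u]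
    split_ifs <;> omega
  have hle : ∀ u v, S.R u v → β u ≤ β v := by
    intro u v huv
    by_contra hlt
    rw [not_le] at hlt
    have g0 := k0 u v huv
    have g1 := k1 u v huv
    have g2 := k2 u v huv
    rw [b01, b01] at g0
    rw [b33, b33] at g1
    rw [b55, b55] at g2
    have hu8 := b8 u
    -- v in the block 0
    rcases Nat.lt_or_ge (β v) 1 with hv | hv
    · have h1 : β u = 1 := by
        have := g0 (by omega)
        omega
      exact (hp u ((b1 u).1 h1)).2 v huv ((b01 v).2 (by omega))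
    · rcases Nat.lt_or_ge (β v) 2 with hv2 | hv2
      · have := g0 (by omega)
        omega
      · rcases Nat.lt_or_ge (β v) 3 with hv3 | hv3
        · have h1 := (b2 v).1 (by omega)
          rw [h1] at huv
          have := (b01 u).1 (rx u huv)
          omega
        · rcases Nat.lt_or_ge (β v) 4 with hv4 | hv4
          · have := g1 (by omega)
            omega
          · rcases Nat.lt_or_ge (β v) 5 with hv5 | hv5
            · have h1 := (b4 v).1 (by omega)
              rw [h1] at huv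
              have := (b33 u).1 (ry u huv)
              omega
            · rcases Nat.lt_or_ge (β v) 6 with hv6 | hv6
              · have := g2 (by omega)
                omega
              · rcases Nat.lt_or_ge (β v) 7 with hv7 | hv7
                · have h1 := (b6 v).1 (by omega)
                  rw [h1] at huv
                  have := (b55 u).1 (rz u huv)
                  omega
                · have h1 := (b7 v).1 (by omega)
                  rcases (hq v h1).2.2 u huv with h2 | h2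
                  · have := (b55 u).1 h2
                    omega
                  · have := (b6 u).2 h2
                    omega
  have hle7 : ∀ u v, β v = 7 → S.R u v → β u < 7 := by
    intro u v hv huv
    rcases (hq v ((b7 v).1 hv)).2.2 u huv with h2 | h2
    · have := (b55 u).1 h2
      omega
    · have := (b6 u).2 h2
      omega
  have ha : Nat.card {u : X // β u = 3} + 1 = S.a := by
    have e : Nat.card {u : X // β u = 3} = ((K1 \ K0).erase S.x).card := by
      refine Nat.subtype_card _ (fun u => ?_)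
      rw [b3, mem_erase, mem_sdiff]
      tauto
    rw [e, card_erase_add_one (mem_sdiff.2 ⟨x1, x0⟩)]
    have := card_sdiff_add_card_eq_card h01
    omega
  have hb : Nat.card {u : X // β u = 5} + 1 = S.b := by
    have e : Nat.card {u : X // β u = 5} = ((K2 \ K1).erase S.y).card := by
      refine Nat.subtype_card _ (fun u => ?_)
      rw [b5, mem_erase, mem_sdiff]
      tauto
    rw [e, card_erase_add_one (mem_sdiff.2 ⟨y2, y1⟩)]
    have := card_sdiff_add_card_eq_card h12
    omega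
  obtain ⟨f, hfC, hfβ⟩ := realize S f0 β (fun u v h _ => hf u v h) hle b2 b4 b6 ha hb b1 b7
  refine ⟨f, hfC, fun u hu => hfβ _ _ ?_, fun u hu hux => hfβ _ _ ?_, fun u hu => hfβ _ _ ?_,
    fun u hu huz => hfβ _ _ ?_⟩
  · rw [(b2 S.x).2 rfl]
    have := (b01 u).1 hu
    omega
  · rw [(b2 S.x).2 rfl]
    have h1 : ¬ β u ≤ 1 := fun h => hu ((b01 u).2 h)
    have h2 : β u ≠ 2 := fun h => hux ((b2 u).1 h)
    omega
  · rw [(b6 S.z).2 rfl]
    have := (b55 u).1 hu
    omega
  · rw [(b6 S.z).2 rfl]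
    have h1 : ¬ β u ≤ 5 := fun h => hu ((b55 u).2 h)
    have h2 : β u ≠ 6 := fun h => huz ((b6 u).1 h)
    omega

private theorem nc_qu {S : Sys X} {f : X ≃ Fin (Fintype.card X)} {u v : X} (hu : f u < f v)
    (hv : (f v : ℕ) = (f S.z : ℕ) + 1) : f u < f S.z ∨ u = S.z := by
  rw [Fin.lt_def] at hu
  rcases Nat.lt_or_ge (f u : ℕ) (f S.z : ℕ) with h | h
  · exact Or.inl (Fin.lt_def.2 h)
  · right
    apply f.injective
    apply Fin.ext
    omega

private theorem nc_jz {S : Sys X} {f : X ≃ Fin (Fintype.card X)} {j : X} {t : Fin 3}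
    (hQ : ∀ q, ncQ S j t = some q → (f q : ℕ) = (f S.z : ℕ) + 1) (h2 : t = 2 → f S.z < f j)
    (ht : t ≠ 0) : f S.z < f j := by
  rcases nc_fin t with h | h | h
  · exact absurd h ht
  · have h1 := hQ j (by
      unfold ncQ
      rw [if_pos h])
    rw [Fin.lt_def]
    omega
  · exact h2 h

private theorem nc_ju {S : Sys X} {f : X ≃ Fin (Fintype.card X)} {j : X} {t : Fin 3}
    (hQ : ∀ q, ncQ S j t = some q → (f q : ℕ) = (f S.z : ℕ) + 1) (h0 : t = 0 → f j < f S.z)
    (ht : t ≠ 2) {u : X} (hu : f u < f j) : f u < f S.z ∨ u = S.z := by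
  rcases nc_fin t with h | h | h
  · exact Or.inl (lt_trans hu (h0 h))
  · exact nc_qu hu (hQ j (by
      unfold ncQ
      rw [if_pos h]))
  · exact absurd h ht

private theorem nc_main (T : Tab X) (hT : T.OK) (w : X) (hwi : w ≠ T.i)
    (hw : T.S.UndX w) (hs' : T.s' = 2) {t0 t1 : Fin 3} (ht0 : t0 = T.t ∨ t0 = T.t')
    (ht1 : t1 = T.t ∨ t1 = T.t')
    (h0 : 0 < T.cB w T.S.x T.s t0) (h1 : 0 < T.cA w T.S.x 2 t1) :
    ∃ t2, (t2 = T.t ∨ t2 = T.t') ∧ (0 < T.cA w T.S.x T.s t2 ∨ 0 < T.cB w T.S.x 2 t2) := by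
  classical
  obtain ⟨ss, tt, hpx, hpz, ha, hb⟩ := hT
  obtain ⟨wx, wy, wz, -, -, -⟩ := hw
  unfold cB at h0
  unfold cA at h1
  rw [Sys.N_pos_iff] at h0 h1
  obtain ⟨f0, hf0⟩ := h0
  obtain ⟨f1, hf1⟩ := h1
  rw [Sys.conf_add, nc_conf] at hf0 hf1
  obtain ⟨⟨R0, y0, z0, P0, Q0, i0, -, j0, jj0⟩, w0⟩ := hf0
  obtain ⟨⟨R1, y1, z1, P1, Q1, -, i1, j1, jj1⟩, w1⟩ := hf1
  have i1 := i1 rfl
  unfold cA cB
  obtain ⟨S, hS⟩ : ∃ S, S = T.S := ⟨_, rfl⟩
  obtain ⟨i, hi⟩ : ∃ i, i = T.i := ⟨_, rfl⟩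
  obtain ⟨j, hj⟩ : ∃ j, j = T.j := ⟨_, rfl⟩
  obtain ⟨s, hs⟩ : ∃ s, s = T.s := ⟨_, rfl⟩
  obtain ⟨t, ht⟩ : ∃ t, t = T.t := ⟨_, rfl⟩
  obtain ⟨t', ht'⟩ : ∃ t', t' = T.t' := ⟨_, rfl⟩
  rw [hs'] at ss hpx
  simp only [← hS, ← hi, ← hj, ← hs, ← ht, ← ht'] at *
  have hs1 : s = 0 ∨ s = 1 := by
    rcases nc_fin s with h | h | h
    · exact Or.inl h
    · exact Or.inr h
    · rw [h] at ss
      exact absurd ss (lt_irrefl _)
  have ii0 : f0 i < f0 S.x := by
    rcases hs1 with h | h
    · exact i0 h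
    · have h1 := P0 i (by
        unfold ncP
        rw [if_pos h])
      rw [Fin.lt_def]
      omega
  have xy0 : f0 S.x < f0 S.y := by
    rw [Fin.lt_def]
    omega
  have yz0 : f0 S.y < f0 S.z := by
    rw [Fin.lt_def]
    omega
  have xy1 : f1 S.x < f1 S.y := by
    rw [Fin.lt_def]
    omega
  have yz1 : f1 S.y < f1 S.z := by
    rw [Fin.lt_def]
    omega
  obtain ⟨mk, hmk⟩ : ∃ mk : Fin 3 → X, mk = ![S.x, S.y, S.z] := ⟨_, rfl⟩
  have m0 : mk 0 = S.x := by rw [hmk]; rfl
  have m1 : mk 1 = S.y := by rw [hmk]; rfl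
  have m2 : mk 2 = S.z := by rw [hmk]; rfl
  have jm : ∀ (f : X ≃ Fin (Fintype.card X)) (k : Fin 3) (u : X),
      u ∈ univ.filter (fun u => f u < f (mk k)) ↔ f u < f (mk k) := by
    intro f k u
    rw [mem_filter]
    exact ⟨fun h => h.2, fun h => ⟨mem_univ _, h⟩⟩
  obtain ⟨K, hK, k01, k12, cK1, cK2, hin, hout, hx⟩ := exchange S.R (fun u => (f0 u : ℕ))
    (fun u v h => f0.injective (Fin.ext h)) (fun u v h => R0 u v h)
    (fun k => univ.filter (fun u => f0 u < f0 (mk k)))
    (fun k => univ.filter (fun u => f1 u < f1 (mk k)))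
    (fun k u v huv hv => (jm f0 k u).2 (lt_trans (R0 u v huv) ((jm f0 k v).1 hv)))
    (fun k u v huv hv => (jm f1 k u).2 (lt_trans (R1 u v huv) ((jm f1 k v).1 hv)))
    (fun u hu => (jm f0 1 u).2 (lt_trans ((jm f0 0 u).1 hu) (by rw [m0, m1]; exact xy0)))
    (fun u hu => (jm f0 2 u).2 (lt_trans ((jm f0 1 u).1 hu) (by rw [m1, m2]; exact yz0)))
    (fun u hu => (jm f1 1 u).2 (lt_trans ((jm f1 0 u).1 hu) (by rw [m0, m1]; exact xy1)))
    (fun u hu => (jm f1 2 u).2 (lt_trans ((jm f1 1 u).1 hu) (by rw [m1, m2]; exact yz1)))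
    S.a S.b
    (by
      show (univ.filter (fun u => f0 u < f0 (mk 1))).card =
        (univ.filter (fun u => f0 u < f0 (mk 0))).card + S.a
      rw [nc_card, nc_card, m0, m1, y0])
    (by
      show (univ.filter (fun u => f0 u < f0 (mk 2))).card =
        (univ.filter (fun u => f0 u < f0 (mk 1))).card + S.b
      rw [nc_card, nc_card, m1, m2, z0])
    (by
      show (univ.filter (fun u => f1 u < f1 (mk 1))).card =
        (univ.filter (fun u => f1 u < f1 (mk 0))).card + S.a
      rw [nc_card, nc_card, m0, m1, y1])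
    (by
      show (univ.filter (fun u => f1 u < f1 (mk 2))).card =
        (univ.filter (fun u => f1 u < f1 (mk 1))).card + S.b
      rw [nc_card, nc_card, m1, m2, z1])
    i w (Ne.symm hwi) ((jm f0 0 i).2 (by rw [m0]; exact ii0)) ((jm f0 0 w).2 (by rw [m0]; exact w0))
    (fun h => lt_asymm i1 (by have := (jm f1 0 i).1 h; rwa [m0] at this))
    (fun h => lt_asymm w1 (by have := (jm f1 0 w).1 h; rwa [m0] at this))
  have inK : ∀ k u, f0 u < f0 (mk k) → f1 u < f1 (mk k) → u ∈ K k := fun k u h h' =>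
    hin k (mem_inter.2 ⟨(jm f0 k u).2 h, (jm f1 k u).2 h'⟩)
  have notK : ∀ k u, ¬ f0 u < f0 (mk k) → ¬ f1 u < f1 (mk k) → u ∉ K k := fun k u h h' hu => by
    rcases mem_union.1 (hout k hu) with g | g
    · exact h ((jm f0 k u).1 g)
    · exact h' ((jm f1 k u).1 g)
  have in0 : ∀ u, f0 u < f0 S.x → f1 u < f1 S.x → u ∈ K 0 := fun u h h' =>
    inK 0 u (by rwa [m0]) (by rwa [m0])
  have in1 : ∀ u, f0 u < f0 S.y → f1 u < f1 S.y → u ∈ K 1 := fun u h h' =>
    inK 1 u (by rwa [m1]) (by rwa [m1])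
  have in2 : ∀ u, f0 u < f0 S.z → f1 u < f1 S.z → u ∈ K 2 := fun u h h' =>
    inK 2 u (by rwa [m2]) (by rwa [m2])
  have not0 : ∀ u, ¬ f0 u < f0 S.x → ¬ f1 u < f1 S.x → u ∉ K 0 := fun u h h' =>
    notK 0 u (by rwa [m0]) (by rwa [m0])
  have not1 : ∀ u, ¬ f0 u < f0 S.y → ¬ f1 u < f1 S.y → u ∉ K 1 := fun u h h' =>
    notK 1 u (by rwa [m1]) (by rwa [m1])
  have not2 : ∀ u, ¬ f0 u < f0 S.z → ¬ f1 u < f1 S.z → u ∉ K 2 := fun u h h' =>
    notK 2 u (by rwa [m2]) (by rwa [m2])
  -- pins at `x`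
  have pin0 : ∀ p, (f0 p : ℕ) + 1 = (f0 S.x : ℕ) → (f1 p : ℕ) + 1 = (f1 S.x : ℕ) ∨ f1 S.x < f1 p →
      ∀ u, S.R p u → u ∉ K 0 := by
    intro p h h' u hu
    have g0 := R0 p u hu
    have g1 := R1 p u hu
    rw [Fin.lt_def] at g0 g1
    refine not0 u (fun h2 => ?_) (fun h2 => ?_)
    · rw [Fin.lt_def] at h2
      omega
    · rw [Fin.lt_def] at h2
      rcases h' with h' | h'
      · omega
      · rw [Fin.lt_def] at h'
        omega
  have hpS : ∀ p, S.px = some p → p ∈ K 0 ∧ ∀ u, S.R p u → u ∉ K 0 := by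
    intro p hp
    rcases hpx with h | ⟨h, -⟩
    · rw [h] at hp
      exact absurd hp (by simp)
    · have g0 := P0 p (by
        unfold ncP
        rw [h, if_neg (by decide), hp])
      have g1 := P1 p (by
        unfold ncP
        rw [if_neg (by decide), hp])
      refine ⟨in0 p ?_ ?_, pin0 p g0 (Or.inl g1)⟩
      · rw [Fin.lt_def]
        omega
      · rw [Fin.lt_def]
        omega
  obtain ⟨P, hP⟩ : ∃ P, P = if i ∈ K 0 then ncP S i s else S.px := ⟨_, rfl⟩
  have hPp : ∀ p, P = some p → p ∈ K 0 ∧ ∀ u, S.R p u → u ∉ K 0 := by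
    intro p hp
    rw [hP] at hp
    by_cases hiK : i ∈ K 0
    · rw [if_pos hiK] at hp
      unfold ncP at hp
      by_cases h : s = 1
      · rw [if_pos h] at hp
        have hip : i = p := Option.some.inj hp
        rw [← hip]
        refine ⟨hiK, pin0 i (P0 i ?_) (Or.inr i1)⟩
        unfold ncP
        rw [if_pos h]
      · rw [if_neg h] at hp
        exact hpS p hp
    · rw [if_neg hiK] at hp
      exact hpS p hp
  -- the state of `j`
  obtain ⟨t2, ht2⟩ : ∃ t2 : Fin 3, t2 = if j ∈ K 2 then 0 else t' := ⟨_, rfl⟩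
  have ht'0 : t' ≠ 0 := by
    intro h
    rw [h] at tt
    exact absurd tt (by simp)
  have hjz : j ≠ S.z := by
    intro h
    by_cases h2 : t0 = 0
    · have := j0 h2
      rw [h] at this
      exact lt_irrefl _ this
    · have := nc_jz Q0 jj0 h2
      rw [h] at this
      exact lt_irrefl _ this
  have ht2t : t2 = t ∨ t2 = t' := by
    by_cases hjK : j ∈ K 2
    · left
      rw [ht2, if_pos hjK]
      by_contra hne
      have e0 : t0 ≠ 0 := by
        rcases ht0 with h | h
        · rw [h]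
          exact Ne.symm hne
        · rw [h]
          exact ht'0
      have e1 : t1 ≠ 0 := by
        rcases ht1 with h | h
        · rw [h]
          exact Ne.symm hne
        · rw [h]
          exact ht'0
      exact not2 j (lt_asymm (nc_jz Q0 jj0 e0)) (lt_asymm (nc_jz Q1 jj1 e1)) hjK
    · right
      rw [ht2, if_neg hjK]
  have hQq : ∀ q, ncQ S j t2 = some q → q ∉ K 2 ∧ q ≠ S.z ∧ ∀ u, S.R u q → u ∈ K 2 ∨ u = S.z := by
    intro q hq
    unfold ncQ at hq
    have two : ∀ u, (f0 u < f0 S.z ∨ u = S.z) → (f1 u < f1 S.z ∨ u = S.z) → u ∈ K 2 ∨ u = S.z := by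
      intro u h h'
      rcases h with h | h
      · rcases h' with h' | h'
        · exact Or.inl (in2 u h h')
        · exact Or.inr h'
      · exact Or.inr h
    by_cases h : t2 = 1
    · rw [if_pos h] at hq
      have hjq : j = q := Option.some.inj hq
      rw [← hjq]
      have hjK : j ∉ K 2 := by
        intro hjK
        rw [ht2, if_pos hjK] at h
        exact absurd h (by decide)
      rw [ht2, if_neg hjK] at h
      have e : t = 0 := by
        rcases nc_fin t with g | g | g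
        · exact g
        · rw [h, g] at tt
          exact absurd tt (lt_irrefl _)
        · rw [h, g] at tt
          exact absurd tt (by decide)
      have e0 : t0 ≠ 2 := by
        rcases ht0 with g | g
        · rw [g, e]
          decide
        · rw [g, h]
          decide
      have e1 : t1 ≠ 2 := by
        rcases ht1 with g | g
        · rw [g, e]
          decide
        · rw [g, h]
          decide
      exact ⟨hjK, hjz, fun u hu => two u (nc_ju Q0 j0 e0 (R0 u j hu)) (nc_ju Q1 j1 e1 (R1 u j hu))⟩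
    · rw [if_neg h] at hq
      rcases hpz with g | ⟨g, g'⟩
      · rw [g] at hq
        exact absurd hq (by simp)
      · have e0 : t0 ≠ 1 := by
          rcases ht0 with r | r
          · rw [r, g]
            decide
          · rw [r, g']
            decide
        have e1 : t1 ≠ 1 := by
          rcases ht1 with r | r
          · rw [r, g]
            decide
          · rw [r, g']
            decide
        have q0 := Q0 q (by
          unfold ncQ
          rw [if_neg e0, hq])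
        have q1 := Q1 q (by
          unfold ncQ
          rw [if_neg e1, hq])
        refine ⟨not2 q (fun r => ?_) (fun r => ?_), fun r => ?_, fun u hu =>
          two u (nc_qu (R0 u q hu) q0) (nc_qu (R1 u q hu) q1)⟩
        · rw [Fin.lt_def] at r
          omega
        · rw [Fin.lt_def] at r
          omega
        · rw [r] at q0
          omega
  obtain ⟨f, hfC, fx, fx', fz, fz'⟩ := nc_real { S with px := P, pz := ncQ S j t2 } f0 (K 0) (K 1) (K 2)
    k01 k12 (not0 _ (lt_irrefl _) (lt_irrefl _)) (in1 _ xy0 xy1)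
    (not1 _ (lt_irrefl _) (lt_irrefl _)) (in2 _ yz0 yz1)
    (not2 _ (lt_irrefl _) (lt_irrefl _)) cK1 cK2 R0 (hK 0) (hK 1) (hK 2)
    (fun u hu => in0 u (R0 _ _ hu) (R1 _ _ hu)) (fun u hu => in1 u (R0 _ _ hu) (R1 _ _ hu))
    (fun u hu => in2 u (R0 _ _ hu) (R1 _ _ hu)) hPp hQq
  obtain ⟨CR, Cy, Cz, Cp, Cq⟩ := hfC
  have jt0 : t2 = 0 → f j < f S.z := by
    intro h
    by_cases hjK : j ∈ K 2
    · exact fz j hjK
    · rw [ht2, if_neg hjK] at h
      exact absurd h ht'0
  have jt2 : t2 = 2 → f S.z < f j := by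
    intro h
    by_cases hjK : j ∈ K 2
    · rw [ht2, if_pos hjK] at h
      exact absurd h (by decide)
    · exact fz' j hjK hjz
  refine ⟨t2, ht2t, ?_⟩
  rcases hx with ⟨hiK, hwK⟩ | ⟨hiK, hwK⟩
  · left
    rw [Sys.N_pos_iff]
    refine ⟨f, ?_⟩
    rw [Sys.conf_add, nc_conf]
    rw [if_pos hiK] at hP
    refine ⟨⟨CR, Cy, Cz, fun p hp => Cp p (hP.trans hp), Cq, fun _ => fx i hiK, fun h => ?_, jt0,
      jt2⟩, fx' w hwK wx⟩
    rcases hs1 with g | g
    · rw [g] at h
      exact absurd h (by decide)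
    · rw [g] at h
      exact absurd h (by decide)
  · right
    rw [Sys.N_pos_iff]
    refine ⟨f, ?_⟩
    rw [Sys.conf_add, nc_conf]
    rw [if_neg hiK] at hP
    refine ⟨⟨CR, Cy, Cz, fun p hp => Cp p (hP.trans ?_), Cq, fun h => absurd h (by decide),
      fun _ => fx' i hiK ?_, jt0, jt2⟩, fx w hwK⟩
    · unfold ncP at hp
      rw [if_neg (by decide)] at hp
      exact hp
    · intro h
      rw [h] at i1
      exact lt_irrefl _ i1

theorem noCoincidence (T : Tab X) (hT : T.OK) (w : X) (hwi : w ≠ T.i) (hwj : w ≠ T.j)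
    (hw : T.S.UndX w)
    (h0 : 0 < T.cB w T.S.x T.s T.t + T.cB w T.S.x T.s T.t')
    (h1 : 0 < T.cA w T.S.x T.s' T.t + T.cA w T.S.x T.s' T.t') :
    0 < T.cA w T.S.x T.s T.t + T.cA w T.S.x T.s T.t' ∨
      0 < T.cB w T.S.x T.s' T.t + T.cB w T.S.x T.s' T.t' := by
  have _ := hwj
  have hOK := hT
  obtain ⟨ss, tt, hpx, hpz, ha, hb⟩ := hT
  have e0 : ∃ t0, (t0 = T.t ∨ t0 = T.t') ∧ 0 < T.cB w T.S.x T.s t0 := by
    rcases Nat.eq_zero_or_pos (T.cB w T.S.x T.s T.t) with h | h
    · rw [h, zero_add] at h0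
      exact ⟨_, Or.inr rfl, h0⟩
    · exact ⟨_, Or.inl rfl, h⟩
  have e1 : ∃ t1, (t1 = T.t ∨ t1 = T.t') ∧ 0 < T.cA w T.S.x T.s' t1 := by
    rcases Nat.eq_zero_or_pos (T.cA w T.S.x T.s' T.t) with h | h
    · rw [h, zero_add] at h1
      exact ⟨_, Or.inr rfl, h1⟩
    · exact ⟨_, Or.inl rfl, h⟩
  obtain ⟨t0, ht0, h0⟩ := e0
  obtain ⟨t1, ht1, h1⟩ := e1
  have fin : ∀ t2 : Fin 3, (t2 = T.t ∨ t2 = T.t') → 0 < T.cA w T.S.x T.s t2 ∨ 0 < T.cB w T.S.x T.s' t2 →
      0 < T.cA w T.S.x T.s T.t + T.cA w T.S.x T.s T.t' ∨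
        0 < T.cB w T.S.x T.s' T.t + T.cB w T.S.x T.s' T.t' := by
    intro t2 ht2 h
    rcases h with h | h
    · left
      rcases ht2 with g | g
      · rw [g] at h
        omega
      · rw [g] at h
        omega
    · right
      rcases ht2 with g | g
      · rw [g] at h
        omega
      · rw [g] at h
        omega
  rcases nc_fin T.s' with hs' | hs' | hs'
  · rw [hs'] at ss
    exact absurd ss (by simp)
  · have hs : T.s = 0 := by
      rcases nc_fin T.s with g | g | g
      · exact g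
      · rw [g, hs'] at ss
        exact absurd ss (lt_irrefl _)
      · rw [g, hs'] at ss
        exact absurd ss (by decide)
    have hnone : T.S.px = none := by
      rcases hpx with g | ⟨-, g⟩
      · exact g
      · rw [g] at hs'
        exact absurd hs' (by decide)
    refine fin t1 ht1 (Or.inl ?_)
    unfold cA at h1 ⊢
    rw [Sys.N_pos_iff] at h1 ⊢
    obtain ⟨f, hf⟩ := h1
    refine ⟨f, ?_⟩
    rw [Sys.conf_add, nc_conf] at hf ⊢
    obtain ⟨⟨R1, y1, z1, P1, Q1, -, i1, j1, jj1⟩, w1⟩ := hf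
    have g := P1 T.i (by
      unfold ncP
      rw [if_pos hs'])
    refine ⟨⟨R1, y1, z1, fun p hp => ?_, Q1, fun _ => ?_, fun h => ?_, j1, jj1⟩, w1⟩
    · unfold ncP at hp
      rw [hs, if_neg (by decide), hnone] at hp
      exact absurd hp (by simp)
    · rw [Fin.lt_def]
      omega
    · rw [hs] at h
      exact absurd h (by decide)
  · rw [hs'] at h1
    obtain ⟨t2, ht2, h⟩ := nc_main T hOK w hwi hw hs' ht0 ht1 h0 h1
    rw [← hs'] at h
    exact fin t2 ht2 h

end Tab

end Pool.Agent.CPT
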