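import Mathlib
import Pool.Agent.CPT.Alg
import Pool.Agent.CPT.NC

/-!
# Project CPT, module StepC
-/

set_option autoImplicit false

namespace Pool.Agent.CPT

namespace Tab
variable {X : Type} [Fintype X]

/-- Step C at the mark `x`. -/
theorem stepC (T : Tab X) (hT : T.OK) (w : X) (hwi : w ≠ T.i) (hwj : w ≠ T.j) (hw : T.S.UndX w)
    (IH : ∀ T' : Tab X, T'.OK → T'.U < T.U → T'.CA) (hneg : ¬ T.CA) :
    (T.cB w T.S.x T.s T.t + T.cB w T.S.x T.s T.t') *
        (T.cA w T.S.x T.s' T.t + T.cA w T.S.x T.s' T.t') <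
      (T.cA w T.S.x T.s T.t + T.cA w T.S.x T.s T.t') *
        (T.cB w T.S.x T.s' T.t + T.cB w T.S.x T.s' T.t') ∧
    (T.cB w T.S.x T.s T.t' + T.cB w T.S.x T.s' T.t') *
        (T.cA w T.S.x T.s T.t + T.cA w T.S.x T.s' T.t) <
      (T.cB w T.S.x T.s T.t + T.cB w T.S.x T.s' T.t) *
        (T.cA w T.S.x T.s T.t' + T.cA w T.S.x T.s' T.t') := by
  have hwx : w ≠ T.S.x := hw.1
  have hU := T.add_U_lt_x w hwi hw
  -- the four inequalities
  have h0 : (T.add w T.S.x).CA := IH _ (T.add_OK hT _ _) hU.1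
  have h1 : (T.add T.S.x w).CA := IH _ (T.add_OK hT _ _) hU.2
  have g0 : (T.sw w T.s).CA := IH _ (T.sw_OK hT w T.s) (T.sw_U_lt hT w hwi hw _ (Or.inl rfl))
  have g1 : (T.sw w T.s').CA := IH _ (T.sw_OK hT w T.s') (T.sw_U_lt hT w hwi hw _ (Or.inr rfl))
  have h0' : T.cB w T.S.x T.s T.t' * T.cB w T.S.x T.s' T.t ≤
      T.cB w T.S.x T.s T.t * T.cB w T.S.x T.s' T.t' := by
    have := h0
    unfold CA at this
    simp only [add_cell] at this
    exact this
  have h1' : T.cA w T.S.x T.s T.t' * T.cA w T.S.x T.s' T.t ≤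
      T.cA w T.S.x T.s T.t * T.cA w T.S.x T.s' T.t' := by
    have := h1
    unfold CA at this
    simp only [add_cell] at this
    exact this
  have g0' : T.cB w T.S.x T.s T.t' * T.cA w T.S.x T.s T.t ≤
      T.cB w T.S.x T.s T.t * T.cA w T.S.x T.s T.t' := by
    have := g0
    unfold CA at this
    have e : ∀ t, (T.sw w T.s).cell (T.sw w T.s).s t = T.cB w T.S.x T.s t :=
      fun t => T.sw_cell_zero w T.s t
    have e' : ∀ t, (T.sw w T.s).cell (T.sw w T.s).s' t = T.cA w T.S.x T.s t :=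
      fun t => T.sw_cell_two w T.s t
    rw [e, e', e, e'] at this
    exact this
  have g1' : T.cB w T.S.x T.s' T.t' * T.cA w T.S.x T.s' T.t ≤
      T.cB w T.S.x T.s' T.t * T.cA w T.S.x T.s' T.t' := by
    have := g1
    unfold CA at this
    have e : ∀ t, (T.sw w T.s').cell (T.sw w T.s').s t = T.cB w T.S.x T.s' t :=
      fun t => T.sw_cell_zero w T.s' t
    have e' : ∀ t, (T.sw w T.s').cell (T.sw w T.s').s' t = T.cA w T.S.x T.s' t :=
      fun t => T.sw_cell_two w T.s' t
    rw [e, e', e, e'] at this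
    exact this
  have hneg' : (T.cB w T.S.x T.s T.t + T.cA w T.S.x T.s T.t) *
      (T.cB w T.S.x T.s' T.t' + T.cA w T.S.x T.s' T.t') <
      (T.cB w T.S.x T.s T.t' + T.cA w T.S.x T.s T.t') *
      (T.cB w T.S.x T.s' T.t + T.cA w T.S.x T.s' T.t) := by
    have := hneg
    unfold CA at this
    rw [not_le, T.cell_split w T.S.x hwx, T.cell_split w T.S.x hwx, T.cell_split w T.S.x hwx,
      T.cell_split w T.S.x hwx] at this
    exact this
  have hnc := T.noCoincidence hT w hwi hwj hw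
  -- to the reals
  have key := Alg.stepC (n000 := (T.cB w T.S.x T.s T.t : ℝ)) (n001 := (T.cA w T.S.x T.s T.t : ℝ))
    (n010 := (T.cB w T.S.x T.s T.t' : ℝ)) (n011 := (T.cA w T.S.x T.s T.t' : ℝ))
    (n100 := (T.cB w T.S.x T.s' T.t : ℝ)) (n101 := (T.cA w T.S.x T.s' T.t : ℝ))
    (n110 := (T.cB w T.S.x T.s' T.t' : ℝ)) (n111 := (T.cA w T.S.x T.s' T.t' : ℝ))
    (by positivity) (by positivity) (by positivity) (by positivity)
    (by positivity) (by positivity) (by positivity) (by positivity)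
    (by exact_mod_cast h0') (by exact_mod_cast h1')
    (by
      have : (T.cA w T.S.x T.s T.t : ℝ) * T.cB w T.S.x T.s T.t' =
        T.cB w T.S.x T.s T.t' * T.cA w T.S.x T.s T.t := by ring
      rw [this]
      exact_mod_cast g0')
    (by
      have : (T.cA w T.S.x T.s' T.t : ℝ) * T.cB w T.S.x T.s' T.t' =
        T.cB w T.S.x T.s' T.t' * T.cA w T.S.x T.s' T.t := by ring
      rw [this]
      exact_mod_cast g1')
    (by exact_mod_cast hneg')
    (by
      intro a b
      have := hnc (by exact_mod_cast a) (by exact_mod_cast b)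
      rcases this with h | h
      · left; exact_mod_cast h
      · right; exact_mod_cast h)
  obtain ⟨k1, k2⟩ := key
  exact ⟨by exact_mod_cast k1, by exact_mod_cast k2⟩

end Tab

end Pool.Agent.CPT
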