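import Mathlib
import Pool.Agent.CPT.Defs

/-!
# Project CPT, module RefDef : a chain of `n` new letters in the first window (definitions)
-/

set_option autoImplicit false

namespace Pool.Agent.CPT

namespace Sys
variable {X : Type}

/-- Add a chain of `n` letters between `x` and `y` (no other relation). -/
def refine (S : Sys X) (n : ℕ) : Sys (X ⊕ Fin n) where
  R := fun p q => match p, q with
    | .inl u, .inl v => S.R u v
    | .inl u, .inr _ => u = S.x
    | .inr _, .inl v => v = S.y ∨ v = S.z
    | .inr m, .inr m' => m < m'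
  px := S.px.map .inl
  pz := S.pz.map .inl
  x := .inl S.x
  y := .inl S.y
  z := .inl S.z
  a := S.a + n
  b := S.b

/-- The thresholds `c_0 = x < c_1 < ... < c_n < c_{n+1} = y`. -/
def thr (S : Sys X) (n : ℕ) (m : ℕ) : X ⊕ Fin n :=
  if m = 0 then .inl S.x else if h : m - 1 < n then .inr ⟨m - 1, h⟩ else .inl S.y

theorem thr_zero (S : Sys X) (n : ℕ) : S.thr n 0 = .inl S.x := by
  simp [thr]

theorem thr_last (S : Sys X) (n : ℕ) : S.thr n (n + 1) = .inl S.y := by
  simp [thr]

end Sys

namespace Tab
variable {X : Type}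

/-- The refined table. -/
def refine (T : Tab X) (n : ℕ) : Tab (X ⊕ Fin n) :=
  ⟨T.S.refine n, .inl T.i, T.s, T.s', .inl T.j, T.t, T.t'⟩

end Tab

end Pool.Agent.CPT
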