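import Mathlib
import Pool.Agent.CPT.Defs
import Pool.Agent.CPT.RefDef

/-!
# Project CPT, module RefA : formal properties of the refined system
-/

set_option autoImplicit false

namespace Pool.Agent.CPT

namespace Sys
variable {X : Type}

private theorem refa_thr_succ (S : Sys X) (n m : ℕ) :
    S.thr n (m + 1) = if h : m < n then .inr ⟨m, h⟩ else .inl S.y := by
  unfold thr
  rw [if_neg (Nat.succ_ne_zero m)]
  rfl

private theorem refa_add (S : Sys X) (n : ℕ) (u v : X) :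
    (S.refine n).add (.inl u) (.inl v) = (S.add u v).refine n := by
  refine Sys.ext ?_ rfl rfl rfl rfl rfl rfl rfl
  funext p q
  rcases p with p | p
  · rcases q with q | q
    · show (S.R p q ∨ ((Sum.inl p : X ⊕ Fin n) = .inl u ∧ (Sum.inl q : X ⊕ Fin n) = .inl v)) =
        (S.R p q ∨ (p = u ∧ q = v))
      rw [Sum.inl.injEq, Sum.inl.injEq]
    · show (p = S.x ∨ ((Sum.inl p : X ⊕ Fin n) = .inl u ∧ (Sum.inr q : X ⊕ Fin n) = .inl v)) = (p = S.x)
      simp
  · rcases q with q | q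
    · show ((q = S.y ∨ q = S.z) ∨ ((Sum.inr p : X ⊕ Fin n) = .inl u ∧ (Sum.inl q : X ⊕ Fin n) = .inl v)) =
        (q = S.y ∨ q = S.z)
      simp
    · show (p < q ∨ ((Sum.inr p : X ⊕ Fin n) = .inl u ∧ (Sum.inr q : X ⊕ Fin n) = .inl v)) = (p < q)
      simp

private theorem refa_left (S : Sys X) (n : ℕ) (i : X) (s : Fin 3) :
    (S.refine n).left (.inl i) s = (S.left i s).refine n := by
  fin_cases s
  · exact refa_add S n i S.x
  · rfl
  · exact refa_add S n S.x i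

private theorem refa_right (S : Sys X) (n : ℕ) (j : X) (s : Fin 3) :
    (S.refine n).right (.inl j) s = (S.right j s).refine n := by
  fin_cases s
  · exact refa_add S n j S.z
  · rfl
  · exact refa_add S n S.z j

/-- Consecutive thresholds are comparable in the refined system. -/
theorem conf_thr [Fintype X] (S : Sys X) (n : ℕ) (ha : 1 ≤ S.a)
    (f : (X ⊕ Fin n) ≃ Fin (Fintype.card (X ⊕ Fin n))) (hf : (S.refine n).Conf f) (m : ℕ)
    (hm : m ≤ n) : f (S.thr n m) < f (S.thr n (m + 1)) := by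
  have ha' : 1 ≤ (S.refine n).a := by
    show 1 ≤ S.a + n
    omega
  rw [refa_thr_succ]
  rcases Nat.eq_zero_or_pos m with rfl | hm0
  · rw [thr_zero]
    split_ifs with h
    · exact hf.1 (.inl S.x) (.inr ⟨0, h⟩) rfl
    · exact hf.xy ha'
  · obtain ⟨k, rfl⟩ : ∃ k, m = k + 1 := ⟨m - 1, by omega⟩
    rw [refa_thr_succ, dif_pos (show k < n by omega)]
    split_ifs with h
    · exact hf.1 (.inr ⟨k, by omega⟩) (.inr ⟨k + 1, h⟩) (by
        show (⟨k, _⟩ : Fin n) < ⟨k + 1, h⟩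
        rw [Fin.lt_def]
        exact Nat.lt_succ_self k)
    · exact hf.1 (.inr ⟨k, by omega⟩) (.inl S.y) (Or.inl rfl)

/-- The thresholds lie between `x` and `y`. -/
theorem conf_thr_x [Fintype X] (S : Sys X) (n : ℕ) (ha : 1 ≤ S.a)
    (f : (X ⊕ Fin n) ≃ Fin (Fintype.card (X ⊕ Fin n))) (hf : (S.refine n).Conf f) (m : ℕ)
    (hm : m ≤ n) : f (.inl S.x) < f (S.thr n (m + 1)) := by
  have ha' : 1 ≤ (S.refine n).a := by
    show 1 ≤ S.a + n
    omega
  rw [refa_thr_succ]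
  split_ifs with h
  · exact hf.1 (.inl S.x) (.inr ⟨m, h⟩) rfl
  · exact hf.xy ha'

/-- The thresholds lie before `z`. -/
theorem conf_thr_z [Fintype X] (S : Sys X) (n : ℕ) (ha : 1 ≤ S.a) (hb : 1 ≤ S.b)
    (f : (X ⊕ Fin n) ≃ Fin (Fintype.card (X ⊕ Fin n))) (hf : (S.refine n).Conf f) (m : ℕ)
    (hm : m ≤ n) : f (S.thr n (m + 1)) < f (.inl S.z) := by
  rw [refa_thr_succ]
  split_ifs with h
  · exact hf.1 (.inr ⟨m, h⟩) (.inl S.z) (Or.inr rfl)
  · exact hf.yz hb

theorem refine_add [Fintype X] (S : Sys X) (n : ℕ) (u v : X) :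
    ((S.refine n).add (.inl u) (.inl v)).N = ((S.add u v).refine n).N := by
  rw [refa_add]

end Sys

namespace Tab
variable {X : Type}

theorem refine_OK (T : Tab X) (h : T.OK) (n : ℕ) : (T.refine n).OK := by
  obtain ⟨h1, h2, h3, h4, h5, h6⟩ := h
  refine ⟨h1, h2, ?_, ?_, ?_, h6⟩
  · rcases h3 with h3 | h3
    · left
      show T.S.px.map _ = none
      rw [h3]
      rfl
    · exact Or.inr h3
  · rcases h4 with h4 | h4
    · left
      show T.S.pz.map _ = none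
      rw [h4]
      rfl
    · exact Or.inr h4
  · show 1 ≤ T.S.a + n
    omega

private theorem refa_UndX (T : Tab X) (n : ℕ) (w : X) :
    (T.refine n).S.UndX (.inl w) ↔ T.S.UndX w := by
  show ((Sum.inl w : X ⊕ Fin n) ≠ .inl T.S.x ∧ (Sum.inl w : X ⊕ Fin n) ≠ .inl T.S.y ∧
    (Sum.inl w : X ⊕ Fin n) ≠ .inl T.S.z ∧ ¬ T.S.R w T.S.x ∧ ¬ T.S.R T.S.x w ∧
    T.S.px.map Sum.inl ≠ some (Sum.inl w : X ⊕ Fin n)) ↔ _
  have h : T.S.px.map Sum.inl = some (Sum.inl w : X ⊕ Fin n) ↔ T.S.px = some w := by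
    cases T.S.px with
    | none => simp
    | some v => simp
  unfold Sys.UndX
  rw [Ne, Ne, Ne, Ne, h, Sum.inl.injEq, Sum.inl.injEq, Sum.inl.injEq]

private theorem refa_UndZ (T : Tab X) (n : ℕ) (w : X) :
    (T.refine n).S.UndZ (.inl w) ↔ T.S.UndZ w := by
  show ((Sum.inl w : X ⊕ Fin n) ≠ .inl T.S.x ∧ (Sum.inl w : X ⊕ Fin n) ≠ .inl T.S.y ∧
    (Sum.inl w : X ⊕ Fin n) ≠ .inl T.S.z ∧ ¬ T.S.R w T.S.z ∧ ¬ T.S.R T.S.z w ∧
    T.S.pz.map Sum.inl ≠ some (Sum.inl w : X ⊕ Fin n)) ↔ _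
  have h : T.S.pz.map Sum.inl = some (Sum.inl w : X ⊕ Fin n) ↔ T.S.pz = some w := by
    cases T.S.pz with
    | none => simp
    | some v => simp
  unfold Sys.UndZ
  rw [Ne, Ne, Ne, Ne, h, Sum.inl.injEq, Sum.inl.injEq, Sum.inl.injEq]

theorem refine_U [Finite X] (T : Tab X) (n : ℕ) : (T.refine n).U = T.U := by
  unfold U
  have e1 : Nat.card {w : X ⊕ Fin n // w ≠ (T.refine n).i ∧ (T.refine n).S.UndX w} =
      Nat.card {w : X // w ≠ T.i ∧ T.S.UndX w} := by
    symm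
    refine Nat.card_eq_of_bijective (fun w => ⟨.inl w.1, fun h => w.2.1 (Sum.inl_injective h),
      (refa_UndX T n w.1).2 w.2.2⟩) ⟨?_, ?_⟩
    · intro a b hab
      exact Subtype.ext (Sum.inl_injective (congrArg Subtype.val hab))
    · rintro ⟨w | w, hw⟩
      · exact ⟨⟨w, fun h => hw.1 (congrArg Sum.inl h), (refa_UndX T n w).1 hw.2⟩, rfl⟩
      · exact absurd rfl hw.2.2.2.2.2.1
  have e2 : Nat.card {w : X ⊕ Fin n // w ≠ (T.refine n).j ∧ (T.refine n).S.UndZ w} =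
      Nat.card {w : X // w ≠ T.j ∧ T.S.UndZ w} := by
    symm
    refine Nat.card_eq_of_bijective (fun w => ⟨.inl w.1, fun h => w.2.1 (Sum.inl_injective h),
      (refa_UndZ T n w.1).2 w.2.2⟩) ⟨?_, ?_⟩
    · intro a b hab
      exact Subtype.ext (Sum.inl_injective (congrArg Subtype.val hab))
    · rintro ⟨w | w, hw⟩
      · exact ⟨⟨w, fun h => hw.1 (congrArg Sum.inl h), (refa_UndZ T n w).1 hw.2⟩, rfl⟩
      · exact absurd (Or.inr rfl) hw.2.2.2.2.1
  rw [e1, e2]

theorem refine_UndX (T : Tab X) (n : ℕ) (w : X) : (T.refine n).S.UndX (.inl w) ↔ T.S.UndX w :=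
  refa_UndX T n w

theorem refine_UndZ (T : Tab X) (n : ℕ) (w : X) : (T.refine n).S.UndZ (.inl w) ↔ T.S.UndZ w :=
  refa_UndZ T n w

/-- The systems of the cells: `left`, `right` commute with `refine`. -/
theorem refine_left_right (T : Tab X) (n : ℕ) (s t : Fin 3) :
    ((T.refine n).S.left (.inl T.i) s).right (.inl T.j) t =
      ((T.S.left T.i s).right T.j t).refine n := by
  show ((T.S.refine n).left (.inl T.i) s).right (.inl T.j) t = _
  rw [Sys.refa_left, Sys.refa_right]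

end Tab

end Pool.Agent.CPT
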