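import Mathlib
import Pool.Agent.CPT.Defs
import Pool.Agent.CPT.Rank
import Pool.Agent.CPT.RefDef

/-!
# Project CPT, module RefN : counting the configurations of the refined system

A configuration `f'` of the refined system is given by the order `f` of the old letters and the number
`L u` of new letters before the old letter `u`; `L = 0` up to `x` and `L = n` from `y`, so `L` is given by
a monotone map `g : Fin (a - 1) → {0, ..., n}`.
-/

set_option autoImplicit false

namespace Pool.Agent.CPT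

/-! ### Monotone maps -/

private abbrev Mo (k n : ℕ) : Type := {g : Fin k → ℕ // Monotone g ∧ ∀ i, g i ≤ n}

private instance Mo_finite (k n : ℕ) : Finite (Mo k n) := by
  refine Finite.of_injective
    (fun g : Mo k n => fun i => (⟨g.1 i, Nat.lt_succ_of_le (g.2.2 i)⟩ : Fin (n + 1))) ?_
  intro g h hgh
  apply Subtype.ext
  funext i
  exact congrArg Fin.val (congrFun hgh i)

private theorem Mo_step (k n : ℕ) : Nat.card (Mo (k + 1) (n + 1)) = Nat.card (Mo k (n + 1)) + Nat.card (Mo (k + 1) n) := by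
  classical
  rw [← Nat.card_sum]
  refine Nat.card_congr ⟨fun g => if h : g.1 (Fin.last k) = n + 1 then
      Sum.inl ⟨fun i => g.1 i.castSucc, fun i j hij => g.2.1 (Fin.castSucc_le_castSucc_iff.2 hij), fun i => g.2.2 _⟩
    else Sum.inr ⟨g.1, g.2.1, fun i => ?_⟩,
    Sum.elim (fun g => ⟨Fin.snoc (α := fun _ => ℕ) g.1 (n + 1), ?_, ?_⟩)
      (fun g => ⟨g.1, g.2.1, fun i => (g.2.2 i).trans (Nat.le_succ n)⟩), ?_, ?_⟩
  · have h1 := g.2.1 (Fin.le_last i)
    have h2 := g.2.2 (Fin.last k)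
    omega
  · intro i j hij
    induction j using Fin.lastCases with
    | last =>
      rw [Fin.snoc_last]
      induction i using Fin.lastCases with
      | last => rw [Fin.snoc_last]
      | cast i => rw [Fin.snoc_castSucc]; exact g.2.2 i
    | cast j =>
      induction i using Fin.lastCases with
      | last =>
        exact absurd hij (not_le.2 (Fin.castSucc_lt_last j))
      | cast i =>
        rw [Fin.snoc_castSucc, Fin.snoc_castSucc]
        exact g.2.1 (Fin.castSucc_le_castSucc_iff.1 hij)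
  · intro i
    induction i using Fin.lastCases with
    | last => rw [Fin.snoc_last]
    | cast i => rw [Fin.snoc_castSucc]; exact g.2.2 i
  · intro g
    by_cases h : g.1 (Fin.last k) = n + 1
    · simp only [h, dif_pos]
      apply Subtype.ext
      funext i
      show Fin.snoc (α := fun _ => ℕ) (fun i : Fin k => g.1 i.castSucc) (n + 1) i = g.1 i
      induction i using Fin.lastCases with
      | last => rw [Fin.snoc_last, h]
      | cast i => rw [Fin.snoc_castSucc]
    · simp only [h, dif_neg, not_false_eq_true]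
      rfl
  · rintro (g | g)
    · have h : Fin.snoc (α := fun _ => ℕ) g.1 (n + 1) (Fin.last k) = n + 1 := Fin.snoc_last _ _
      show (if h : Fin.snoc (α := fun _ => ℕ) g.1 (n + 1) (Fin.last k) = n + 1 then _ else _) = _
      rw [dif_pos h]
      congr 1
      apply Subtype.ext
      funext i
      exact Fin.snoc_castSucc (α := fun _ => ℕ) _ _ _
    · have h : ¬ g.1 (Fin.last k) = n + 1 := by
        have := g.2.2 (Fin.last k)
        omega
      show (if h : g.1 (Fin.last k) = n + 1 then _ else _) = _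
      rw [dif_neg h]
      rfl

private theorem card_Mo (k : ℕ) : ∀ n : ℕ, Nat.card (Mo k n) = (k + n).choose n := by
  induction k with
  | zero =>
    intro n
    rw [Nat.zero_add, Nat.choose_self, Nat.card_eq_one_iff_unique]
    exact ⟨⟨fun g h => Subtype.ext (funext fun i => i.elim0)⟩,
      ⟨⟨fun i => i.elim0, fun i => i.elim0, fun i => i.elim0⟩⟩⟩
  | succ k ih =>
    intro n
    induction n with
    | zero =>
      rw [Nat.choose_zero_right, Nat.card_eq_one_iff_unique]
      refine ⟨⟨fun g h => Subtype.ext (funext fun i => ?_)⟩, ⟨⟨fun i => 0, fun i j _ => le_rfl, fun i => le_rfl⟩⟩⟩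
      have h1 := g.2.2 i
      have h2 := h.2.2 i
      omega
    | succ n ih' =>
      rw [Mo_step, ih, ih', show k + 1 + (n + 1) = (k + 1 + n) + 1 by ring, Nat.choose_succ_succ,
        show k + (n + 1) = k + 1 + n by ring, Nat.succ_eq_add_one]
      exact Nat.add_comm _ _

/-! ### Ranks -/

private theorem rn_ext {A : Type} {k : ℕ} {f g : A ≃ Fin k} (h : ∀ a b, f a < f b ↔ g a < g b) : f = g := by
  let e : Fin k ≃o Fin k :=
    { toEquiv := f.symm.trans g
      map_rel_iff' := by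
        intro i j
        show g (f.symm i) ≤ g (f.symm j) ↔ i ≤ j
        rw [← not_lt, ← not_lt, ← h, Equiv.apply_symm_apply, Equiv.apply_symm_apply] }
  have h1 : e = OrderIso.refl (Fin k) := Subsingleton.elim _ _
  apply Equiv.ext
  intro a
  have h2 : e (f a) = f a := by rw [h1]; rfl
  have h3 : g (f.symm (f a)) = f a := h2
  rw [Equiv.symm_apply_apply] at h3
  exact h3.symm

private theorem card_lt (N k : ℕ) (hk : k ≤ N) : Nat.card {i : Fin N // (i : ℕ) < k} = k := by
  have e : {i : Fin N // (i : ℕ) < k} ≃ Fin k :=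
    ⟨fun i => ⟨i.1, i.2⟩, fun j => ⟨⟨j, lt_of_lt_of_le j.2 hk⟩, j.2⟩, fun _ => rfl, fun _ => rfl⟩
  rw [Nat.card_congr e, Nat.card_fin]

private theorem card_rank {X : Type} [Fintype X] (f : X ≃ Fin (Fintype.card X)) (u : X) :
    Nat.card {v : X // f v < f u} = f u := by
  have e : {v : X // f v < f u} ≃ {i : Fin (Fintype.card X) // (i : ℕ) < (f u : ℕ)} :=
    f.subtypeEquiv (fun v => Fin.lt_def)
  rw [Nat.card_congr e, card_lt _ _ (f u).2.le]

namespace Sys
variable {X : Type}

section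
variable [Fintype X]

/-- `L` is monotone along `f` and at most `n` -/
private def Gd (f : X ≃ Fin (Fintype.card X)) (n : ℕ) (L : X → ℕ) : Prop :=
  (∀ u v, f u ≤ f v → L u ≤ L v) ∧ ∀ u, L u ≤ n

private def Rl (n : ℕ) (f' : X ⊕ Fin n ≃ Fin (Fintype.card (X ⊕ Fin n))) (f : X ≃ Fin (Fintype.card X))
    (L : X → ℕ) : Prop :=
  (∀ u v, f' (.inl u) < f' (.inl v) ↔ f u < f v) ∧
  (∀ (m : Fin n) u, f' (.inr m) < f' (.inl u) ↔ (m : ℕ) < L u) ∧
  (∀ m m' : Fin n, f' (.inr m) < f' (.inr m') ↔ m < m')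

private theorem rl_unique {n : ℕ} {f' f'' : X ⊕ Fin n ≃ Fin (Fintype.card (X ⊕ Fin n))}
    {f : X ≃ Fin (Fintype.card X)} {L : X → ℕ} (h : Rl n f' f L) (h2 : Rl n f'' f L) : f' = f'' := by
  apply rn_ext
  have key : ∀ (g : X ⊕ Fin n ≃ Fin (Fintype.card (X ⊕ Fin n))) (m : Fin n) (u : X),
      g (.inl u) < g (.inr m) ↔ ¬ g (.inr m) < g (.inl u) := by
    intro g m u
    rw [not_lt]
    constructor
    · exact le_of_lt
    · intro h
      refine lt_of_le_of_ne h fun h' => ?_
      have := g.injective h'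
      simp at this
  rintro (u | m) (v | m')
  · rw [h.1, h2.1]
  · rw [key, key, h.2.1, h2.2.1]
  · rw [h.2.1, h2.2.1]
  · rw [h.2.2, h2.2.2]

private theorem rl_exists {n : ℕ} (f : X ≃ Fin (Fintype.card X)) {L : X → ℕ} (hL : Gd f n L) :
    ∃ f', Rl n f' f L ∧ ∀ u, (f' (.inl u) : ℕ) = f u + L u := by
  obtain ⟨N, hN⟩ : ∃ N, N = Fintype.card X := ⟨_, rfl⟩
  have hlt : ∀ u, (f u : ℕ) < N := fun u => by rw [hN]; exact (f u).2
  let key : X ⊕ Fin n → ℕ := Sum.elim (fun u => L u * (N + 1) + f u) (fun m => (m : ℕ) * (N + 1) + N)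
  have kl : ∀ u, key (.inl u) = L u * (N + 1) + f u := fun _ => rfl
  have kr : ∀ m, key (.inr m) = (m : ℕ) * (N + 1) + N := fun _ => rfl
  have k1 : ∀ u v, key (.inl u) < key (.inl v) ↔ f u < f v := by
    have k1' : ∀ u v, f u < f v → key (.inl u) < key (.inl v) := by
      intro u v h
      rw [kl, kl]
      have h1 := hL.1 u v h.le
      have h2 : (f u : ℕ) < f v := h
      have h3 : L u * (N + 1) ≤ L v * (N + 1) := Nat.mul_le_mul_right _ h1
      omega
    intro u v
    refine ⟨fun h => ?_, k1' u v⟩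
    by_contra h'
    rcases lt_or_eq_of_le (not_lt.1 h') with h2 | h2
    · exact lt_asymm h (k1' v u h2)
    · rw [f.injective h2] at h
      exact lt_irrefl _ h
  have k2 : ∀ (m : Fin n) u, key (.inr m) < key (.inl u) ↔ (m : ℕ) < L u := by
    intro m u
    rw [kl, kr]
    have h1 := hlt u
    constructor
    · intro h
      by_contra h'
      have h2 : L u * (N + 1) ≤ (m : ℕ) * (N + 1) := Nat.mul_le_mul_right _ (not_lt.1 h')
      omega
    · intro h
      have h2 : ((m : ℕ) + 1) * (N + 1) ≤ L u * (N + 1) := Nat.mul_le_mul_right _ h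
      have h3 : ((m : ℕ) + 1) * (N + 1) = (m : ℕ) * (N + 1) + N + 1 := by ring
      omega
  have k3 : ∀ m m' : Fin n, key (.inr m) < key (.inr m') ↔ m < m' := by
    intro m m'
    rw [kr, kr, Fin.lt_def]
    constructor
    · intro h
      by_contra h'
      have h2 : (m' : ℕ) * (N + 1) ≤ (m : ℕ) * (N + 1) := Nat.mul_le_mul_right _ (not_lt.1 h')
      omega
    · intro h
      have h2 : ((m : ℕ) + 1) * (N + 1) ≤ (m' : ℕ) * (N + 1) := Nat.mul_le_mul_right _ h
      have h3 : ((m : ℕ) + 1) * (N + 1) = (m : ℕ) * (N + 1) + N + 1 := by ring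
      omega
  have hk : Function.Injective key := by
    have k4 : ∀ (m : Fin n) u, key (.inr m) ≠ key (.inl u) := by
      intro m u h
      by_cases h0 : (m : ℕ) < L u
      · exact absurd h ((k2 m u).2 h0).ne
      · rw [kl, kr] at h
        have h1 := hlt u
        have h2 : L u * (N + 1) ≤ (m : ℕ) * (N + 1) := Nat.mul_le_mul_right _ (not_lt.1 h0)
        omega
    rintro (u | m) (v | m') h
    · congr 1
      by_contra h'
      rcases lt_or_gt_of_ne (fun h2 => h' (f.injective h2)) with h2 | h2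
      · exact absurd h ((k1 u v).2 h2).ne
      · exact absurd h ((k1 v u).2 h2).ne'
    · exact absurd h.symm (k4 m' u)
    · exact absurd h (k4 m v)
    · congr 1
      by_contra h'
      rcases lt_or_gt_of_ne h' with h2 | h2
      · exact absurd h ((k3 m m').2 h2).ne
      · exact absurd h ((k3 m' m).2 h2).ne'
  obtain ⟨f', h1, h2⟩ := exists_rank key hk
  refine ⟨f', ⟨fun u v => (h1 _ _).trans (k1 u v), fun m u => (h1 _ _).trans (k2 m u),
    fun m m' => (h1 _ _).trans (k3 m m')⟩, fun u => ?_⟩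
  rw [h2]
  have e1 : {v : X ⊕ Fin n // key v < key (.inl u)} ≃ {v : X // f v < f u} ⊕ {m : Fin n // (m : ℕ) < L u} :=
    Equiv.subtypeSum.trans (Equiv.sumCongr (Equiv.subtypeEquivRight fun v => k1 v u)
      (Equiv.subtypeEquivRight fun m => k2 m u))
  rw [Nat.card_congr e1, Nat.card_sum, card_rank, card_lt _ _ (hL.2 u)]

private theorem rl_val {n : ℕ} {f' : X ⊕ Fin n ≃ Fin (Fintype.card (X ⊕ Fin n))}
    {f : X ≃ Fin (Fintype.card X)} {L : X → ℕ} (hL : Gd f n L) (h : Rl n f' f L) (u : X) :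
    (f' (.inl u) : ℕ) = f u + L u := by
  obtain ⟨f'', h1, h2⟩ := rl_exists f hL
  rw [rl_unique h h1]
  exact h2 u

private theorem rl_of {n : ℕ} (f' : X ⊕ Fin n ≃ Fin (Fintype.card (X ⊕ Fin n)))
    (hc : ∀ m m' : Fin n, m < m' → f' (.inr m) < f' (.inr m')) :
    ∃ (f : X ≃ Fin (Fintype.card X)) (L : X → ℕ), Gd f n L ∧ Rl n f' f L := by
  classical
  obtain ⟨f, hf, -⟩ := exists_rank (fun u => (f' (.inl u) : ℕ))
    (fun u v h => Sum.inl_injective (f'.injective (Fin.ext h)))
  have hf' : ∀ u v, f' (.inl u) < f' (.inl v) ↔ f u < f v := fun u v => (hf u v).symm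
  refine ⟨f, fun u => (Finset.univ.filter fun m : Fin n => f' (.inr m) < f' (.inl u)).card, ⟨?_, ?_⟩, hf', ?_, ?_⟩
  · intro u v h
    refine Finset.card_le_card fun m hm => ?_
    rw [Finset.mem_filter] at hm ⊢
    refine ⟨Finset.mem_univ _, lt_of_lt_of_le hm.2 (not_lt.1 fun h' => ?_)⟩
    exact absurd h (not_le.2 ((hf' v u).1 h'))
  · intro u
    refine (Finset.card_filter_le _ _).trans ?_
    rw [Finset.card_univ, Fintype.card_fin]
  · intro m u
    constructor
    · intro h
      have h1 : Finset.Iic m ⊆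
          Finset.univ.filter (fun m : Fin n => f' (.inr m) < f' (.inl u)) := by
        intro m' hm'
        rw [Finset.mem_Iic] at hm'
        rw [Finset.mem_filter]
        refine ⟨Finset.mem_univ _, ?_⟩
        rcases lt_or_eq_of_le hm' with h2 | h2
        · exact (hc _ _ h2).trans h
        · rw [h2]; exact h
      have h2 := Finset.card_le_card h1
      rw [Fin.card_Iic] at h2
      exact Nat.lt_of_succ_le h2
    · intro h
      by_contra h'
      have h1 : Finset.univ.filter (fun m : Fin n => f' (.inr m) < f' (.inl u)) ⊆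
          Finset.Iio m := by
        intro m' hm'
        rw [Finset.mem_filter] at hm'
        rw [Finset.mem_Iio]
        by_contra h3
        rcases lt_or_eq_of_le (not_lt.1 h3) with h2 | h2
        · exact h' ((hc _ _ h2).trans hm'.2)
        · rw [← h2] at hm'; exact h' hm'.2
      have h2 := Finset.card_le_card h1
      rw [Fin.card_Iio] at h2
      exact absurd h (not_lt.2 h2)
  · intro m m'
    refine ⟨fun h => ?_, hc m m'⟩
    by_contra h'
    rcases lt_or_eq_of_le (not_lt.1 h') with h2 | h2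
    · exact lt_asymm h (hc _ _ h2)
    · rw [h2] at h; exact lt_irrefl _ h

/-- `L` from the values in the window -/
private def lv (S : Sys X) (n : ℕ) (f : X ≃ Fin (Fintype.card X)) (g : Fin (S.a - 1) → ℕ) (u : X) : ℕ :=
  if (f u : ℕ) ≤ f S.x then 0 else if h : (f u : ℕ) - f S.x - 1 < S.a - 1 then g ⟨f u - f S.x - 1, h⟩ else n

private theorem lv_gd (S : Sys X) (n : ℕ) (f : X ≃ Fin (Fintype.card X)) (g : Mo (S.a - 1) n) :
    Gd f n (lv S n f g.1) := by
  have h2 : ∀ u, lv S n f g.1 u ≤ n := by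
    intro u
    unfold lv
    split_ifs
    · exact Nat.zero_le _
    · exact g.2.2 _
    · exact le_rfl
  refine ⟨fun u v h => ?_, h2⟩
  have h' : (f u : ℕ) ≤ f v := h
  by_cases hu : (f u : ℕ) ≤ f S.x
  · unfold lv
    rw [if_pos hu]
    exact Nat.zero_le _
  · by_cases hv : (f v : ℕ) - f S.x - 1 < S.a - 1
    · have hu' : (f u : ℕ) - f S.x - 1 < S.a - 1 := by omega
      have hv' : ¬ (f v : ℕ) ≤ f S.x := by omega
      unfold lv
      rw [if_neg hu, if_neg hv', dif_pos hu', dif_pos hv]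
      refine g.2.1 ?_
      rw [Fin.le_def]
      show (f u : ℕ) - f S.x - 1 ≤ f v - f S.x - 1
      omega
    · have hv' : ¬ (f v : ℕ) ≤ f S.x := by omega
      have h3 : lv S n f g.1 v = n := by
        unfold lv
        rw [if_neg hv', dif_neg hv]
      rw [h3]
      exact h2 u

private theorem lv_x (S : Sys X) (n : ℕ) (f : X ≃ Fin (Fintype.card X)) (g : Fin (S.a - 1) → ℕ) :
    lv S n f g S.x = 0 := if_pos le_rfl

private theorem lv_y (S : Sys X) (n : ℕ) (ha : 1 ≤ S.a) (f : X ≃ Fin (Fintype.card X))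
    (g : Fin (S.a - 1) → ℕ) (h : (f S.y : ℕ) = f S.x + S.a) : lv S n f g S.y = n := by
  unfold lv
  rw [if_neg (by omega), dif_neg (by omega)]

/-- the letter at position `k` in the window -/
private theorem win (S : Sys X) {f : X ≃ Fin (Fintype.card X)} (h : S.Conf f)
    (k : Fin (S.a - 1)) : ∃ u, (f u : ℕ) = f S.x + 1 + k := by
  have h1 := h.2.1
  have h2 := (f S.y).2
  have h3 := k.2
  refine ⟨f.symm ⟨f S.x + 1 + k, by omega⟩, ?_⟩
  rw [Equiv.apply_symm_apply]

private theorem lv_win (S : Sys X) (n : ℕ) {f : X ≃ Fin (Fintype.card X)} (g : Fin (S.a - 1) → ℕ)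
    (k : Fin (S.a - 1)) {u : X} (hu : (f u : ℕ) = f S.x + 1 + k) : lv S n f g u = g k := by
  have h3 := k.2
  unfold lv
  rw [if_neg (by omega), dif_pos (by omega)]
  congr 1
  apply Fin.ext
  show (f u : ℕ) - f S.x - 1 = k
  omega

private theorem lv_inj (S : Sys X) (n : ℕ) {f : X ≃ Fin (Fintype.card X)} (h : S.Conf f)
    {g g' : Fin (S.a - 1) → ℕ} (hg : lv S n f g = lv S n f g') : g = g' := by
  funext k
  obtain ⟨u, hu⟩ := win S h k
  rw [← lv_win S n g k hu, ← lv_win S n g' k hu, hg]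

private theorem lv_surj (S : Sys X) (n : ℕ) {f : X ≃ Fin (Fintype.card X)} (h : S.Conf f) {L : X → ℕ}
    (hL : Gd f n L) (hx : L S.x = 0) (hy : L S.y = n) : ∃ g : Mo (S.a - 1) n, L = lv S n f g.1 := by
  choose u hu using win S h
  refine ⟨⟨fun k => L (u k), fun i j hij => hL.1 _ _ ?_, fun i => hL.2 _⟩, ?_⟩
  · rw [Fin.le_def, hu, hu]
    have : (i : ℕ) ≤ j := hij
    omega
  · funext v
    by_cases h1 : (f v : ℕ) ≤ f S.x
    · unfold lv
      rw [if_pos h1]
      have := hL.1 v S.x h1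
      omega
    · by_cases h2 : (f v : ℕ) - f S.x - 1 < S.a - 1
      · rw [lv_win S n _ ⟨_, h2⟩ (u := v) (by show _ = (f S.x : ℕ) + 1 + (f v - f S.x - 1); omega)]
        congr 1
        apply f.injective
        apply Fin.ext
        rw [hu]
        show _ = (f S.x : ℕ) + 1 + (f v - f S.x - 1)
        omega
      · unfold lv
        rw [if_neg h1, dif_neg h2]
        have h3 : f S.y ≤ f v := by
          rw [Fin.le_def]
          have := h.2.1
          omega
        have := hL.1 _ _ h3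
        have := hL.2 v
        omega

private theorem conf_iff (S : Sys X) (n : ℕ)
    {f' : X ⊕ Fin n ≃ Fin (Fintype.card (X ⊕ Fin n))} {f : X ≃ Fin (Fintype.card X)} {L : X → ℕ}
    (hL : Gd f n L) (h : Rl n f' f L) :
    (S.refine n).Conf f' ↔ S.Conf f ∧ L S.x = 0 ∧ L S.y = n := by
  have hv := rl_val hL h
  have hz' : ∀ v, (∀ m : Fin n, f' (.inr m) < f' (.inl v)) → L v = n := by
    intro v hm
    refine le_antisymm (hL.2 v) ?_
    by_contra h1
    have h2 := (h.2.1 ⟨L v, not_le.1 h1⟩ v).1 (hm _)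
    exact lt_irrefl _ h2
  constructor
  · rintro ⟨hR, hy, hz, hp, hq⟩
    have hR1 : ∀ u v, S.R u v → f' (.inl u) < f' (.inl v) := fun u v => hR (.inl u) (.inl v)
    have hR2 : ∀ m : Fin n, f' (.inl S.x) < f' (.inr m) := fun m => hR (.inl S.x) (.inr m) rfl
    have hR3 : ∀ m : Fin n, f' (.inr m) < f' (.inl S.y) := fun m => hR (.inr m) (.inl S.y) (Or.inl rfl)
    have hR4 : ∀ m : Fin n, f' (.inr m) < f' (.inl S.z) := fun m => hR (.inr m) (.inl S.z) (Or.inr rfl)
    have hx0 : L S.x = 0 := by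
      by_contra h1
      have h2 := hL.2 S.x
      have h3 : 0 < n := by omega
      exact lt_asymm (hR2 ⟨0, h3⟩) ((h.2.1 ⟨0, h3⟩ S.x).2 (Nat.pos_of_ne_zero h1))
    have hyn : L S.y = n := hz' _ hR3
    have hzn : L S.z = n := hz' _ hR4
    have hy' : (f' (.inl S.y) : ℕ) = f' (.inl S.x) + (S.a + n) := hy
    have hz'' : (f' (.inl S.z) : ℕ) = f' (.inl S.y) + S.b := hz
    rw [hv, hv, hx0, hyn] at hy'
    rw [hv, hv, hzn, hyn] at hz''
    refine ⟨⟨fun u v huv => (h.1 u v).1 (hR1 u v huv), by omega, by omega, ?_, ?_⟩, hx0, hyn⟩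
    · intro p hpp
      have h1 : (f' (.inl p) : ℕ) + 1 = f' (.inl S.x) := by
        refine hp (.inl p) ?_
        show S.px.map Sum.inl = _
        rw [hpp]
        rfl
      have h2 : f p < f S.x := by
        rw [← h.1, Fin.lt_def]
        omega
      have h3 := hL.1 _ _ h2.le
      rw [hv, hv] at h1
      omega
    · intro q hqq
      have h1 : (f' (.inl q) : ℕ) = f' (.inl S.z) + 1 := by
        refine hq (.inl q) ?_
        show S.pz.map Sum.inl = _
        rw [hqq]
        rfl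
      have h2 : f S.z < f q := by
        rw [← h.1, Fin.lt_def]
        omega
      have h3 := hL.1 _ _ h2.le
      have h4 := hL.2 q
      rw [hv, hv] at h1
      omega
  · rintro ⟨⟨hR, hy, hz, hp, hq⟩, hx0, hyn⟩
    have hzn : L S.z = n := by
      have h1 : f S.y ≤ f S.z := by
        rw [Fin.le_def]
        omega
      have := hL.1 _ _ h1
      have := hL.2 S.z
      omega
    refine ⟨?_, ?_, ?_, ?_, ?_⟩
    · rintro (u | m) (v | m') huv
      · exact (h.1 u v).2 (hR u v huv)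
      · have h1 : u = S.x := huv
        subst h1
        by_contra h2
        rcases lt_or_eq_of_le (not_lt.1 h2) with h3 | h3
        · have := (h.2.1 _ _).1 h3
          omega
        · have := f'.injective h3
          simp at this
      · rw [h.2.1]
        have h1 : v = S.y ∨ v = S.z := huv
        rcases h1 with rfl | rfl
        · rw [hyn]
          exact m.2
        · rw [hzn]
          exact m.2
      · exact (h.2.2 m m').2 huv
    · show (f' (.inl S.y) : ℕ) = f' (.inl S.x) + (S.a + n)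
      rw [hv, hv, hx0, hyn]
      omega
    · show (f' (.inl S.z) : ℕ) = f' (.inl S.y) + S.b
      rw [hv, hv, hyn, hzn]
      omega
    · intro p' hp'
      have hp'' : S.px.map Sum.inl = some p' := hp'
      rw [Option.map_eq_some_iff] at hp''
      obtain ⟨p, h1, rfl⟩ := hp''
      show (f' (.inl p) : ℕ) + 1 = f' (.inl S.x)
      have h2 := hp p h1
      have h3 : f p ≤ f S.x := by
        rw [Fin.le_def]
        omega
      have h4 := hL.1 _ _ h3
      rw [hv, hv]
      omega
    · intro q' hq'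
      have hq'' : S.pz.map Sum.inl = some q' := hq'
      rw [Option.map_eq_some_iff] at hq''
      obtain ⟨q, h1, rfl⟩ := hq''
      show (f' (.inl q) : ℕ) = f' (.inl S.z) + 1
      have h2 := hq q h1
      have h3 : f S.z ≤ f q := by
        rw [Fin.le_def]
        omega
      have h4 := hL.1 _ _ h3
      have h5 := hL.2 q
      rw [hv, hv]
      omega

private theorem gd_unique {n : ℕ} {f' : X ⊕ Fin n ≃ Fin (Fintype.card (X ⊕ Fin n))}
    {f f2 : X ≃ Fin (Fintype.card X)} {L L2 : X → ℕ} (hL : Gd f n L) (hL2 : Gd f2 n L2)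
    (h : Rl n f' f L) (h2 : Rl n f' f2 L2) : f = f2 ∧ L = L2 := by
  refine ⟨rn_ext fun u v => by rw [← h.1, ← h2.1], ?_⟩
  funext u
  have key : ∀ m : Fin n, (m : ℕ) < L u ↔ (m : ℕ) < L2 u := fun m => by rw [← h.2.1, ← h2.2.1]
  have h3 := hL.2 u
  have h4 := hL2.2 u
  rcases lt_trichotomy (L u) (L2 u) with h5 | h5 | h5
  · exact absurd ((key ⟨L u, by omega⟩).2 h5) (lt_irrefl _)
  · exact h5
  · exact absurd ((key ⟨L2 u, by omega⟩).1 h5) (lt_irrefl _)

/-- the pair of a configuration -/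
private theorem pair (S : Sys X) (n : ℕ) {f' : X ⊕ Fin n ≃ Fin (Fintype.card (X ⊕ Fin n))}
    (h : (S.refine n).Conf f') :
    ∃ p : {f : X ≃ Fin (Fintype.card X) // S.Conf f} × Mo (S.a - 1) n, Rl n f' p.1.1 (lv S n p.1.1 p.2.1) := by
  obtain ⟨f, L, hL, hR⟩ := rl_of f' (fun m m' hm => h.1 (.inr m) (.inr m') hm)
  obtain ⟨h1, h2, h3⟩ := (conf_iff S n hL hR).1 h
  obtain ⟨g, hg⟩ := lv_surj S n h1 hL h2 h3
  refine ⟨(⟨f, h1⟩, g), ?_⟩
  rw [hg] at hR
  exact hR

/-- forgetting the value at `p` -/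
private def fgt (k n p : ℕ) (g : Mo k n) : Mo (k - 1) n :=
  ⟨fun i => g.1 ⟨if (i : ℕ) < p then i else i + 1, by have := i.2; split_ifs <;> omega⟩, by
    intro i j hij
    refine g.2.1 ?_
    rw [Fin.le_def]
    have h : (i : ℕ) ≤ j := hij
    show (if (i : ℕ) < p then (i : ℕ) else i + 1) ≤ (if (j : ℕ) < p then (j : ℕ) else j + 1)
    split_ifs <;> omega, fun i => g.2.2 _⟩

private theorem fgt_val (k n p : ℕ) (g : Mo k n) (i : Fin (k - 1)) (j : Fin k)
    (h : (j : ℕ) = if (i : ℕ) < p then (i : ℕ) else i + 1) : (fgt k n p g).1 i = g.1 j :=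
  congrArg g.1 (Fin.ext h.symm)

private theorem fgt_inj {k n p : ℕ} (hp : p < k) {g g' : Mo k n} (h : fgt k n p g = fgt k n p g')
    (h2 : g.1 ⟨p, hp⟩ = g'.1 ⟨p, hp⟩) : g = g' := by
  apply Subtype.ext
  funext j
  have hj := j.2
  rcases lt_trichotomy (j : ℕ) p with h3 | h3 | h3
  · have h4 : (j : ℕ) = if (j : ℕ) < p then (j : ℕ) else j + 1 := (if_pos h3).symm
    rw [← fgt_val k n p g ⟨j, by omega⟩ j h4, ← fgt_val k n p g' ⟨j, by omega⟩ j h4, h]
  · have h4 : j = ⟨p, hp⟩ := Fin.ext h3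
    rw [h4]
    exact h2
  · have h4 : (j : ℕ) = if (j : ℕ) - 1 < p then (j : ℕ) - 1 else j - 1 + 1 := by
      rw [if_neg (by omega)]
      omega
    rw [← fgt_val k n p g ⟨j - 1, by omega⟩ j h4, ← fgt_val k n p g' ⟨j - 1, by omega⟩ j h4, h]

omit [Fintype X] in
private theorem thr_succ' (S : Sys X) (n k : ℕ) (hk : k < n) : S.thr n (k + 1) = .inr ⟨k, hk⟩ := by
  unfold thr
  rw [if_neg (Nat.succ_ne_zero k), dif_pos (by simpa using hk)]
  rfl

private theorem gap_facts (S : Sys X) (n : ℕ) (w : X) (m : ℕ) (hm : m ≤ n)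
    {f' : X ⊕ Fin n ≃ Fin (Fintype.card (X ⊕ Fin n))}
    (h1 : f' (S.thr n m) < f' (.inl w)) (h2 : f' (.inl w) < f' (S.thr n (m + 1)))
    {f : X ≃ Fin (Fintype.card X)} {L : X → ℕ} (hL : Gd f n L) (hR : Rl n f' f L)
    (hx : L S.x = 0) (hy : L S.y = n) : L w = m ∧ f S.x < f w ∧ f w < f S.y := by
  have a1 : m ≤ L w ∧ f S.x < f w := by
    rcases m with _ | k
    · rw [thr_zero] at h1
      exact ⟨Nat.zero_le _, (hR.1 _ _).1 h1⟩
    · rw [thr_succ' S n k hm] at h1
      have h3 := (hR.2.1 _ _).1 h1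
      have h4 : k < L w := h3
      refine ⟨h4, ?_⟩
      by_contra h5
      have := hL.1 _ _ (not_lt.1 h5)
      omega
  have a2 : L w ≤ m ∧ f w < f S.y := by
    rcases lt_or_eq_of_le hm with h3 | h3
    · rw [thr_succ' S n m h3] at h2
      have h4 : ¬ (m < L w) := by
        intro h5
        exact lt_asymm h2 ((hR.2.1 ⟨m, h3⟩ w).2 h5)
      refine ⟨not_lt.1 h4, ?_⟩
      by_contra h5
      have := hL.1 _ _ (not_lt.1 h5)
      omega
    · subst h3
      rw [thr_last] at h2
      exact ⟨hL.2 w, (hR.1 _ _).1 h2⟩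
  exact ⟨le_antisymm a2.1 a1.1, a1.2, a2.2⟩

private theorem gap_le (S : Sys X) (n : ℕ) (ha : 1 ≤ S.a) (w : X) (m : ℕ) (hm : m ≤ n) :
    (((S.refine n).add (S.thr n m) (.inl w)).add (.inl w) (S.thr n (m + 1))).N ≤
      Nat.card ({f : X ≃ Fin (Fintype.card X) // S.Conf f} × Mo (S.a - 1 - 1) n) := by
  have h0 : ∀ f' : {f' : X ⊕ Fin n ≃ Fin (Fintype.card (X ⊕ Fin n)) //
      (((S.refine n).add (S.thr n m) (.inl w)).add (.inl w) (S.thr n (m + 1))).Conf f'},
      (S.refine n).Conf f'.1 ∧ f'.1 (S.thr n m) < f'.1 (.inl w) ∧ f'.1 (.inl w) < f'.1 (S.thr n (m + 1)) := by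
    intro f'
    obtain ⟨h1, h2⟩ := (conf_add _ _ _ _).1 f'.2
    obtain ⟨h3, h4⟩ := (conf_add _ _ _ _).1 h1
    exact ⟨h3, h4, h2⟩
  choose F hF using fun f' : {f' : X ⊕ Fin n ≃ Fin (Fintype.card (X ⊕ Fin n)) //
      (((S.refine n).add (S.thr n m) (.inl w)).add (.inl w) (S.thr n (m + 1))).Conf f'} =>
    pair S n (h0 f').1
  have hG := fun f' => gap_facts S n w m hm (h0 f').2.1 (h0 f').2.2 (lv_gd S n (F f').1.1 (F f').2) (hF f')
    (lv_x S n _ _) (lv_y S n ha _ _ (F f').1.2.2.1)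
  have hW : ∀ f', ∃ h : ((F f').1.1 w : ℕ) - (F f').1.1 S.x - 1 < S.a - 1,
      (F f').2.1 ⟨((F f').1.1 w : ℕ) - (F f').1.1 S.x - 1, h⟩ = m := by
    intro f'
    obtain ⟨h1, h2, h3⟩ := hG f'
    rw [Fin.lt_def] at h2 h3
    have h4 := (F f').1.2.2.1
    have h5 : ((F f').1.1 w : ℕ) - (F f').1.1 S.x - 1 < S.a - 1 := by omega
    refine ⟨h5, ?_⟩
    rw [lv_win S n _ ⟨_, h5⟩ (by show _ = ((F f').1.1 S.x : ℕ) + 1 + (((F f').1.1 w : ℕ) - (F f').1.1 S.x - 1); omega)] at h1
    exact h1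
  refine Nat.card_le_card_of_injective
    (fun f' => ((F f').1, fgt _ n (((F f').1.1 w : ℕ) - (F f').1.1 S.x - 1) (F f').2)) fun f' f'' h => ?_
  dsimp only at h
  rw [Prod.mk.injEq] at h
  have h1 : (F f').1 = (F f'').1 := h.1
  have h2 : fgt _ n (((F f').1.1 w : ℕ) - (F f').1.1 S.x - 1) (F f').2 =
    fgt _ n (((F f'').1.1 w : ℕ) - (F f'').1.1 S.x - 1) (F f'').2 := h.2
  obtain ⟨h3, h4⟩ := hW f'
  obtain ⟨h5, h6⟩ := hW f''
  rw [← h1] at h2
  have h7 : (F f').2.1 ⟨((F f').1.1 w : ℕ) - (F f').1.1 S.x - 1, h3⟩ =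
      (F f'').2.1 ⟨((F f').1.1 w : ℕ) - (F f').1.1 S.x - 1, h3⟩ := by
    rw [h4, ← h6]
    refine congrArg (F f'').2.1 (Fin.ext ?_)
    show ((F f'').1.1 w : ℕ) - (F f'').1.1 S.x - 1 = ((F f').1.1 w : ℕ) - (F f').1.1 S.x - 1
    rw [h1]
  have h8 := fgt_inj h3 h2 h7
  apply Subtype.ext
  have h9 := hF f'
  rw [h8, h1] at h9
  exact rl_unique h9 (hF f'')

end

/-- The number of configurations of the refined system. -/
theorem refine_N [Fintype X] (S : Sys X) (n : ℕ) (ha : 1 ≤ S.a) :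
    (S.refine n).N = (S.a - 1 + n).choose n * S.N := by
  have h0 : (S.refine n).N = Nat.card ({f : X ≃ Fin (Fintype.card X) // S.Conf f} × Mo (S.a - 1) n) := by
    refine le_antisymm ?_ ?_
    · choose F hF using fun f' : {f' : X ⊕ Fin n ≃ Fin (Fintype.card (X ⊕ Fin n)) // (S.refine n).Conf f'} =>
        pair S n f'.2
      refine Nat.card_le_card_of_injective F fun f' f'' h => ?_
      apply Subtype.ext
      have h1 := hF f'
      have h2 := hF f''
      rw [h] at h1
      exact rl_unique h1 h2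
    · have key : ∀ p : {f : X ≃ Fin (Fintype.card X) // S.Conf f} × Mo (S.a - 1) n,
          ∃ f' : {f' : X ⊕ Fin n ≃ Fin (Fintype.card (X ⊕ Fin n)) // (S.refine n).Conf f'},
            Rl n f'.1 p.1.1 (lv S n p.1.1 p.2.1) := by
        rintro ⟨⟨f, hf⟩, g⟩
        obtain ⟨f', h1, -⟩ := rl_exists f (lv_gd S n f g)
        exact ⟨⟨f', (conf_iff S n (lv_gd S n f g) h1).2 ⟨hf, lv_x S n f _, lv_y S n ha f _ hf.2.1⟩⟩, h1⟩
      choose F hF using key
      refine Nat.card_le_card_of_injective F fun p p' h => ?_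
      have h1 := hF p
      have h2 := hF p'
      rw [h] at h1
      obtain ⟨h3, h4⟩ := gd_unique (lv_gd S n _ _) (lv_gd S n _ _) h1 h2
      obtain ⟨⟨f, hf⟩, g⟩ := p
      obtain ⟨⟨f2, hf2⟩, g2⟩ := p'
      have h5 : f = f2 := h3
      subst h5
      have h6 : g = g2 := Subtype.ext (lv_inj S n hf h4)
      rw [h6]
  rw [h0, Nat.card_prod, card_Mo, Nat.mul_comm]
  rfl


/-- The letter `w` is seldom between two consecutive thresholds. -/
theorem refine_gap [Fintype X] (S : Sys X) (n : ℕ) (ha : 1 ≤ S.a) (w : X) (m : ℕ) (hm : m ≤ n) :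
    (((S.refine n).add (S.thr n m) (.inl w)).add (.inl w) (S.thr n (m + 1))).N * (S.a - 1 + n) ≤
      (S.a - 1) * (S.refine n).N := by
  by_cases h1 : S.a = 1
  · have h2 : (((S.refine n).add (S.thr n m) (.inl w)).add (.inl w) (S.thr n (m + 1))).N = 0 := by
      by_contra h3
      obtain ⟨f', h4⟩ := (N_pos_iff _).1 (Nat.pos_of_ne_zero h3)
      obtain ⟨h5, h6⟩ := (conf_add _ _ _ _).1 h4
      obtain ⟨h7, h8⟩ := (conf_add _ _ _ _).1 h5
      obtain ⟨p, hp⟩ := pair S n h7
      obtain ⟨h9, h10, h11⟩ := gap_facts S n w m hm h8 h6 (lv_gd S n p.1.1 p.2) hp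
        (lv_x S n _ _) (lv_y S n ha _ _ p.1.2.2.1)
      have h12 := p.1.2.2.1
      rw [Fin.lt_def] at h10 h11
      omega
    rw [h2, Nat.zero_mul]
    exact Nat.zero_le _
  · obtain ⟨c, hc⟩ : ∃ c, S.a = c + 2 := ⟨S.a - 2, by omega⟩
    have h2 := gap_le S n ha w m hm
    rw [Nat.card_prod, card_Mo] at h2
    rw [refine_N S n ha]
    have h3 : Nat.card {f : X ≃ Fin (Fintype.card X) // S.Conf f} = S.N := rfl
    rw [h3, show S.a - 1 - 1 = c by omega] at h2
    rw [show S.a - 1 = c + 1 by omega]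
    have h4 : (c + n + 1) * (c + n).choose n = (c + 1 + n).choose n * (c + 1) := by
      have h5 := Nat.add_one_mul_choose_eq (c + n) c
      rw [Nat.choose_symm_add] at h5
      have h6 : (c + n + 1).choose (c + 1) = (c + 1 + n).choose n := by
        rw [show c + n + 1 = c + 1 + n by ring]
        exact Nat.choose_symm_add
      rw [h6] at h5
      exact h5
    calc _ ≤ (S.N * (c + n).choose n) * (c + 1 + n) := Nat.mul_le_mul_right _ h2
      _ = S.N * ((c + n + 1) * (c + n).choose n) := by ring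
      _ = (c + 1) * ((c + 1 + n).choose n * S.N) := by rw [h4]; ring

end Sys
end Pool.Agent.CPT
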