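import Mathlib
import Pool.Agent.CPT.Alg
import Pool.Agent.CPT.Und
import Pool.Agent.CPT.RefN
import Pool.Agent.CPT.RefA

/-!
# Project CPT, module Win : the window lemma
-/

set_option autoImplicit false

namespace Pool.Agent.CPT

namespace Sys
variable {X : Type} [Fintype X]

/-- The order of two additions is irrelevant. -/
theorem N_add_comm (S : Sys X) (u v u' v' : X) :
    ((S.add u v).add u' v').N = ((S.add u' v').add u v).N :=
  N_congr _ _ (fun f => by simp only [conf_add]; tauto)

/-- Adding a relation implied by another one. -/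
theorem N_add_add_of_imp (S : Sys X) (u v u' v' : X)
    (h : ∀ f, S.Conf f → f u < f v → f u' < f v') :
    ((S.add u v).add u' v').N = (S.add u v).N :=
  N_congr _ _ (fun f => by
    simp only [conf_add]
    exact ⟨fun k => k.1, fun k => ⟨k, h f k.1 k.2⟩⟩)

/-- Splitting at three ordered letters. -/
theorem N_split_between (S : Sys X) (w c c' : X) (hwc : w ≠ c) (hwc' : w ≠ c')
    (h : ∀ f, S.Conf f → f c < f c') :
    (S.add w c').N = (S.add w c).N + ((S.add c w).add w c').N ∧
      (S.add c w).N = (S.add c' w).N + ((S.add c w).add w c').N := by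
  constructor
  · rw [N_split (S.add w c') w c hwc]
    congr 1
    · rw [N_add_comm]
      exact N_add_add_of_imp S w c w c' (fun f hf h1 => h1.trans (h f hf))
    · rw [N_add_comm]
  · rw [N_split (S.add c w) w c' hwc', add_comm]
    congr 1
    rw [N_add_comm]
    exact N_add_add_of_imp S c' w c w (fun f hf h1 => (h f hf).trans h1)

end Sys

namespace Tab
variable {X : Type} [Fintype X]

theorem refine_cB (T : Tab X) (n : ℕ) (u v : X) (ha : 1 ≤ T.S.a) (s t : Fin 3) :
    (T.refine n).cB (.inl u) (.inl v) s t = (T.S.a - 1 + n).choose n * T.cB u v s t := by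
  unfold cB
  have e := T.refine_left_right n s t
  have e' : ((T.refine n).S.left (T.refine n).i s).right (T.refine n).j t =
      ((T.S.left T.i s).right T.j t).refine n := e
  rw [e', Sys.refine_add, Sys.refine_N]
  · have : (((T.S.left T.i s).right T.j t).add u v).a = T.S.a := by
      rw [Sys.add_a]
      fin_cases s <;> fin_cases t <;> rfl
    rw [this]
  · have : (((T.S.left T.i s).right T.j t).add u v).a = T.S.a := by
      rw [Sys.add_a]
      fin_cases s <;> fin_cases t <;> rfl
    rw [this]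
    exact ha

theorem refine_cell (T : Tab X) (n : ℕ) (ha : 1 ≤ T.S.a) (s t : Fin 3) :
    (T.refine n).cell s t = (T.S.a - 1 + n).choose n * T.cell s t := by
  unfold cell
  have e := T.refine_left_right n s t
  have e' : ((T.refine n).S.left (T.refine n).i s).right (T.refine n).j t =
      ((T.S.left T.i s).right T.j t).refine n := e
  rw [e', Sys.refine_N]
  · have : ((T.S.left T.i s).right T.j t).a = T.S.a := by
      fin_cases s <;> fin_cases t <;> rfl
    rw [this]
  · have : ((T.S.left T.i s).right T.j t).a = T.S.a := by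
      fin_cases s <;> fin_cases t <;> rfl
    rw [this]
    exact ha

/- The marks, gaps of the cell systems. -/
omit [Fintype X] in
theorem cs_x (T : Tab X) (s t : Fin 3) : ((T.S.left T.i s).right T.j t).x = T.S.x := by
  fin_cases s <;> fin_cases t <;> rfl
omit [Fintype X] in
theorem cs_y (T : Tab X) (s t : Fin 3) : ((T.S.left T.i s).right T.j t).y = T.S.y := by
  fin_cases s <;> fin_cases t <;> rfl
omit [Fintype X] in
theorem cs_z (T : Tab X) (s t : Fin 3) : ((T.S.left T.i s).right T.j t).z = T.S.z := by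
  fin_cases s <;> fin_cases t <;> rfl
omit [Fintype X] in
theorem cs_a (T : Tab X) (s t : Fin 3) : ((T.S.left T.i s).right T.j t).a = T.S.a := by
  fin_cases s <;> fin_cases t <;> rfl
omit [Fintype X] in
theorem cs_b (T : Tab X) (s t : Fin 3) : ((T.S.left T.i s).right T.j t).b = T.S.b := by
  fin_cases s <;> fin_cases t <;> rfl

/-- If `u < v` implies `u' < v'` in the cell system, then the table with both relations has the
cell `cB u v`. -/
theorem add_add_cell (T : Tab X) (u v u' v' : X) (s t : Fin 3)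
    (h : ∀ f, ((T.S.left T.i s).right T.j t).Conf f → f u < f v → f u' < f v') :
    ((T.add u' v').add u v).cell s t = T.cB u v s t := by
  rw [add_cell]
  unfold cB
  have e : ∀ f, ((((T.add u' v').S.left (T.add u' v').i s).right (T.add u' v').j t).Conf f) ↔
      ((((T.S.left T.i s).right T.j t).add u' v').Conf f) := by
    intro f
    have hc : ((((T.add u' v').S.left (T.add u' v').i s).right (T.add u' v').j t)).R =
        fun p q => (((T.S.left T.i s).right T.j t)).R p q ∨ (p = u' ∧ q = v') := by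
      funext p q
      apply propext
      have hl : ∀ s, ((T.add u' v').S.left (T.add u' v').i s).R p q ↔
          ((T.S.left T.i s).R p q ∨ (p = u' ∧ q = v')) := by
        intro s
        match s with
        | 0 => exact or_right_comm
        | 1 => exact Iff.rfl
        | 2 => exact or_right_comm
      have hz : ((T.add u' v').S.left (T.add u' v').i s).z = (T.S.left T.i s).z := by
        match s with
        | 0 => rfl
        | 1 => rfl
        | 2 => rfl
      match t with
      | 0 =>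
        show (((T.add u' v').S.left (T.add u' v').i s).R p q ∨
          (p = T.j ∧ q = ((T.add u' v').S.left (T.add u' v').i s).z)) ↔
          (((T.S.left T.i s).R p q ∨ (p = T.j ∧ q = (T.S.left T.i s).z)) ∨ (p = u' ∧ q = v'))
        rw [hl s, hz]
        exact or_right_comm
      | 1 => exact hl s
      | 2 =>
        show (((T.add u' v').S.left (T.add u' v').i s).R p q ∨
          (p = ((T.add u' v').S.left (T.add u' v').i s).z ∧ q = T.j)) ↔
          (((T.S.left T.i s).R p q ∨ (p = (T.S.left T.i s).z ∧ q = T.j)) ∨ (p = u' ∧ q = v'))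
        rw [hl s, hz]
        exact or_right_comm
    have hx : ((((T.add u' v').S.left (T.add u' v').i s).right (T.add u' v').j t)) =
        (((T.S.left T.i s).right T.j t).add u' v') := by
      apply Sys.ext
      · exact hc
      all_goals (fin_cases s <;> fin_cases t <;> rfl)
    rw [hx]
  refine Sys.N_congr _ _ (fun f => ?_)
  rw [Sys.conf_add, e, Sys.conf_add, Sys.conf_add]
  constructor
  · rintro ⟨⟨h1, h2⟩, h3⟩
    exact ⟨h1, h3⟩
  · rintro ⟨h1, h2⟩
    exact ⟨⟨h1, h f h1 h2⟩, h2⟩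

/-- The window lemma: in a failing table with the induction hypothesis, the covariance of the left
event with `w < c` cannot be `≤ 0` at `c = x` and `> 0` at `c = y`. -/
theorem window (T : Tab X) (hT : T.OK) (w : X) (hwi : w ≠ T.i) (hwj : w ≠ T.j)
    (hwx : T.S.UndX w) (hwz : T.S.UndZ w)
    (IH : ∀ (Y : Type) [Fintype Y] (T' : Tab Y), T'.OK → T'.U < T.U → T'.CA) (hneg : ¬ T.CA)
    (hx : (T.cB w T.S.x T.s T.t + T.cB w T.S.x T.s T.t') *
        (T.cA w T.S.x T.s' T.t + T.cA w T.S.x T.s' T.t') ≤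
      (T.cA w T.S.x T.s T.t + T.cA w T.S.x T.s T.t') *
        (T.cB w T.S.x T.s' T.t + T.cB w T.S.x T.s' T.t'))
    (hy : (T.cA w T.S.y T.s T.t + T.cA w T.S.y T.s T.t') *
        (T.cB w T.S.y T.s' T.t + T.cB w T.S.y T.s' T.t') <
      (T.cB w T.S.y T.s T.t + T.cB w T.S.y T.s T.t') *
        (T.cA w T.S.y T.s' T.t + T.cA w T.S.y T.s' T.t')) : False := by
  have ha : 1 ≤ T.S.a := hT.2.2.2.2.1
  have hb : 1 ≤ T.S.b := hT.2.2.2.2.2
  -- the defect
  have hD : T.cell T.s T.t * T.cell T.s' T.t' + 1 ≤ T.cell T.s T.t' * T.cell T.s' T.t := by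
    have := hneg
    unfold CA at this
    omega
  obtain ⟨Tot, hTot⟩ : ∃ k, k = T.cell T.s T.t + T.cell T.s T.t' + T.cell T.s' T.t +
    T.cell T.s' T.t' := ⟨_, rfl⟩
  obtain ⟨n, hn⟩ : ∃ n, n = (T.S.a - 1) * Tot ^ 2 + 1 := ⟨_, rfl⟩
  obtain ⟨K, hK⟩ : ∃ K, K = (T.S.a - 1 + n).choose n := ⟨_, rfl⟩
  have hKpos : 0 < K := by rw [hK]; exact Nat.choose_pos (by omega)
  let T' := T.refine n
  -- the predicate
  let P : ℕ → Prop := fun m =>
    (T'.cB (.inl w) (T.S.thr n m) T.s T.t + T'.cB (.inl w) (T.S.thr n m) T.s T.t') *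
        (T'.cA (.inl w) (T.S.thr n m) T.s' T.t + T'.cA (.inl w) (T.S.thr n m) T.s' T.t') ≤
      (T'.cA (.inl w) (T.S.thr n m) T.s T.t + T'.cA (.inl w) (T.S.thr n m) T.s T.t') *
        (T'.cB (.inl w) (T.S.thr n m) T.s' T.t + T'.cB (.inl w) (T.S.thr n m) T.s' T.t')
  have hP0 : P 0 := by
    show _ ≤ _
    simp only [Sys.thr_zero, cA_eq]
    simp only [T', T.refine_cB n _ _ ha, ← hK]
    simp only [cA_eq] at hx
    calc _ = K ^ 2 * ((T.cB w T.S.x T.s T.t + T.cB w T.S.x T.s T.t') *
        (T.cB T.S.x w T.s' T.t + T.cB T.S.x w T.s' T.t')) := by ring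
      _ ≤ K ^ 2 * ((T.cB T.S.x w T.s T.t + T.cB T.S.x w T.s T.t') *
        (T.cB w T.S.x T.s' T.t + T.cB w T.S.x T.s' T.t')) := Nat.mul_le_mul_left _ hx
      _ = _ := by ring
  have hPn : ¬ P (n + 1) := by
    show ¬ (_ ≤ _)
    rw [not_le]
    simp only [Sys.thr_last, cA_eq]
    simp only [T', T.refine_cB n _ _ ha, ← hK]
    simp only [cA_eq] at hy
    calc _ = K ^ 2 * ((T.cB T.S.y w T.s T.t + T.cB T.S.y w T.s T.t') *
        (T.cB w T.S.y T.s' T.t + T.cB w T.S.y T.s' T.t')) := by ring
      _ < K ^ 2 * ((T.cB w T.S.y T.s T.t + T.cB w T.S.y T.s T.t') *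
        (T.cB T.S.y w T.s' T.t + T.cB T.S.y w T.s' T.t')) :=
          Nat.mul_lt_mul_of_pos_left hy (by positivity)
      _ = _ := by ring
  obtain ⟨m, hm, hPm, hPm1⟩ : ∃ m, m ≤ n ∧ P m ∧ ¬ P (m + 1) := by
    by_contra hcon
    push Not at hcon
    have : ∀ m, m ≤ n + 1 → P m := by
      intro m
      induction m with
      | zero => intro _; exact hP0
      | succ k ih => intro hk; exact hcon k (by omega) (ih (by omega))
    exact hPn (this (n + 1) le_rfl)
  -- notation for the cell systems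
  have hsys : ∀ s t, ((T'.S.left T'.i s).right T'.j t) =
      ((T.S.left T.i s).right T.j t).refine n := fun s t => T.refine_left_right n s t
  have hthr : ∀ s t m, ((T.S.left T.i s).right T.j t).thr n m = T.S.thr n m := by
    intro s t m
    unfold Sys.thr
    rw [cs_x, cs_y]
  have hc : ∀ s t, 1 ≤ ((T.S.left T.i s).right T.j t).a := fun s t => by rw [cs_a]; exact ha
  have hcb : ∀ s t, 1 ≤ ((T.S.left T.i s).right T.j t).b := fun s t => by rw [cs_b]; exact hb
  obtain ⟨c, hcdef⟩ : ∃ c, c = T.S.thr n (m + 1) := ⟨_, rfl⟩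
  obtain ⟨c0, hc0def⟩ : ∃ c, c = T.S.thr n m := ⟨_, rfl⟩
  have hwc : ∀ k, (Sum.inl w : X ⊕ Fin n) ≠ T.S.thr n k := by
    intro k
    unfold Sys.thr
    split_ifs
    · exact fun h => hwx.1 (Sum.inl.inj h)
    · exact fun h => by cases h
    · exact fun h => hwx.2.1 (Sum.inl.inj h)
  -- the order of the thresholds in the cell systems
  have o1 : ∀ s t f, ((T'.S.left T'.i s).right T'.j t).Conf f → f c0 < f c := by
    intro s t f hf
    rw [hsys] at hf
    have := Sys.conf_thr _ n (hc s t) f hf m hm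
    rw [hthr, hthr] at this
    rw [hcdef, hc0def]; exact this
  have o2 : ∀ s t f, ((T'.S.left T'.i s).right T'.j t).Conf f → f (.inl T.S.x) < f c := by
    intro s t f hf
    rw [hsys] at hf
    have := Sys.conf_thr_x _ n (hc s t) f hf m hm
    rw [hthr, cs_x] at this
    rw [hcdef]; exact this
  have o3 : ∀ s t f, ((T'.S.left T'.i s).right T'.j t).Conf f → f c < f (.inl T.S.z) := by
    intro s t f hf
    rw [hsys] at hf
    have := Sys.conf_thr_z _ n (hc s t) (hcb s t) f hf m hm
    rw [hthr, cs_z] at this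
    rw [hcdef]; exact this
  -- the masses between the thresholds
  obtain ⟨G, hG⟩ : ∃ G : Fin 3 → Fin 3 → ℕ, G = fun s t =>
      ((((T'.S.left T'.i s).right T'.j t).add c0 (.inl w)).add (.inl w) c).N := ⟨_, rfl⟩
  have split1 : ∀ s t, T'.cB (.inl w) c s t = T'.cB (.inl w) c0 s t + G s t := by
    intro s t
    rw [hG]
    exact (Sys.N_split_between _ (.inl w) c0 c (by rw [hc0def]; exact hwc m)
      (by rw [hcdef]; exact hwc (m + 1)) (o1 s t)).1
  have split2 : ∀ s t, T'.cA (.inl w) c0 s t = T'.cA (.inl w) c s t + G s t := by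
    intro s t
    rw [hG]
    exact (Sys.N_split_between _ (.inl w) c0 c (by rw [hc0def]; exact hwc m)
      (by rw [hcdef]; exact hwc (m + 1)) (o1 s t)).2
  have gap : ∀ s t, G s t * (T.S.a - 1 + n) ≤ (T.S.a - 1) * T'.cell s t := by
    intro s t
    have := Sys.refine_gap ((T.S.left T.i s).right T.j t) n (hc s t) w m hm
    rw [hthr, hthr, cs_a, ← hcdef, ← hc0def, ← hsys] at this
    rw [hG]
    exact this
  -- the two halves
  have IH0 : ((T'.add (.inl w) (.inl T.S.z)).add (.inl w) c).CA := by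
    apply IH
    · exact add_OK _ (add_OK _ (refine_OK T hT n) _ _) _ _
    · calc _ ≤ (T'.add (.inl w) (.inl T.S.z)).U := add_U_le _ _ _
        _ < T'.U := (T'.add_U_lt_z (.inl w) (fun h => hwj (Sum.inl.inj h))
            ((T.refine_UndZ n w).2 hwz)).1
        _ = T.U := T.refine_U n
  have IH1 : ((T'.add (.inl T.S.x) (.inl w)).add c (.inl w)).CA := by
    apply IH
    · exact add_OK _ (add_OK _ (refine_OK T hT n) _ _) _ _
    · calc _ ≤ (T'.add (.inl T.S.x) (.inl w)).U := add_U_le _ _ _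
        _ < T'.U := (T'.add_U_lt_x (.inl w) (fun h => hwi (Sum.inl.inj h))
            ((T.refine_UndX n w).2 hwx)).2
        _ = T.U := T.refine_U n
  have e0 : ∀ s t, ((T'.add (.inl w) (.inl T.S.z)).add (.inl w) c).cell s t =
      T'.cB (.inl w) c s t := fun s t =>
    T'.add_add_cell _ _ _ _ s t (fun f hf h => h.trans (o3 s t f hf))
  have e1 : ∀ s t, ((T'.add (.inl T.S.x) (.inl w)).add c (.inl w)).cell s t =
      T'.cA (.inl w) c s t := fun s t =>
    T'.add_add_cell _ _ _ _ s t (fun f hf h => (o2 s t f hf).trans h)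
  have h0 : T'.cB (.inl w) c T.s T.t' * T'.cB (.inl w) c T.s' T.t ≤
      T'.cB (.inl w) c T.s T.t * T'.cB (.inl w) c T.s' T.t' := by
    have := IH0
    unfold CA at this
    simp only [e0] at this
    exact this
  have h1 : T'.cA (.inl w) c T.s T.t' * T'.cA (.inl w) c T.s' T.t ≤
      T'.cA (.inl w) c T.s T.t * T'.cA (.inl w) c T.s' T.t' := by
    have := IH1
    unfold CA at this
    simp only [e1] at this
    exact this
  -- numbers
  have hcell : ∀ s t, T'.cell s t = T'.cB (.inl w) c s t + T'.cA (.inl w) c s t := fun s t =>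
    T'.cell_split _ _ (by rw [hcdef]; exact hwc (m + 1)) s t
  have hcellK : ∀ s t, T'.cell s t = K * T.cell s t := fun s t => by
    rw [hK]; exact T.refine_cell n ha s t
  have hPm' := hPm
  have hPm1' := hPm1
  simp only [P, ← hc0def] at hPm'
  simp only [P, ← hcdef, not_le] at hPm1'
  have key := Alg.window (n000 := (T'.cB (.inl w) c T.s T.t : ℝ))
    (n001 := (T'.cA (.inl w) c T.s T.t : ℝ))
    (n010 := (T'.cB (.inl w) c T.s T.t' : ℝ)) (n011 := (T'.cA (.inl w) c T.s T.t' : ℝ))
    (n100 := (T'.cB (.inl w) c T.s' T.t : ℝ)) (n101 := (T'.cA (.inl w) c T.s' T.t : ℝ))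
    (n110 := (T'.cB (.inl w) c T.s' T.t' : ℝ)) (n111 := (T'.cA (.inl w) c T.s' T.t' : ℝ))
    (g0 := (G T.s T.t : ℝ) + G T.s T.t') (g1 := (G T.s' T.t : ℝ) + G T.s' T.t')
    (by positivity) (by positivity) (by positivity) (by positivity)
    (by positivity) (by positivity) (by positivity) (by positivity)
    (by positivity) (by positivity)
    (by exact_mod_cast h0) (by exact_mod_cast h1)
    (by
      have e : ∀ s t, (T'.cB (.inl w) c s t : ℝ) = (T'.cB (.inl w) c0 s t : ℝ) + G s t := by
        intro s t; exact_mod_cast split1 s t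
      have e' : ∀ s t, (T'.cA (.inl w) c s t : ℝ) + G s t = (T'.cA (.inl w) c0 s t : ℝ) := by
        intro s t; exact_mod_cast (split2 s t).symm
      have h : ((T'.cB (.inl w) c0 T.s T.t : ℝ) + T'.cB (.inl w) c0 T.s T.t') *
          ((T'.cA (.inl w) c0 T.s' T.t : ℝ) + T'.cA (.inl w) c0 T.s' T.t') ≤
          ((T'.cA (.inl w) c0 T.s T.t : ℝ) + T'.cA (.inl w) c0 T.s T.t') *
          ((T'.cB (.inl w) c0 T.s' T.t : ℝ) + T'.cB (.inl w) c0 T.s' T.t') := by
        exact_mod_cast hPm'
      rw [← e', ← e', ← e', ← e'] at h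
      rw [e, e, e, e]
      calc _ = ((T'.cB (.inl w) c0 T.s T.t : ℝ) + T'.cB (.inl w) c0 T.s T.t') *
          ((T'.cA (.inl w) c T.s' T.t : ℝ) + G T.s' T.t + (T'.cA (.inl w) c T.s' T.t' +
            G T.s' T.t')) := by ring
        _ ≤ _ := h
        _ = _ := by ring)
    (by exact_mod_cast hPm1')
  -- the final contradiction
  have keyN : T'.cell T.s T.t' * T'.cell T.s' T.t ≤ T'.cell T.s T.t * T'.cell T.s' T.t' +
      (T'.cell T.s T.t + T'.cell T.s T.t' + T'.cell T.s' T.t + T'.cell T.s' T.t') *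
      (G T.s T.t + G T.s T.t' + G T.s' T.t + G T.s' T.t') := by
    have : (T'.cell T.s T.t' * T'.cell T.s' T.t : ℝ) ≤ T'.cell T.s T.t * T'.cell T.s' T.t' +
      (T'.cell T.s T.t + T'.cell T.s T.t' + T'.cell T.s' T.t + T'.cell T.s' T.t') *
      (G T.s T.t + G T.s T.t' + G T.s' T.t + G T.s' T.t') := by
      rw [hcell T.s T.t, hcell T.s T.t', hcell T.s' T.t, hcell T.s' T.t']
      push_cast
      linarith [key]
    exact_mod_cast this
  have hgapsum : (G T.s T.t + G T.s T.t' + G T.s' T.t + G T.s' T.t') * (T.S.a - 1 + n) ≤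
      (T.S.a - 1) * (K * Tot) := by
    have g1 := gap T.s T.t
    have g2 := gap T.s T.t'
    have g3 := gap T.s' T.t
    have g4 := gap T.s' T.t'
    rw [hcellK] at g1 g2 g3 g4
    rw [hTot]
    calc _ = G T.s T.t * (T.S.a - 1 + n) + G T.s T.t' * (T.S.a - 1 + n) +
          G T.s' T.t * (T.S.a - 1 + n) + G T.s' T.t' * (T.S.a - 1 + n) := by ring
      _ ≤ (T.S.a - 1) * (K * T.cell T.s T.t) + (T.S.a - 1) * (K * T.cell T.s T.t') +
          (T.S.a - 1) * (K * T.cell T.s' T.t) + (T.S.a - 1) * (K * T.cell T.s' T.t') := by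
          exact Nat.add_le_add (Nat.add_le_add (Nat.add_le_add g1 g2) g3) g4
      _ = _ := by ring
  obtain ⟨Gs, hGs⟩ : ∃ k, k = G T.s T.t + G T.s T.t' + G T.s' T.t + G T.s' T.t' := ⟨_, rfl⟩
  rw [← hGs] at hgapsum keyN
  rw [hcellK, hcellK, hcellK, hcellK] at keyN
  have k1 : K ^ 2 * 1 ≤ K * Tot * Gs := by
    have : K ^ 2 * (T.cell T.s T.t * T.cell T.s' T.t' + 1) ≤
        K ^ 2 * (T.cell T.s T.t' * T.cell T.s' T.t) := Nat.mul_le_mul_left _ hD
    have e : K * T.cell T.s T.t + K * T.cell T.s T.t' + K * T.cell T.s' T.t +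
      K * T.cell T.s' T.t' = K * Tot := by rw [hTot]; ring
    rw [e] at keyN
    have e1 : K * T.cell T.s T.t' * (K * T.cell T.s' T.t) =
      K ^ 2 * (T.cell T.s T.t' * T.cell T.s' T.t) := by ring
    have e2 : K * T.cell T.s T.t * (K * T.cell T.s' T.t') =
      K ^ 2 * (T.cell T.s T.t * T.cell T.s' T.t') := by ring
    rw [e1, e2] at keyN
    have e3 : K ^ 2 * (T.cell T.s T.t * T.cell T.s' T.t' + 1) =
      K ^ 2 * (T.cell T.s T.t * T.cell T.s' T.t') + K ^ 2 * 1 := by ring
    rw [e3] at this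
    exact Nat.le_of_add_le_add_left (this.trans keyN)
  have k2 : K * K * (T.S.a - 1 + n) ≤ K * K * ((T.S.a - 1) * Tot ^ 2) := by
    calc K * K * (T.S.a - 1 + n) = (K ^ 2 * 1) * (T.S.a - 1 + n) := by ring
      _ ≤ (K * Tot * Gs) * (T.S.a - 1 + n) := Nat.mul_le_mul_right _ k1
      _ = K * Tot * (Gs * (T.S.a - 1 + n)) := by ring
      _ ≤ K * Tot * ((T.S.a - 1) * (K * Tot)) := Nat.mul_le_mul_left _ hgapsum
      _ = K * K * ((T.S.a - 1) * Tot ^ 2) := by ring
  have k3 : T.S.a - 1 + n ≤ (T.S.a - 1) * Tot ^ 2 :=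
    Nat.le_of_mul_le_mul_left k2 (Nat.mul_pos hKpos hKpos)
  omega

end Tab

end Pool.Agent.CPT
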