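import Mathlib
import Pool.Agent.CPT.Dual
import Pool.Agent.CPT.StepC
import Pool.Agent.CPT.Win

/-!
# Project CPT, module Main : all tables from the separated ones
-/

set_option autoImplicit false

namespace Pool.Agent.CPT

namespace Tab
variable {X : Type} [Fintype X]

theorem dual_cB (T : Tab X) (w c : X) (s t : Fin 3) :
    T.dual.cB w c s t = T.cA w c t.rev s.rev := T.dual_cell_add s t w c

theorem dual_cA (T : Tab X) (w c : X) (s t : Fin 3) :
    T.dual.cA w c s t = T.cB w c t.rev s.rev := T.dual_cell_add s t c w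

/-- `cB w x ≤ cB w y`. -/
theorem cB_x_le_y (T : Tab X) (hT : T.OK) (w : X) (s t : Fin 3) :
    T.cB w T.S.x s t ≤ T.cB w T.S.y s t := by
  refine Sys.N_mono _ _ (fun f hf => ?_)
  rw [Sys.conf_add] at hf ⊢
  refine ⟨hf.1, hf.2.trans ?_⟩
  have := hf.1.xy (by rw [cs_a]; exact hT.2.2.2.2.1)
  rwa [cs_x, cs_y] at this

/-- `cA w z ≤ cA w y`. -/
theorem cA_z_le_y (T : Tab X) (hT : T.OK) (w : X) (s t : Fin 3) :
    T.cA w T.S.z s t ≤ T.cA w T.S.y s t := by
  refine Sys.N_mono _ _ (fun f hf => ?_)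
  rw [Sys.conf_add] at hf ⊢
  refine ⟨hf.1, lt_trans ?_ hf.2⟩
  have := hf.1.yz (by rw [cs_b]; exact hT.2.2.2.2.2)
  rwa [cs_y, cs_z] at this

/-- One step of the induction: a non-separated table with the induction hypothesis satisfies `CA`. -/
theorem step (T : Tab X) (hT : T.OK) (w : X) (hwi : w ≠ T.i) (hwj : w ≠ T.j)
    (hwx : T.S.UndX w) (hwz : T.S.UndZ w)
    (IH : ∀ (Y : Type) [Fintype Y] (T' : Tab Y), T'.OK → T'.U < T.U → T'.CA) : T.CA := by
  by_contra hneg
  -- Step C at `x`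
  have C1 := T.stepC hT w hwi hwj hwx (fun T' h1 h2 => IH X T' h1 h2) hneg
  -- Step C at `z`
  have hTd : T.dual.OK := dual_OK T hT
  have hnegd : ¬ T.dual.CA := fun h => hneg ((T.dual_CA).1 h)
  have C2 := T.dual.stepC hTd w hwj hwi ⟨hwz.2.2.1, hwz.2.1, hwz.1, hwz.2.2.2.2.1, hwz.2.2.2.1,
    hwz.2.2.2.2.2⟩ (fun T' h1 h2 => IH X T' h1 (by rw [dual_U] at h2; exact h2)) hnegd
  have C2' : (T.cA w T.S.z T.s T.t' + T.cA w T.S.z T.s' T.t') *
        (T.cB w T.S.z T.s T.t + T.cB w T.S.z T.s' T.t) <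
      (T.cB w T.S.z T.s T.t' + T.cB w T.S.z T.s' T.t') *
        (T.cA w T.S.z T.s T.t + T.cA w T.S.z T.s' T.t) ∧
    (T.cA w T.S.z T.s T.t + T.cA w T.S.z T.s T.t') *
        (T.cB w T.S.z T.s' T.t + T.cB w T.S.z T.s' T.t') <
      (T.cA w T.S.z T.s' T.t + T.cA w T.S.z T.s' T.t') *
        (T.cB w T.S.z T.s T.t + T.cB w T.S.z T.s T.t') := by
    have h := C2
    simp only [dual_cB, dual_cA] at h
    have r : ∀ k : Fin 3, k.rev.rev = k := Fin.rev_rev
    have e1 : T.dual.s.rev = T.t' := r _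
    have e2 : T.dual.s'.rev = T.t := r _
    have e3 : T.dual.t.rev = T.s' := r _
    have e4 : T.dual.t'.rev = T.s := r _
    have e5 : T.dual.S.x = T.S.z := rfl
    rw [e1, e2, e3, e4, e5] at h
    refine ⟨?_, ?_⟩
    · have := h.1
      calc _ = (T.cA w T.S.z T.s' T.t' + T.cA w T.S.z T.s T.t') *
          (T.cB w T.S.z T.s' T.t + T.cB w T.S.z T.s T.t) := by ring
        _ < _ := this
        _ = _ := by ring
    · have := h.2
      calc _ = (T.cA w T.S.z T.s T.t' + T.cA w T.S.z T.s T.t) *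
          (T.cB w T.S.z T.s' T.t' + T.cB w T.S.z T.s' T.t) := by ring
        _ < _ := this
        _ = _ := by ring
  by_cases hy : (T.cA w T.S.y T.s T.t + T.cA w T.S.y T.s T.t') *
        (T.cB w T.S.y T.s' T.t + T.cB w T.S.y T.s' T.t') <
      (T.cB w T.S.y T.s T.t + T.cB w T.S.y T.s T.t') *
        (T.cA w T.S.y T.s' T.t + T.cA w T.S.y T.s' T.t')
  · exact T.window hT w hwi hwj hwx hwz IH hneg C1.1.le hy
  · rw [not_lt] at hy
    -- the split at `y`
    have IH0 : ((T.add w T.S.z).add w T.S.y).CA := by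
      apply IH
      · exact add_OK _ (add_OK _ hT _ _) _ _
      · exact lt_of_le_of_lt (add_U_le _ _ _) (T.add_U_lt_z w hwj hwz).1
    have IH1 : ((T.add T.S.x w).add T.S.y w).CA := by
      apply IH
      · exact add_OK _ (add_OK _ hT _ _) _ _
      · exact lt_of_le_of_lt (add_U_le _ _ _) (T.add_U_lt_x w hwi hwx).2
    have e0 : ∀ s t, ((T.add w T.S.z).add w T.S.y).cell s t = T.cB w T.S.y s t := fun s t =>
      T.add_add_cell _ _ _ _ s t (fun f hf h => h.trans (by
        have := hf.yz (by rw [cs_b]; exact hT.2.2.2.2.2)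
        rwa [cs_y, cs_z] at this))
    have e1 : ∀ s t, ((T.add T.S.x w).add T.S.y w).cell s t = T.cA w T.S.y s t := fun s t =>
      T.add_add_cell _ _ _ _ s t (fun f hf h => lt_trans (by
        have := hf.xy (by rw [cs_a]; exact hT.2.2.2.2.1)
        rwa [cs_x, cs_y] at this) h)
    have h0 : T.cB w T.S.y T.s T.t' * T.cB w T.S.y T.s' T.t ≤
        T.cB w T.S.y T.s T.t * T.cB w T.S.y T.s' T.t' := by
      have := IH0
      unfold CA at this
      simp only [e0] at this
      exact this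
    have h1 : T.cA w T.S.y T.s T.t' * T.cA w T.S.y T.s' T.t ≤
        T.cA w T.S.y T.s T.t * T.cA w T.S.y T.s' T.t' := by
      have := IH1
      unfold CA at this
      simp only [e1] at this
      exact this
    have hcell : ∀ s t, T.cell s t = T.cB w T.S.y s t + T.cA w T.S.y s t := fun s t =>
      T.cell_split w T.S.y hwx.2.1 s t
    have hneg' : (T.cB w T.S.y T.s T.t + T.cA w T.S.y T.s T.t) *
        (T.cB w T.S.y T.s' T.t' + T.cA w T.S.y T.s' T.t') <
        (T.cB w T.S.y T.s T.t' + T.cA w T.S.y T.s T.t') *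
        (T.cB w T.S.y T.s' T.t + T.cA w T.S.y T.s' T.t) := by
      have := hneg
      unfold CA at this
      rw [not_le, hcell, hcell, hcell, hcell] at this
      exact this
    have key := Alg.split (n000 := (T.cB w T.S.y T.s T.t : ℝ))
      (n001 := (T.cA w T.S.y T.s T.t : ℝ))
      (n010 := (T.cB w T.S.y T.s T.t' : ℝ)) (n011 := (T.cA w T.S.y T.s T.t' : ℝ))
      (n100 := (T.cB w T.S.y T.s' T.t : ℝ)) (n101 := (T.cA w T.S.y T.s' T.t : ℝ))
      (n110 := (T.cB w T.S.y T.s' T.t' : ℝ)) (n111 := (T.cA w T.S.y T.s' T.t' : ℝ))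
      (by positivity) (by positivity) (by positivity) (by positivity)
      (by positivity) (by positivity) (by positivity) (by positivity)
      (by exact_mod_cast h0) (by exact_mod_cast h1)
    -- the totals are positive
    have hT0 : 0 < T.cB w T.S.y T.s T.t + T.cB w T.S.y T.s T.t' + T.cB w T.S.y T.s' T.t +
        T.cB w T.S.y T.s' T.t' := by
      have h : 0 < T.cB w T.S.x T.s T.t + T.cB w T.S.x T.s' T.t := by
        by_contra h
        have h' : T.cB w T.S.x T.s T.t + T.cB w T.S.x T.s' T.t = 0 := by omega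
        have := C1.2
        rw [h'] at this
        simp at this
      have a1 := T.cB_x_le_y hT w T.s T.t
      have a2 := T.cB_x_le_y hT w T.s' T.t
      omega
    have hT1 : 0 < T.cA w T.S.y T.s T.t + T.cA w T.S.y T.s T.t' + T.cA w T.S.y T.s' T.t +
        T.cA w T.S.y T.s' T.t' := by
      have h : 0 < T.cA w T.S.z T.s' T.t + T.cA w T.S.z T.s' T.t' := by
        by_contra h
        have h' : T.cA w T.S.z T.s' T.t + T.cA w T.S.z T.s' T.t' = 0 := by omega
        have := C2'.2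
        rw [h'] at this
        simp at this
      have a1 := T.cA_z_le_y hT w T.s' T.t
      have a2 := T.cA_z_le_y hT w T.s' T.t'
      omega
    have hB : (T.cB w T.S.y T.s T.t' + T.cB w T.S.y T.s' T.t') *
        (T.cA w T.S.y T.s T.t + T.cA w T.S.y T.s' T.t) <
        (T.cB w T.S.y T.s T.t + T.cB w T.S.y T.s' T.t) *
        (T.cA w T.S.y T.s T.t' + T.cA w T.S.y T.s' T.t') := by
      have hT0' : (0 : ℝ) < T.cB w T.S.y T.s T.t + T.cB w T.S.y T.s T.t' +
        T.cB w T.S.y T.s' T.t + T.cB w T.S.y T.s' T.t' := by exact_mod_cast hT0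
      have hT1' : (0 : ℝ) < T.cA w T.S.y T.s T.t + T.cA w T.S.y T.s T.t' +
        T.cA w T.S.y T.s' T.t + T.cA w T.S.y T.s' T.t' := by exact_mod_cast hT1
      have hneg'' : ((T.cB w T.S.y T.s T.t : ℝ) + T.cA w T.S.y T.s T.t) *
        (T.cB w T.S.y T.s' T.t' + T.cA w T.S.y T.s' T.t') -
        (T.cB w T.S.y T.s T.t' + T.cA w T.S.y T.s T.t') *
        (T.cB w T.S.y T.s' T.t + T.cA w T.S.y T.s' T.t) < 0 := by
        have : ((T.cB w T.S.y T.s T.t : ℝ) + T.cA w T.S.y T.s T.t) *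
        (T.cB w T.S.y T.s' T.t' + T.cA w T.S.y T.s' T.t') <
        (T.cB w T.S.y T.s T.t' + T.cA w T.S.y T.s T.t') *
        (T.cB w T.S.y T.s' T.t + T.cA w T.S.y T.s' T.t) := by exact_mod_cast hneg'
        linarith
      have hy' : ((T.cB w T.S.y T.s T.t : ℝ) + T.cB w T.S.y T.s T.t') *
        (T.cA w T.S.y T.s' T.t + T.cA w T.S.y T.s' T.t') ≤
        (T.cA w T.S.y T.s T.t + T.cA w T.S.y T.s T.t') *
        (T.cB w T.S.y T.s' T.t + T.cB w T.S.y T.s' T.t') := by exact_mod_cast hy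
      have hprod : ((T.cB w T.S.y T.s T.t : ℝ) + T.cA w T.S.y T.s T.t) *
          (T.cB w T.S.y T.s' T.t' + T.cA w T.S.y T.s' T.t') -
          (T.cB w T.S.y T.s T.t' + T.cA w T.S.y T.s T.t') *
          (T.cB w T.S.y T.s' T.t + T.cA w T.S.y T.s' T.t) < 0 := hneg''
      have hneg3 := mul_neg_of_neg_of_pos hprod (mul_pos hT0' hT1')
      have hlt := lt_of_le_of_lt key hneg3
      by_contra hcon
      rw [not_lt] at hcon
      have hcon' : ((T.cB w T.S.y T.s T.t : ℝ) + T.cB w T.S.y T.s' T.t) *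
        (T.cA w T.S.y T.s T.t' + T.cA w T.S.y T.s' T.t') ≤
        (T.cB w T.S.y T.s T.t' + T.cB w T.S.y T.s' T.t') *
        (T.cA w T.S.y T.s T.t + T.cA w T.S.y T.s' T.t) := by exact_mod_cast hcon
      have := mul_nonneg_of_nonpos_of_nonpos (sub_nonpos.2 hy') (sub_nonpos.2 hcon')
      linarith
    -- the window lemma for the dual
    refine T.dual.window hTd w hwj hwi ⟨hwz.2.2.1, hwz.2.1, hwz.1, hwz.2.2.2.2.1, hwz.2.2.2.1,
      hwz.2.2.2.2.2⟩ ⟨hwx.2.2.1, hwx.2.1, hwx.1, hwx.2.2.2.2.1, hwx.2.2.2.1,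
      hwx.2.2.2.2.2⟩ (fun Y _ T' h1 h2 => IH Y T' h1 (by rw [dual_U] at h2; exact h2)) hnegd
      C2.1.le ?_
    simp only [dual_cB, dual_cA]
    have r : ∀ k : Fin 3, k.rev.rev = k := Fin.rev_rev
    have e1 : T.dual.s.rev = T.t' := r _
    have e2 : T.dual.s'.rev = T.t := r _
    have e3 : T.dual.t.rev = T.s' := r _
    have e4 : T.dual.t'.rev = T.s := r _
    have e5 : T.dual.S.y = T.S.y := rfl
    rw [e1, e2, e3, e4, e5]
    calc _ = (T.cB w T.S.y T.s T.t' + T.cB w T.S.y T.s' T.t') *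
        (T.cA w T.S.y T.s T.t + T.cA w T.S.y T.s' T.t) := by ring
      _ < (T.cB w T.S.y T.s T.t + T.cB w T.S.y T.s' T.t) *
        (T.cA w T.S.y T.s T.t' + T.cA w T.S.y T.s' T.t') := hB
      _ = _ := by ring

end Tab

/-- The reduction: the correlation inequality for all tables follows from the separated tables. -/
theorem allCA_of_sepCA (h : SepCA) : AllCA := by
  have main : ∀ k : ℕ, ∀ (X : Type) [Fintype X] (T : Tab X), T.OK → T.U = k → T.CA := by
    intro k
    induction k using Nat.strong_induction_on with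
    | _ k ih =>
      intro X _ T hT hU
      by_cases hsep : T.Sep
      · exact h X T hT hsep
      · unfold Tab.Sep at hsep
        push Not at hsep
        obtain ⟨w, hwi, hwj, hwx, hwz, -⟩ := hsep
        exact T.step hT w hwi hwj hwx hwz (fun Y _ T' h1 h2 => ih T'.U (hU ▸ h2) Y T' h1 rfl)
  intro X _ T hT
  exact main T.U X T hT rfl

end Pool.Agent.CPT
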